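import Pool.Agent.LibBE36K.K04

/-! Row BE36 K05 (cites K02, K03, K04): `inv`, `exp`, `log`, `sqrt`. MEDIUM, 50 min.
Plan. Everything by `HB_comp` (row K04) with the functions `g i = (·)⁻¹`, `Real.exp`, `Real.log`, `Real.sqrt` of one
real variable at the points `t i = f i (x i)`: HE facts `HE_inv`, `HE_exp`, `HE_log`, `HE_sqrt` for one point:
`w ↦ w⁻¹` on the ball of radius `|t| / 2` around `t ≠ 0`: `|w| ≥ |t| / 2`; `Complex.exp` on the ball of radius `1`:
`|exp w| = exp (Re w) ≤ e * exp t`; `Complex.log` on the ball of radius `t / 2`, `t > 0` (`Re w ≥ t / 2 > 0`, so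
`w ∈ Complex.slitPlane`, `Complex.differentiableAt_log`, `Complex.ofReal_log`): `|log w| ≤ |log |w|| + π`,
`t / 2 ≤ |w| ≤ 2 t`, `|Real.log s| ≤ s + 1 / s`; `sqrt w = exp (log w / 2)` (`Real.sqrt_eq_rpow`, `Real.rpow_def_of_pos`),
norm `√|w| ≤ 1 + |w|`. For real `y` in the ball of radius `t / 2` around `t` the value is positive. `Real.rpow` likewise
(`exp (a * log w)`). `HB_div` from `HB_inv`, `HB_mul`. -/

open Set Filter Topology

namespace BE36

variable {ι E F EC FC : Type} [NormedAddCommGroup E] [NormedSpace ℝ E] [FiniteDimensional ℝ E]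
  [NormedAddCommGroup F] [NormedSpace ℝ F] [FiniteDimensional ℝ F] [NormedAddCommGroup EC]
  [NormedSpace ℂ EC] [NormedAddCommGroup FC] [NormedSpace ℂ FC] [CX E EC] [CX F FC]
  {ℓ : ι → ℝ} {x : ι → E}

/-- Points of a ball with real centre. -/
private theorem K05_mem {t : ℝ} {r : ℝ} {w : ℂ}
    (hw : w ∈ Metric.ball (CX.of t : ℂ) r) : ‖w - (t : ℂ)‖ < r := by
  rw [Metric.mem_ball, dist_eq_norm] at hw
  exact hw

private theorem K05_norm_lo {t : ℝ} {r : ℝ} {w : ℂ}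
    (hw : w ∈ Metric.ball (CX.of t : ℂ) r) : |t| - r < ‖w‖ := by
  have h1 := K05_mem hw
  have h2 : ‖(t : ℂ)‖ ≤ ‖w - (t : ℂ)‖ + ‖w‖ := by
    have h3 := norm_sub_le w (w - (t : ℂ))
    have h4 : w - (w - (t : ℂ)) = (t : ℂ) := by ring
    rw [h4] at h3
    linarith
  rw [Complex.norm_real, Real.norm_eq_abs] at h2
  linarith

private theorem K05_norm_hi {t : ℝ} {r : ℝ} {w : ℂ}
    (hw : w ∈ Metric.ball (CX.of t : ℂ) r) : ‖w‖ < |t| + r := by
  have h1 := K05_mem hw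
  have h2 : ‖w‖ ≤ ‖w - (t : ℂ)‖ + ‖(t : ℂ)‖ := by
    have h3 := norm_add_le (w - (t : ℂ)) (t : ℂ)
    rwa [sub_add_cancel] at h3
  rw [Complex.norm_real, Real.norm_eq_abs] at h2
  linarith

private theorem K05_re {t : ℝ} {r : ℝ} {w : ℂ}
    (hw : w ∈ Metric.ball (CX.of t : ℂ) r) : |w.re - t| < r := by
  have h1 := K05_mem hw
  have h2 := Complex.abs_re_le_norm (w - (t : ℂ))
  rw [Complex.sub_re, Complex.ofReal_re] at h2
  linarith

private theorem K05_log {s : ℝ} (hs : 0 < s) : |Real.log s| ≤ s + s⁻¹ := by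
  have h1 := Real.log_le_sub_one_of_pos hs
  have h2 := Real.log_le_sub_one_of_pos (inv_pos.2 hs)
  rw [Real.log_inv] at h2
  have h3 : 0 < s⁻¹ := inv_pos.2 hs
  rw [abs_le]
  constructor <;> linarith

theorem HE_inv {t : ℝ} (ht : t ≠ 0) : HE (fun s : ℝ => s⁻¹) t (|t| / 2) (2 / |t|) := by
  have ht' : 0 < |t| := abs_pos.2 ht
  have hlo : ∀ w ∈ Metric.ball (CX.of t : ℂ) (|t| / 2), |t| / 2 < ‖w‖ := by
    intro w hw
    have := K05_norm_lo hw
    linarith
  refine ⟨fun w => w⁻¹, ?_, ?_, ?_⟩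
  · intro w hw
    have h0 : w ≠ 0 := by
      intro h
      have := hlo w hw
      rw [h, norm_zero] at this
      linarith
    exact (differentiableAt_inv h0).differentiableWithinAt
  · intro w hw
    rw [norm_inv]
    have h1 := hlo w hw
    have h2 : (2 / |t|) = (|t| / 2)⁻¹ := by rw [inv_div]
    rw [h2]
    exact inv_anti₀ (by positivity) h1.le
  · intro y _
    change ((y : ℂ))⁻¹ = ((y⁻¹ : ℝ) : ℂ)
    rw [Complex.ofReal_inv]

theorem HE_exp (t : ℝ) : HE Real.exp t 1 (Real.exp 1 * Real.exp t) := by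
  refine ⟨Complex.exp, Complex.differentiable_exp.differentiableOn, ?_, ?_⟩
  · intro w hw
    have h1 := K05_re hw
    rw [Complex.norm_exp, ← Real.exp_add]
    apply Real.exp_le_exp.2
    have := (abs_lt.1 h1).2
    linarith
  · intro y _
    change Complex.exp (y : ℂ) = ((Real.exp y : ℝ) : ℂ)
    rw [Complex.ofReal_exp]

theorem HE_log {t : ℝ} (ht : 0 < t) : HE Real.log t (t / 2) (2 * t + 2 / t + 4) := by
  have hre : ∀ w ∈ Metric.ball (CX.of t : ℂ) (t / 2), t / 2 < w.re := by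
    intro w hw
    have := (abs_lt.1 (K05_re hw)).1
    linarith
  refine ⟨Complex.log, ?_, ?_, ?_⟩
  · intro w hw
    have h0 : w ∈ Complex.slitPlane := Or.inl (by have := hre w hw; linarith)
    exact (Complex.differentiableAt_log h0).differentiableWithinAt
  · intro w hw
    have h1 : t / 2 < ‖w‖ := by
      have := K05_norm_lo hw
      rw [abs_of_pos ht] at this
      linarith
    have h2 : ‖w‖ < 3 * t / 2 := by
      have := K05_norm_hi hw
      rw [abs_of_pos ht] at this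
      linarith
    have h3 := Complex.norm_le_abs_re_add_abs_im (Complex.log w)
    rw [Complex.log_re, Complex.log_im] at h3
    have h4 := Complex.abs_arg_le_pi w
    have h5 := K05_log (show 0 < ‖w‖ by linarith)
    have h6 : ‖w‖⁻¹ ≤ 2 / t := by
      have h7 : (2 / t) = (t / 2)⁻¹ := by rw [inv_div]
      rw [h7]
      exact inv_anti₀ (by positivity) h1.le
    have h8 := Real.pi_lt_four
    linarith
  · intro y hy
    change Complex.log (y : ℂ) = ((Real.log y : ℝ) : ℂ)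
    have hy' := hre _ hy
    have h9 : t / 2 < y := hy'
    rw [Complex.ofReal_log (by linarith)]

theorem HE_sqrt {t : ℝ} (ht : 0 < t) : HE Real.sqrt t (t / 2) (1 + 2 * t) := by
  have hre : ∀ w ∈ Metric.ball (CX.of t : ℂ) (t / 2), t / 2 < w.re := by
    intro w hw
    have := (abs_lt.1 (K05_re hw)).1
    linarith
  refine ⟨fun w => Complex.exp (Complex.log w / 2), ?_, ?_, ?_⟩
  · intro w hw
    have h0 : w ∈ Complex.slitPlane := Or.inl (by have := hre w hw; linarith)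
    exact (((Complex.differentiableAt_log h0).div_const 2).cexp).differentiableWithinAt
  · intro w hw
    have h2 : ‖w‖ < 3 * t / 2 := by
      have := K05_norm_hi hw
      rw [abs_of_pos ht] at this
      linarith
    have h1 : 0 < ‖w‖ := by
      have := K05_norm_lo hw
      rw [abs_of_pos ht] at this
      linarith
    have h3 : ‖Complex.exp (Complex.log w / 2)‖ = √‖w‖ := by
      rw [Complex.norm_exp, Real.sqrt_eq_rpow, Real.rpow_def_of_pos h1]
      congr 1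
      have h4 : (Complex.log w / 2).re = (Complex.log w).re / 2 := by
        rw [show (2 : ℂ) = ((2 : ℝ) : ℂ) by norm_num, Complex.div_ofReal_re]
      rw [h4, Complex.log_re]
      ring
    change ‖Complex.exp (Complex.log w / 2)‖ ≤ 1 + 2 * t
    rw [h3]
    have h5 : √‖w‖ ≤ 1 + ‖w‖ := by
      rw [Real.sqrt_le_left (by positivity)]
      nlinarith
    linarith
  · intro y hy
    have h9 : t / 2 < y := hre _ hy
    have hy0 : 0 < y := by linarith
    change Complex.exp (Complex.log (y : ℂ) / 2) = ((√y : ℝ) : ℂ)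
    rw [← Complex.ofReal_log hy0.le, Real.sqrt_eq_rpow, Real.rpow_def_of_pos hy0,
      Complex.ofReal_exp]
    congr 1
    push_cast
    ring

/-- Positive lower bound from the bound of the inverse. -/
private theorem K05_lo {a s : ℝ} (hs : 0 < s) (h : s⁻¹ ≤ a) : a⁻¹ ≤ s := by
  have h1 : 0 < s⁻¹ := inv_pos.2 hs
  have h2 := inv_anti₀ h1 h
  rwa [inv_inv] at h2

theorem HB_inv (hℓ : ∀ i, 0 ≤ ℓ i) {f : ι → E → ℝ} (hf : HB ℓ f x) (h0 : ∀ i, f i (x i) ≠ 0)
    {A : ℝ} (hA : 1 ≤ A) (hb : ∀ i, |f i (x i)|⁻¹ ≤ hc A (ℓ i)) :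
    HB ℓ (fun i y => (f i y)⁻¹) x := by
  refine HB_comp hℓ (g := fun _ s => s⁻¹) ?_ hf
  refine HB_of hℓ hA (c := 2) (c' := 1 / 2) (by norm_num) (by norm_num) 1 ?_
  intro i
  have hp := hc_pos (A := A) (t := ℓ i) hA
  have h1 : 0 < |f i (x i)| := abs_pos.2 (h0 i)
  have h2 := K05_lo h1 (hb i)
  refine HE_mono (HE_inv (h0 i)) ?_ ?_
  · rw [pow_one, div_eq_mul_inv]
    linarith
  · rw [pow_one, div_eq_mul_inv]
    have := hb i
    linarith

theorem HB_div (hℓ : ∀ i, 0 ≤ ℓ i) {f g : ι → E → ℝ} (hf : HB ℓ f x) (hg : HB ℓ g x)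
    (h0 : ∀ i, g i (x i) ≠ 0) {A : ℝ} (hA : 1 ≤ A) (hb : ∀ i, |g i (x i)|⁻¹ ≤ hc A (ℓ i)) :
    HB ℓ (fun i y => f i y / g i y) x := by
  refine HB_congr (HB_mul hℓ hf (HB_inv hℓ hg h0 hA hb)) ?_
  intro i y
  rw [div_eq_mul_inv]

theorem HB_exp (hℓ : ∀ i, 0 ≤ ℓ i) {f : ι → E → ℝ} (hf : HB ℓ f x)
    {A : ℝ} (hA : 1 ≤ A) (hb : ∀ i, Real.exp (f i (x i)) ≤ hc A (ℓ i)) :
    HB ℓ (fun i y => Real.exp (f i y)) x := by
  refine HB_comp hℓ (g := fun _ s => Real.exp s) ?_ hf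
  refine HB_of hℓ hA (c := Real.exp 1) (c' := 1) (Real.exp_pos 1).le (by norm_num) 1 ?_
  intro i
  have hp := hc_pos (A := A) (t := ℓ i) hA
  have h1 := hc_one hA (hℓ i)
  refine HE_mono (HE_exp _) ?_ ?_
  · rw [pow_one, div_le_one hp]
    exact h1
  · rw [pow_one]
    exact mul_le_mul_of_nonneg_left (hb i) (Real.exp_pos 1).le

theorem HB_log (hℓ : ∀ i, 0 ≤ ℓ i) {f : ι → E → ℝ} (hf : HB ℓ f x) (h0 : ∀ i, 0 < f i (x i))
    {A : ℝ} (hA : 1 ≤ A) (hb : ∀ i, (f i (x i))⁻¹ ≤ hc A (ℓ i)) :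
    HB ℓ (fun i y => Real.log (f i y)) x := by
  obtain ⟨A1, hA1, h1⟩ := HB_val hf
  refine HB_comp hℓ (g := fun _ s => Real.log s) ?_ hf
  have hA2 : 1 ≤ max A A1 := le_trans hA (le_max_left _ _)
  refine HB_of hℓ hA2 (c := 8) (c' := 1 / 2) (by norm_num) (by norm_num) 1 ?_
  intro i
  have hp := hc_pos (A := max A A1) (t := ℓ i) hA2
  have h2 := (hb i).trans (hc_mono hA (le_max_left A A1) (hℓ i))
  have h3 := (h1 i).trans (hc_mono hA1 (le_max_right A A1) (hℓ i))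
  have h4 := hc_one hA2 (hℓ i)
  have h5 := K05_lo (h0 i) h2
  rw [Real.norm_eq_abs, abs_of_pos (h0 i)] at h3
  refine HE_mono (HE_log (h0 i)) ?_ ?_
  · rw [pow_one, div_eq_mul_inv]
    linarith
  · rw [pow_one, div_eq_mul_inv 2 (f i (x i))]
    linarith

theorem HB_sqrt (hℓ : ∀ i, 0 ≤ ℓ i) {f : ι → E → ℝ} (hf : HB ℓ f x) (h0 : ∀ i, 0 < f i (x i))
    {A : ℝ} (hA : 1 ≤ A) (hb : ∀ i, (f i (x i))⁻¹ ≤ hc A (ℓ i)) :
    HB ℓ (fun i y => √(f i y)) x := by
  obtain ⟨A1, hA1, h1⟩ := HB_val hf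
  refine HB_comp hℓ (g := fun _ s => √s) ?_ hf
  have hA2 : 1 ≤ max A A1 := le_trans hA (le_max_left _ _)
  refine HB_of hℓ hA2 (c := 3) (c' := 1 / 2) (by norm_num) (by norm_num) 1 ?_
  intro i
  have hp := hc_pos (A := max A A1) (t := ℓ i) hA2
  have h2 := (hb i).trans (hc_mono hA (le_max_left A A1) (hℓ i))
  have h3 := (h1 i).trans (hc_mono hA1 (le_max_right A A1) (hℓ i))
  have h4 := hc_one hA2 (hℓ i)
  have h5 := K05_lo (h0 i) h2
  rw [Real.norm_eq_abs, abs_of_pos (h0 i)] at h3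
  refine HE_mono (HE_sqrt (h0 i)) ?_ ?_
  · rw [pow_one, div_eq_mul_inv]
    linarith
  · rw [pow_one]
    linarith

end BE36
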