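import Pool.Agent.LibBE36K.Cx
import Pool.Agent.LibBE36.HDefs

/-! BE36: the bridge between the calculus of `LibBE36K` (`BE36.CX`, `HO`, `HE`) and the calculus of `LibBE36`
(`H36.Cxf`, `Ext`, `Hol`). `toCxf` is a definition, not an instance: use it explicitly or with `letI`. -/

open Set Filter Topology

namespace BE36

/-- The complexification in the sense of `H36`. -/
@[reducible] noncomputable def toCxf (E EC : Type) [NormedAddCommGroup E] [NormedSpace ℝ E]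
    [NormedAddCommGroup EC] [NormedSpace ℂ EC] [CX E EC] : H36.Cxf E EC where
  j := CX.of
  re := CX.re
  im := CX.im
  j_add := CX.of_add
  j_smul := CX.of_smul
  j_norm := CX.norm_of
  re_add := CX.re_add
  im_add := CX.im_add
  re_smul := CX.re_smul
  im_smul := CX.im_smul
  re_I := CX.re_I
  im_I := CX.im_I
  re_j := CX.re_of
  im_j := CX.im_of
  split := CX.eta
  re_le := CX.norm_re
  im_le := CX.norm_im

variable {ι E F EC FC : Type} [NormedAddCommGroup E] [NormedSpace ℝ E] [NormedAddCommGroup F]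
  [NormedSpace ℝ F] [NormedAddCommGroup EC] [NormedSpace ℂ EC] [NormedAddCommGroup FC]
  [NormedSpace ℂ FC] [CX E EC] [CX F FC]

theorem toCxf_j (x : E) : (toCxf E EC).j x = CX.of x := rfl

theorem toCxf_re (z : EC) : (toCxf E EC).re z = CX.re z := rfl

theorem toCxf_im (z : EC) : (toCxf E EC).im z = CX.im z := rfl

/-- The extensions. -/
theorem ext_iff (f : E → F) (U : Set EC) (B : ℝ) (g : EC → FC) :
    @H36.Ext E F EC FC _ _ _ _ _ _ _ _ (toCxf E EC) (toCxf F FC) f U B g ↔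
      (DifferentiableOn ℂ g U ∧ (∀ z ∈ U, ‖g z‖ ≤ B) ∧
        ∀ y : E, CX.of y ∈ U → g (CX.of y) = CX.of (f y)) := by
  constructor
  · rintro ⟨h1, h2, h3⟩
    exact ⟨h1, h2, h3⟩
  · rintro ⟨h1, h2, h3⟩
    exact @H36.Ext.mk E F EC FC _ _ _ _ _ _ _ _ (toCxf E EC) (toCxf F FC) f U B g h1 h2 h3

theorem HO_iff (f : E → F) (U : Set EC) (B : ℝ) :
    HO U B f ↔ ∃ g : EC → FC,
      @H36.Ext E F EC FC _ _ _ _ _ _ _ _ (toCxf E EC) (toCxf F FC) f U B g := by
  constructor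
  · rintro ⟨g, h⟩
    exact ⟨g, (ext_iff f U B g).2 h⟩
  · rintro ⟨g, h⟩
    exact ⟨g, (ext_iff f U B g).1 h⟩

theorem HE_iff (f : E → F) (x : E) (r B : ℝ) :
    HE f x r B ↔ ∃ g : EC → FC,
      @H36.Ext E F EC FC _ _ _ _ _ _ _ _ (toCxf E EC) (toCxf F FC) f
        (Metric.ball (CX.of x) r) B g :=
  HO_iff f _ B

/-- `Hol f x B` is `HE f x (1 / B) B`. -/
theorem Hol_iff (f : E → F) (x : E) (B : ℝ) :
    @H36.Hol E F EC FC _ _ _ _ _ _ _ _ (toCxf E EC) (toCxf F FC) f x B ↔ HE f x (1 / B) B :=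
  (HE_iff f x (1 / B) B).symm

theorem Hol_of_HE {f : E → F} {x : E} {B : ℝ} (h : HE f x (1 / B) B) :
    @H36.Hol E F EC FC _ _ _ _ _ _ _ _ (toCxf E EC) (toCxf F FC) f x B := (Hol_iff f x B).2 h

theorem HE_of_Hol {f : E → F} {x : E} {B : ℝ}
    (h : @H36.Hol E F EC FC _ _ _ _ _ _ _ _ (toCxf E EC) (toCxf F FC) f x B) :
    HE f x (1 / B) B := (Hol_iff f x B).1 h

/-- From a general radius: if `r⁻¹ ≤ B'` and `B ≤ B'` then `Hol f x B'`. -/
theorem Hol_of_HE' {f : E → F} {x : E} {r B B' : ℝ} (h : HE f x r B) (hr : 1 / B' ≤ r)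
    (hB : B ≤ B') :
    @H36.Hol E F EC FC _ _ _ _ _ _ _ _ (toCxf E EC) (toCxf F FC) f x B' := by
  apply Hol_of_HE
  obtain ⟨g, h1, h2, h3⟩ := h
  have hsub : Metric.ball (CX.of x : EC) (1 / B') ⊆ Metric.ball (CX.of x) r :=
    Metric.ball_subset_ball hr
  exact ⟨g, h1.mono hsub, fun z hz => (h2 z (hsub hz)).trans hB, fun y hy => h3 y (hsub hy)⟩

end BE36
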