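import Mathlib

/-! Row BE36 K07 (only Mathlib): uniform limits of holomorphic maps. MEDIUM, 40 min.
Plan. Let `z ∈ U`, `ball z (2 ρ) ⊆ U`. Cauchy's estimate in every direction (functions
`ζ ↦ (f n - f m) (w + ζ • v)` of one complex variable, `Complex.norm_deriv_le_of_forall_mem_sphere_norm_le`) gives
`‖fderiv ℂ (f n) w - fderiv ℂ (f m) w‖ ≤ sup ‖f n - f m‖ / ρ` for `w ∈ ball z ρ`, so the derivatives are uniformly
Cauchy on `ball z ρ`, hence converge uniformly (`X →L[ℂ] Y` is complete) to some `f'`;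
`hasFDerivAt_of_tendstoUniformlyOn` (`Mathlib/Analysis/Calculus/UniformLimitsDeriv.lean`) on the open ball. -/

open Set Filter Topology

namespace BE36

variable {X Y : Type} [NormedAddCommGroup X] [NormedSpace ℂ X] [NormedAddCommGroup Y]
  [NormedSpace ℂ Y] [CompleteSpace Y]

omit [CompleteSpace Y] in
/-- Cauchy's estimate for the derivative of a holomorphic map between normed spaces. -/
theorem K07_cauchy {U : Set X} (hU : IsOpen U) {h : X → Y} (hh : DifferentiableOn ℂ h U)
    {C ρ : ℝ} (hρ : 0 < ρ) (hC0 : 0 ≤ C) (hC : ∀ x ∈ U, ‖h x‖ ≤ C) {w : X}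
    (hw : Metric.closedBall w ρ ⊆ U) : ‖fderiv ℂ h w‖ ≤ C / ρ := by
  refine ContinuousLinearMap.opNorm_le_bound _ (by positivity) fun v => ?_
  by_cases hv : v = 0
  · subst hv
    simp
  have hv0 : 0 < ‖v‖ := norm_pos_iff.mpr hv
  have hr : 0 < ρ / ‖v‖ := by positivity
  have hmem : ∀ ζ ∈ Metric.closedBall (0 : ℂ) (ρ / ‖v‖), w + ζ • v ∈ U := by
    intro ζ hζ
    apply hw
    rw [Metric.mem_closedBall, dist_eq_norm, add_sub_cancel_left, norm_smul]
    rw [mem_closedBall_zero_iff] at hζ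
    calc ‖ζ‖ * ‖v‖ ≤ ρ / ‖v‖ * ‖v‖ := by gcongr
      _ = ρ := by field_simp
  have hdl : Differentiable ℂ (fun ζ : ℂ => w + ζ • v) := by fun_prop
  have hd : DifferentiableOn ℂ (fun ζ : ℂ => h (w + ζ • v))
      (Metric.closedBall (0 : ℂ) (ρ / ‖v‖)) := by
    intro ζ hζ
    have h1 := (hh _ (hmem ζ hζ)).differentiableAt (hU.mem_nhds (hmem ζ hζ))
    exact (DifferentiableAt.comp ζ h1 (hdl ζ)).differentiableWithinAt
  have hdc : DiffContOnCl ℂ (fun ζ : ℂ => h (w + ζ • v)) (Metric.ball (0 : ℂ) (ρ / ‖v‖)) := by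
    apply DifferentiableOn.diffContOnCl
    rw [closure_ball _ hr.ne']
    exact hd
  have h2 := Complex.norm_deriv_le_of_forall_mem_sphere_norm_le hr hdc
    (fun ζ hζ => hC _ (hmem ζ (Metric.sphere_subset_closedBall hζ)))
  have h3 : HasDerivAt (fun ζ : ℂ => h (w + ζ • v)) (fderiv ℂ h w v) 0 := by
    have hw' : w ∈ U := hw (Metric.mem_closedBall_self hρ.le)
    have h1 : HasFDerivAt h (fderiv ℂ h w) (w + (0 : ℂ) • v) := by
      rw [zero_smul, add_zero]
      exact ((hh _ hw').differentiableAt (hU.mem_nhds hw')).hasFDerivAt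
    have h4 : HasDerivAt (fun ζ : ℂ => w + ζ • v) v 0 := by
      have h5 := ((hasDerivAt_id (0 : ℂ)).smul_const v).const_add w
      simpa using h5
    exact h1.comp_hasDerivAt (0 : ℂ) h4
  rw [h3.deriv] at h2
  calc ‖fderiv ℂ h w v‖ ≤ C / (ρ / ‖v‖) := h2
    _ = C / ρ * ‖v‖ := by field_simp

/-- Uniform limits of holomorphic maps are holomorphic. -/
theorem holo_lim {U : Set X} (hU : IsOpen U) {f : ℕ → X → Y} {g : X → Y}
    (hf : ∀ n, DifferentiableOn ℂ (f n) U) (hlim : TendstoUniformlyOn f g atTop U) :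
    DifferentiableOn ℂ g U := by
  intro z hz
  obtain ⟨ρ, hρ, hball⟩ := Metric.isOpen_iff.mp hU z hz
  have hsub : ∀ w ∈ Metric.ball z (ρ / 2), Metric.closedBall w (ρ / 4) ⊆ U := by
    intro w hw x hx
    apply hball
    rw [Metric.mem_ball] at hw ⊢
    rw [Metric.mem_closedBall] at hx
    calc dist x z ≤ dist x w + dist w z := dist_triangle _ _ _
      _ < ρ / 4 + ρ / 2 := by linarith
      _ < ρ := by linarith
  have hsubU : Metric.ball z (ρ / 2) ⊆ U := fun w hw =>
    hsub w hw (Metric.mem_closedBall_self (by positivity))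
  have hder : ∀ n, ∀ w ∈ Metric.ball z (ρ / 2), HasFDerivAt (f n) (fderiv ℂ (f n) w) w :=
    fun n w hw => ((hf n w (hsubU hw)).differentiableAt (hU.mem_nhds (hsubU hw))).hasFDerivAt
  have hC : UniformCauchySeqOn (fun n => fderiv ℂ (f n)) atTop (Metric.ball z (ρ / 2)) := by
    rw [Metric.uniformCauchySeqOn_iff]
    intro ε hε
    have h1 := Metric.tendstoUniformlyOn_iff.mp hlim (ε * ρ / 16) (by positivity)
    obtain ⟨N, hN⟩ := eventually_atTop.mp h1
    refine ⟨N, fun m hm n hn w hw => ?_⟩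
    rw [dist_eq_norm]
    have h2 : fderiv ℂ (f m) w - fderiv ℂ (f n) w = fderiv ℂ (fun x => f m x - f n x) w :=
      ((hder m w hw).sub (hder n w hw)).fderiv.symm
    have h3 : ∀ x ∈ U, ‖f m x - f n x‖ ≤ ε * ρ / 8 := by
      intro x hx
      rw [← dist_eq_norm]
      have h4 := hN m hm x hx
      have h5 := hN n hn x hx
      calc dist (f m x) (f n x) ≤ dist (f m x) (g x) + dist (g x) (f n x) := dist_triangle _ _ _
        _ ≤ ε * ρ / 8 := by rw [dist_comm (f m x) (g x)]; linarith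
    have h6 := K07_cauchy hU (h := fun x => f m x - f n x)
      ((hf m).sub (hf n)) (by positivity : (0 : ℝ) < ρ / 4) (by positivity) h3 (hsub w hw)
    rw [h2]
    calc ‖fderiv ℂ (fun x => f m x - f n x) w‖ ≤ ε * ρ / 8 / (ρ / 4) := h6
      _ = ε / 2 := by field_simp; norm_num
      _ < ε := by linarith
  have hex : ∀ w ∈ Metric.ball z (ρ / 2), ∃ L : X →L[ℂ] Y,
      Tendsto (fun n => fderiv ℂ (f n) w) atTop (𝓝 L) := by
    intro w hw
    exact cauchySeq_tendsto_of_complete (hC.cauchySeq hw)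
  classical
  let f' : X → X →L[ℂ] Y := fun w =>
    if hw : w ∈ Metric.ball z (ρ / 2) then Classical.choose (hex w hw) else 0
  have hf' : ∀ w ∈ Metric.ball z (ρ / 2),
      Tendsto (fun n => fderiv ℂ (f n) w) atTop (𝓝 (f' w)) := by
    intro w hw
    simp only [f', dif_pos hw]
    exact Classical.choose_spec (hex w hw)
  have hT : TendstoUniformlyOn (fun n => fderiv ℂ (f n)) f' atTop (Metric.ball z (ρ / 2)) :=
    hC.tendstoUniformlyOn_of_tendsto hf'
  have hfin : HasFDerivAt g (f' z) z :=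
    hasFDerivAt_of_tendstoUniformlyOn Metric.isOpen_ball hT hder
      (fun x hx => hlim.tendsto_at (hsubU hx)) (Metric.mem_ball_self (by positivity))
  exact hfin.differentiableAt.differentiableWithinAt

end BE36
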