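import Pool.Agent.LibBE36K.K02
import Pool.Agent.LibBE36K.K07

/-! Row BE36 K03 (cites K01, K02): Cauchy's estimates and the real derivatives. MEDIUM, 60 min.
Plan. `ho_fd`: at a point `z` of the open set `Ω` with `ball z ρ ⊆ Ω` the derivative in the direction `v ≠ 0` is the
derivative at `0` of `ζ ↦ g (z + ζ • v)` on the disc `|ζ| < ρ / ‖v‖`:
`Complex.norm_deriv_le_of_forall_mem_sphere_norm_le` with radii `→ ρ / ‖v‖`, so `‖fderiv ℂ g z v‖ ≤ B / ρ * ‖v‖`;
`ContinuousLinearMap.opNorm_le_bound`. `ho_hol`: `z ↦ fderiv ℂ g z v` is again differentiable on the open set: in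
complex normed spaces use one variable at a time? In Mathlib: `DifferentiableOn.contDiffOn`/`analyticOn` hold for
functions of ONE complex variable only; here `E` is finite dimensional. Proof: Cauchy's formula in the direction `v`,
`fderiv ℂ g z v = (2 π i)⁻¹ • ∮ ζ in C(0, ρ), (ζ ^ 2)⁻¹ • g (z + ζ • v)`, and difference quotients
`n • (g (z + (1/n) • v) - g z)` converge locally uniformly to it (`‖n (g (z + v / n) - g z) - g'(z) v‖ ≤ C / n` by
Taylor's formula on the disc), so `holo_lim` (row K07: cite it) applies. `ho_real`: `g (of y + t • of v)` for real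
`t` is `of (f (y + t • v))`; the quotient of `of`-values converges to `fderiv ℂ g (of y) (of v)`, whose imaginary part
vanishes (`im_cont`); `f y = re (g (of y))`: `HasFDerivAt` of `f` at `y` with the derivative
`v ↦ re (fderiv ℂ g (of y) (of v))` (bounded linear: `LinearMap.mkContinuous`). `ho_second`: Taylor's formula for
`ζ ↦ g (z + ζ • h)` on the disc of radius `ρ / ‖h‖ ≥ 2`. -/

open Set Filter Topology

namespace BE36

variable {ι E F EC FC : Type} [NormedAddCommGroup E] [NormedSpace ℝ E] [FiniteDimensional ℝ E]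
  [NormedAddCommGroup F] [NormedSpace ℝ F] [FiniteDimensional ℝ F] [NormedAddCommGroup EC]
  [NormedSpace ℂ EC] [NormedAddCommGroup FC] [NormedSpace ℂ FC] [CX E EC] [CX F FC]
  {ℓ : ι → ℝ} {x : ι → E}

section one

variable {X Y : Type} [NormedAddCommGroup X] [NormedSpace ℂ X] [NormedAddCommGroup Y]
  [NormedSpace ℂ Y] [CompleteSpace Y]

omit [CompleteSpace Y] in
theorem K03_mem {z : X} {ρ R₀ : ℝ} {v : X} (hv : v ≠ 0) (hR : R₀ * ‖v‖ ≤ ρ) {ζ : ℂ}
    (hζ : ζ ∈ Metric.ball (0 : ℂ) R₀) : z + ζ • v ∈ Metric.ball z ρ := by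
  have hvn : 0 < ‖v‖ := norm_pos_iff.2 hv
  rw [mem_ball_zero_iff] at hζ
  rw [Metric.mem_ball, dist_eq_norm, add_sub_cancel_left, norm_smul]
  exact lt_of_lt_of_le (mul_lt_mul_of_pos_right hζ hvn) hR

omit [CompleteSpace Y] in
theorem K03_line {g : X → Y} {z : X} {ρ R₀ : ℝ} (hg : DifferentiableOn ℂ g (Metric.ball z ρ))
    {v : X} (hv : v ≠ 0) (hR : R₀ * ‖v‖ ≤ ρ) :
    DifferentiableOn ℂ (fun ζ : ℂ => g (z + ζ • v)) (Metric.ball 0 R₀) := by
  have h1 : Differentiable ℂ (fun ζ : ℂ => z + ζ • v) :=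
    (differentiable_id.smul_const v).const_add z
  exact hg.comp h1.differentiableOn fun ζ hζ => K03_mem hv hR hζ

omit [CompleteSpace Y] in
theorem K03_deriv {g : X → Y} {z : X} {ρ : ℝ} (hρ : 0 < ρ)
    (hg : DifferentiableOn ℂ g (Metric.ball z ρ)) (v : X) :
    HasDerivAt (fun ζ : ℂ => g (z + ζ • v)) (fderiv ℂ g z v) 0 := by
  have h1 : HasFDerivAt g (fderiv ℂ g z) (z + (0 : ℂ) • v) := by
    rw [zero_smul, add_zero]
    exact (hg.differentiableAt (Metric.ball_mem_nhds z hρ)).hasFDerivAt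
  have h2 : HasDerivAt (fun ζ : ℂ => z + ζ • v) v 0 := by
    have h3 := ((hasDerivAt_id (0 : ℂ)).smul_const v).const_add z
    rwa [one_smul] at h3
  exact h1.comp_hasDerivAt (0 : ℂ) h2

/-- Cauchy's estimate. -/
theorem ho_fd {g : X → Y} {z : X} {ρ B : ℝ} (hρ : 0 < ρ)
    (hg : DifferentiableOn ℂ g (Metric.ball z ρ)) (hB : ∀ w ∈ Metric.ball z ρ, ‖g w‖ ≤ B) :
    ‖fderiv ℂ g z‖ ≤ B / ρ := by
  have hB0 : 0 ≤ B := (norm_nonneg _).trans (hB z (Metric.mem_ball_self hρ))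
  refine ContinuousLinearMap.opNorm_le_bound _ (by positivity) fun v => ?_
  rcases eq_or_ne v 0 with rfl | hv
  · simp
  have hvn : 0 < ‖v‖ := norm_pos_iff.2 hv
  have key : ∀ R, 0 < R → R * ‖v‖ < ρ → ‖fderiv ℂ g z v‖ * R ≤ B := by
    intro R hR hR1
    have hc : Metric.closedBall (0 : ℂ) R ⊆ Metric.ball 0 (ρ / ‖v‖) := by
      refine Metric.closedBall_subset_ball ?_
      rw [lt_div_iff₀ hvn]
      exact hR1
    have hle : ρ / ‖v‖ * ‖v‖ ≤ ρ := by rw [div_mul_cancel₀ _ hvn.ne']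
    have hφ := K03_line hg hv hle
    have hd : DiffContOnCl ℂ (fun ζ : ℂ => g (z + ζ • v)) (Metric.ball 0 R) := by
      refine DifferentiableOn.diffContOnCl ?_
      rw [closure_ball (0 : ℂ) hR.ne']
      exact hφ.mono hc
    have h1 := Complex.norm_deriv_le_of_forall_mem_sphere_norm_le hR hd (C := B)
      (fun ζ hζ => hB _ (K03_mem hv hle (hc (Metric.sphere_subset_closedBall hζ))))
    rw [(K03_deriv hρ hg v).deriv, le_div_iff₀ hR] at h1
    exact h1
  by_contra hcon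
  rw [not_le] at hcon
  have hN : 0 < ‖fderiv ℂ g z v‖ := lt_of_le_of_lt (by positivity) hcon
  have h2 : B / ‖fderiv ℂ g z v‖ < ρ / ‖v‖ := by
    rw [div_lt_div_iff₀ hN hvn]
    rw [div_mul_eq_mul_div, div_lt_iff₀ hρ] at hcon
    linarith
  obtain ⟨R, hR1, hR2⟩ := exists_between h2
  have hR0 : 0 < R := lt_of_le_of_lt (by positivity) hR1
  have h3 := key R hR0 (by rwa [lt_div_iff₀ hvn] at hR2)
  rw [div_lt_iff₀ hN] at hR1
  linarith

/-- The second order term. -/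
theorem ho_second {g : X → Y} {z : X} {ρ B : ℝ} (hρ : 0 < ρ)
    (hg : DifferentiableOn ℂ g (Metric.ball z ρ)) (hB : ∀ w ∈ Metric.ball z ρ, ‖g w‖ ≤ B)
    {h : X} (hh : ‖h‖ ≤ ρ / 2) : ‖g (z + h) - g z - fderiv ℂ g z h‖ ≤ 4 * B / ρ ^ 2 * ‖h‖ ^ 2 := by
  have hB0 : 0 ≤ B := (norm_nonneg _).trans (hB z (Metric.mem_ball_self hρ))
  rcases eq_or_ne h 0 with rfl | hv
  · simp
  have hvn : 0 < ‖h‖ := norm_pos_iff.2 hv
  set R₀ : ℝ := ρ / ‖h‖ with hR₀
  have hR₀2 : 2 ≤ R₀ := by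
    rw [hR₀, le_div_iff₀ hvn]
    linarith
  have hle : R₀ * ‖h‖ ≤ ρ := by rw [hR₀, div_mul_cancel₀ _ hvn.ne']
  set φ : ℂ → Y := fun ζ => g (z + ζ • h) with hφd
  have hφ : DifferentiableOn ℂ φ (Metric.ball 0 R₀) := K03_line hg hv hle
  have hnh : Metric.ball (0 : ℂ) R₀ ∈ 𝓝 (0 : ℂ) := Metric.ball_mem_nhds _ (by linarith)
  have hφ1 : DifferentiableOn ℂ (dslope φ 0) (Metric.ball 0 R₀) :=
    (Complex.differentiableOn_dslope hnh).2 hφ
  have hφ2 : DifferentiableOn ℂ (dslope (dslope φ 0) 0) (Metric.ball 0 R₀) :=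
    (Complex.differentiableOn_dslope hnh).2 hφ1
  set R : ℝ := 9 / 10 * R₀ with hR
  have hR1 : 1 < R := by linarith
  have hR0 : 0 < R := by linarith
  have hc : Metric.closedBall (0 : ℂ) R ⊆ Metric.ball 0 R₀ :=
    Metric.closedBall_subset_ball (by linarith)
  have hd : DiffContOnCl ℂ (dslope (dslope φ 0) 0) (Metric.ball 0 R) := by
    refine DifferentiableOn.diffContOnCl ?_
    rw [closure_ball (0 : ℂ) hR0.ne']
    exact hφ2.mono hc
  have hφb : ∀ ζ ∈ Metric.ball (0 : ℂ) R₀, ‖φ ζ‖ ≤ B := fun ζ hζ => hB _ (K03_mem hv hle hζ)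
  have hder : HasDerivAt φ (fderiv ℂ g z h) 0 := K03_deriv hρ hg h
  have hd0 : ‖deriv φ 0‖ ≤ B / R := by
    refine Complex.norm_deriv_le_of_forall_mem_sphere_norm_le hR0 ?_
      (fun ζ hζ => hφb _ (hc (Metric.sphere_subset_closedBall hζ)))
    refine DifferentiableOn.diffContOnCl ?_
    rw [closure_ball (0 : ℂ) hR0.ne']
    exact hφ.mono hc
  have hbd : ∀ ζ ∈ frontier (Metric.ball (0 : ℂ) R), ‖dslope (dslope φ 0) 0 ζ‖ ≤ 3 * B / R ^ 2 := by
    intro ζ hζ
    rw [frontier_ball (0 : ℂ) hR0.ne'] at hζ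
    have hζn : ‖ζ‖ = R := by rwa [mem_sphere_zero_iff_norm] at hζ
    have hζ0 : ζ ≠ 0 := by
      rw [← norm_pos_iff, hζn]
      exact hR0
    have e1 : dslope (dslope φ 0) 0 ζ = ζ⁻¹ • (dslope φ 0 ζ - deriv φ 0) := by
      rw [dslope_of_ne _ hζ0, slope_def_module, dslope_same, sub_zero]
    have e2 : dslope φ 0 ζ = ζ⁻¹ • (φ ζ - φ 0) := by
      rw [dslope_of_ne _ hζ0, slope_def_module, sub_zero]
    have n1 : ‖φ ζ - φ 0‖ ≤ 2 * B := by
      have a1 := hφb ζ (hc (Metric.sphere_subset_closedBall hζ))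
      have a2 := hφb 0 (Metric.mem_ball_self (by linarith))
      have a3 := norm_sub_le (φ ζ) (φ 0)
      linarith
    have n2 : ‖dslope φ 0 ζ‖ ≤ 2 * B / R := by
      rw [e2, norm_smul, norm_inv, hζn, inv_mul_eq_div]
      exact div_le_div_of_nonneg_right n1 hR0.le
    have n3 : ‖dslope φ 0 ζ - deriv φ 0‖ ≤ 3 * B / R := by
      refine (norm_sub_le _ _).trans ((add_le_add n2 hd0).trans (le_of_eq ?_))
      ring
    rw [e1, norm_smul, norm_inv, hζn, inv_mul_eq_div]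
    refine (div_le_div_of_nonneg_right n3 hR0.le).trans (le_of_eq ?_)
    rw [div_div, pow_two]
  have hmax := Complex.norm_le_of_forall_mem_frontier_norm_le Metric.isBounded_ball hd hbd
    (z := 1) (subset_closure (by rw [mem_ball_zero_iff, norm_one]; exact hR1))
  have e3 : dslope (dslope φ 0) 0 1 = g (z + h) - g z - fderiv ℂ g z h := by
    rw [dslope_of_ne _ one_ne_zero, slope_def_module, dslope_same, sub_zero, inv_one, one_smul,
      dslope_of_ne _ one_ne_zero, slope_def_module, sub_zero, inv_one, one_smul, hder.deriv, hφd]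
    simp
  rw [e3] at hmax
  refine hmax.trans ?_
  have hρe : ρ = R₀ * ‖h‖ := by rw [hR₀, div_mul_cancel₀ _ hvn.ne']
  have hR₀0 : 0 < R₀ := by linarith
  have e4 : 4 * B / ρ ^ 2 * ‖h‖ ^ 2 = 4 * B / R₀ ^ 2 := by
    rw [hρe, mul_pow]
    field_simp
  rw [e4, div_le_div_iff₀ (by positivity) (by positivity), hR]
  nlinarith [mul_nonneg hB0 (sq_nonneg R₀)]

/-- The Lipschitz bound on the smaller ball. -/
theorem ho_lip {g : X → Y} {z : X} {ρ B : ℝ} (hρ : 0 < ρ)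
    (hg : DifferentiableOn ℂ g (Metric.ball z ρ)) (hB : ∀ w ∈ Metric.ball z ρ, ‖g w‖ ≤ B)
    {w w' : X} (hw : w ∈ Metric.ball z (ρ / 2)) (hw' : w' ∈ Metric.ball z (ρ / 2)) :
    ‖g w - g w'‖ ≤ 2 * B / ρ * ‖w - w'‖ := by
  have hs : ∀ u ∈ Metric.ball z (ρ / 2), Metric.ball u (ρ / 2) ⊆ Metric.ball z ρ := by
    intro u hu
    refine Metric.ball_subset_ball' ?_
    rw [Metric.mem_ball] at hu
    linarith
  have hsub : Metric.ball z (ρ / 2) ⊆ Metric.ball z ρ := Metric.ball_subset_ball (by linarith)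
  have h1 : ∀ u ∈ Metric.ball z (ρ / 2), DifferentiableAt ℂ g u := fun u hu =>
    hg.differentiableAt (Metric.isOpen_ball.mem_nhds (hsub hu))
  have h2 : ∀ u ∈ Metric.ball z (ρ / 2), ‖fderiv ℂ g u‖ ≤ 2 * B / ρ := by
    intro u hu
    have h3 := ho_fd (g := g) (z := u) (ρ := ρ / 2) (B := B) (by linarith) (hg.mono (hs u hu))
      (fun w hw => hB w (hs u hu hw))
    refine h3.trans (le_of_eq ?_)
    field_simp
  exact Convex.norm_image_sub_le_of_norm_fderiv_le h1 h2 (convex_ball z (ρ / 2)) hw' hw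

/-- Derivatives of holomorphic functions are holomorphic. -/
theorem ho_hol {g : X → Y} {Ω : Set X} (hΩ : IsOpen Ω) (hg : DifferentiableOn ℂ g Ω) (v : X) :
    DifferentiableOn ℂ (fun z => fderiv ℂ g z v) Ω := by
  intro z₀ hz₀
  have hca : ContinuousAt g z₀ := (hg.differentiableAt (hΩ.mem_nhds hz₀)).continuousAt
  set B : ℝ := ‖g z₀‖ + 1 with hB
  have hB0 : 0 < B := by positivity
  obtain ⟨δ, hδ, hδs⟩ : ∃ δ > 0, ∀ w ∈ Metric.ball z₀ δ, w ∈ Ω ∧ ‖g w‖ ≤ B := by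
    have h1 : ∀ᶠ w in 𝓝 z₀, ‖g w‖ < B := by
      have h2 := hca.norm
      exact h2.eventually (gt_mem_nhds (by rw [hB]; linarith))
    obtain ⟨δ, hδ, h3⟩ := Metric.mem_nhds_iff.1 ((hΩ.mem_nhds hz₀ : Ω ∈ 𝓝 z₀) |> fun h4 =>
      Filter.inter_mem h4 h1)
    exact ⟨δ, hδ, fun w hw => ⟨(h3 hw).1, (h3 hw).2.le⟩⟩
  set ρ : ℝ := δ / 2 with hρd
  have hρ : 0 < ρ := by positivity
  have hsub : ∀ z ∈ Metric.ball z₀ ρ, Metric.ball z ρ ⊆ Metric.ball z₀ δ := by
    intro z hz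
    refine Metric.ball_subset_ball' ?_
    rw [Metric.mem_ball] at hz
    linarith
  obtain ⟨N, hN⟩ := exists_nat_gt (2 * ‖v‖ / ρ)
  have hNpos : 0 < (N : ℝ) := lt_of_le_of_lt (by positivity) hN
  have hcn : ∀ n : ℕ, (0 : ℝ) < ((n + N : ℕ) : ℝ) := by
    intro n
    push_cast
    positivity
  have hcc : ∀ n : ℕ, (((n + N : ℕ) : ℂ)) ≠ 0 := by
    intro n
    have := (hcn n).ne'
    exact_mod_cast this
  have hhn : ∀ n : ℕ, ‖(((n + N : ℕ) : ℂ))⁻¹ • v‖ = ‖v‖ / ((n + N : ℕ) : ℝ) := by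
    intro n
    rw [norm_smul, norm_inv, Complex.norm_natCast, inv_mul_eq_div]
  have hh2 : ∀ n : ℕ, ‖(((n + N : ℕ) : ℂ))⁻¹ • v‖ ≤ ρ / 2 := by
    intro n
    rw [hhn, div_le_iff₀ (hcn n)]
    rw [div_lt_iff₀ hρ] at hN
    have h1 : (N : ℝ) ≤ ((n + N : ℕ) : ℝ) := by
      push_cast
      have : (0 : ℝ) ≤ n := Nat.cast_nonneg n
      linarith
    nlinarith
  set f : ℕ → X → Y := fun n z => ((n + N : ℕ) : ℂ) • (g (z + (((n + N : ℕ) : ℂ))⁻¹ • v) - g z)
    with hf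
  have hmem : ∀ n : ℕ, ∀ z ∈ Metric.ball z₀ ρ, z + (((n + N : ℕ) : ℂ))⁻¹ • v ∈
      Metric.ball z₀ δ := by
    intro n z hz
    apply hsub z hz
    rw [Metric.mem_ball, dist_eq_norm, add_sub_cancel_left]
    exact lt_of_le_of_lt (hh2 n) (by linarith)
  have hfd : ∀ n, DifferentiableOn ℂ (f n) (Metric.ball z₀ ρ) := by
    intro n
    have h1 : DifferentiableOn ℂ (fun z => g (z + (((n + N : ℕ) : ℂ))⁻¹ • v))
        (Metric.ball z₀ ρ) := by
      refine hg.comp (t := Ω) ((differentiable_id.add_const _).differentiableOn) ?_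
      intro z hz
      exact (hδs _ (hmem n z hz)).1
    have h2 : DifferentiableOn ℂ g (Metric.ball z₀ ρ) := hg.mono fun z hz =>
      (hδs z (hsub z hz (Metric.mem_ball_self hρ))).1
    exact (h1.sub h2).const_smul _
  have hlim : TendstoUniformlyOn f (fun z => fderiv ℂ g z v) atTop (Metric.ball z₀ ρ) := by
    rw [Metric.tendstoUniformlyOn_iff]
    intro ε hε
    have h1 : Tendsto (fun n : ℕ => 4 * B / ρ ^ 2 * ‖v‖ ^ 2 / ((n + N : ℕ) : ℝ)) atTop (𝓝 0) := by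
      have h2 : Tendsto (fun n : ℕ => ((n + N : ℕ) : ℝ)) atTop atTop :=
        tendsto_natCast_atTop_atTop.comp (tendsto_add_atTop_nat N)
      exact h2.const_div_atTop _
    filter_upwards [h1.eventually (gt_mem_nhds hε)] with n hn z hz
    refine lt_of_le_of_lt ?_ hn
    have h3 := ho_second (g := g) (z := z) (ρ := ρ) (B := B) hρ
      (hg.mono fun w hw => (hδs w (hsub z hz hw)).1) (fun w hw => (hδs w (hsub z hz hw)).2) (hh2 n)
    have e1 : f n z - fderiv ℂ g z v = ((n + N : ℕ) : ℂ) • (g (z + (((n + N : ℕ) : ℂ))⁻¹ • v) -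
        g z - fderiv ℂ g z ((((n + N : ℕ) : ℂ))⁻¹ • v)) := by
      rw [hf]
      simp only
      rw [map_smul, smul_sub, smul_sub, smul_sub, smul_smul, mul_inv_cancel₀ (hcc n), one_smul]
    rw [dist_comm, dist_eq_norm, e1, norm_smul, Complex.norm_natCast]
    rw [hhn n] at h3
    calc ((n + N : ℕ) : ℝ) * ‖g (z + (((n + N : ℕ) : ℂ))⁻¹ • v) -
        g z - fderiv ℂ g z ((((n + N : ℕ) : ℂ))⁻¹ • v)‖ ≤
        ((n + N : ℕ) : ℝ) * (4 * B / ρ ^ 2 * (‖v‖ / ((n + N : ℕ) : ℝ)) ^ 2) :=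
          mul_le_mul_of_nonneg_left h3 (hcn n).le
      _ = 4 * B / ρ ^ 2 * ‖v‖ ^ 2 / ((n + N : ℕ) : ℝ) := by
          have := (hcn n).ne'
          field_simp
  have hres := holo_lim Metric.isOpen_ball hfd hlim
  exact (hres.differentiableAt (Metric.ball_mem_nhds z₀ hρ)).differentiableWithinAt

end one

/-- `CX.of` as a real linear map. -/
noncomputable def K03_of (E EC : Type) [NormedAddCommGroup E] [NormedSpace ℝ E]
    [NormedAddCommGroup EC] [NormedSpace ℂ EC] [CX E EC] : E →L[ℝ] EC :=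
  LinearMap.mkContinuous
    { toFun := CX.of
      map_add' := CX.of_add
      map_smul' := fun r x => by
        rw [CX.of_smul, RingHom.id_apply, Complex.coe_smul] } 1
    (fun x => by
      rw [one_mul]
      exact (CX.norm_of x).le)

/-- `CX.re` as a real linear map. -/
noncomputable def K03_re (E EC : Type) [NormedAddCommGroup E] [NormedSpace ℝ E]
    [NormedAddCommGroup EC] [NormedSpace ℂ EC] [CX E EC] : EC →L[ℝ] E :=
  LinearMap.mkContinuous
    { toFun := CX.re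
      map_add' := CX.re_add
      map_smul' := fun r x => by
        rw [RingHom.id_apply, ← Complex.coe_smul, CX.re_smul] } 1
    (fun x => by
      rw [one_mul]
      exact CX.norm_re x)

/-- `CX.im` as a real linear map. -/
noncomputable def K03_im (E EC : Type) [NormedAddCommGroup E] [NormedSpace ℝ E]
    [NormedAddCommGroup EC] [NormedSpace ℂ EC] [CX E EC] : EC →L[ℝ] E :=
  LinearMap.mkContinuous
    { toFun := CX.im
      map_add' := CX.im_add
      map_smul' := fun r x => by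
        rw [RingHom.id_apply, ← Complex.coe_smul, CX.im_smul] } 1
    (fun x => by
      rw [one_mul]
      exact CX.norm_im x)

/-- The real derivative. -/
theorem ho_real {Ω : Set EC} (hΩ : IsOpen Ω) {g : EC → FC} (hg : DifferentiableOn ℂ g Ω)
    {f : E → F} (hf : ∀ y : E, CX.of y ∈ Ω → g (CX.of y) = CX.of (f y)) {y : E}
    (hy : CX.of y ∈ Ω) : DifferentiableAt ℝ f y ∧
      ∀ z : EC, fderiv ℂ g (CX.of y) z = (cl (fderiv ℝ f y) : EC →L[ℂ] FC) z := by
  have hD : HasFDerivAt g (fderiv ℂ g (CX.of y)) (CX.of y) :=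
    (hg.differentiableAt (hΩ.mem_nhds hy)).hasFDerivAt
  set D := fderiv ℂ g (CX.of y) with hDd
  have h1 : HasFDerivAt (fun y' : E => g (CX.of y'))
      ((D.restrictScalars ℝ).comp (K03_of E EC)) y := by
    have h2 : HasFDerivAt g (D.restrictScalars ℝ) ((K03_of E EC) y) := hD.restrictScalars ℝ
    exact h2.comp y (K03_of E EC).hasFDerivAt
  have hev : ∀ᶠ y' in 𝓝 y, g (CX.of y') = CX.of (f y') := by
    have h3 : ∀ᶠ y' in 𝓝 y, (CX.of y' : EC) ∈ Ω :=
      (of_cont (E := E) (EC := EC)).continuousAt.eventually (hΩ.mem_nhds hy)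
    exact h3.mono fun y' h4 => hf y' h4
  have h5 : HasFDerivAt (fun y' : E => (CX.of (f y') : FC))
      ((D.restrictScalars ℝ).comp (K03_of E EC)) y :=
    h1.congr_of_eventuallyEq (hev.mono fun y' h => h.symm)
  have h6 : HasFDerivAt (fun y' : E => (CX.re (CX.of (f y') : FC) : F))
      ((K03_re F FC).comp ((D.restrictScalars ℝ).comp (K03_of E EC))) y :=
    (K03_re F FC).hasFDerivAt.comp y h5
  have h7 : HasFDerivAt (fun y' : E => (CX.im (CX.of (f y') : FC) : F))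
      ((K03_im F FC).comp ((D.restrictScalars ℝ).comp (K03_of E EC))) y :=
    (K03_im F FC).hasFDerivAt.comp y h5
  have h8 : HasFDerivAt f ((K03_re F FC).comp ((D.restrictScalars ℝ).comp (K03_of E EC))) y := by
    refine h6.congr_of_eventuallyEq (Filter.Eventually.of_forall fun y' => ?_)
    exact (CX.re_of (f y')).symm
  have h9 : (K03_im F FC).comp ((D.restrictScalars ℝ).comp (K03_of E EC)) = 0 := by
    have h10 : HasFDerivAt (fun y' : E => (CX.im (CX.of (f y') : FC) : F)) (0 : E →L[ℝ] F) y := by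
      have e : (fun y' : E => (CX.im (CX.of (f y') : FC) : F)) = fun _ => (0 : F) := by
        funext y'
        exact CX.im_of (f y')
      rw [e]
      exact hasFDerivAt_const (0 : F) y
    exact h7.unique h10
  refine ⟨h8.differentiableAt, fun z => ?_⟩
  rw [h8.fderiv]
  have hof : ∀ v : E, D (CX.of v) = CX.of
      (((K03_re F FC).comp ((D.restrictScalars ℝ).comp (K03_of E EC))) v) := by
    intro v
    have h11 : (CX.im (D (CX.of v)) : F) = 0 := by
      have h12 := congrArg (fun M : E →L[ℝ] F => M v) h9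
      exact h12
    exact ((real_iff (D (CX.of v))).1 h11).symm
  rw [cl_apply, ← hof, ← hof, ← map_smul, ← map_add, CX.eta]

theorem HO_fderiv {Ω Ω' : Set EC} (hΩ : IsOpen Ω) {B ρ : ℝ} (hρ : 0 < ρ)
    (h' : ∀ z ∈ Ω', Metric.ball z ρ ⊆ Ω) {f : E → F} (hf : HO Ω B f) (v : E) :
    HO Ω' (B / ρ * ‖v‖) (fun y => fderiv ℝ f y v) := by
  have : FiniteDimensional ℂ FC := fd_EC (E := F)
  have : CompleteSpace FC := FiniteDimensional.complete ℂ FC
  obtain ⟨g, hg, hb, hv⟩ := hf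
  have hsub : Ω' ⊆ Ω := fun z hz => h' z hz (Metric.mem_ball_self hρ)
  refine ⟨fun z => fderiv ℂ g z (CX.of v), (ho_hol hΩ hg _).mono hsub, ?_, ?_⟩
  · intro z hz
    have h1 := ho_fd hρ (hg.mono (h' z hz)) (fun w hw => hb w (h' z hz hw))
    calc ‖fderiv ℂ g z (CX.of v)‖ ≤ ‖fderiv ℂ g z‖ * ‖(CX.of v : EC)‖ :=
          ContinuousLinearMap.le_opNorm _ _
      _ ≤ B / ρ * ‖v‖ := by
          rw [CX.norm_of]
          exact mul_le_mul_of_nonneg_right h1 (norm_nonneg _)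
  · intro y hy
    have h1 := (ho_real hΩ hg hv (hsub hy)).2 (CX.of v)
    rw [cl_of] at h1
    exact h1

theorem HO_diff {Ω : Set EC} (hΩ : IsOpen Ω) {B : ℝ} {f : E → F} (hf : HO Ω B f) {y : E}
    (hy : CX.of y ∈ Ω) : DifferentiableAt ℝ f y := by
  obtain ⟨g, hg, -, hv⟩ := hf
  exact (ho_real hΩ hg hv hy).1

/-- Derivatives of a family of class `HB`. -/
theorem HB_fderiv (hℓ : ∀ i, 0 ≤ ℓ i) {f : ι → E → F} (hf : HB ℓ f x) (v : E) :
    HB ℓ (fun i y => fderiv ℝ (f i) y v) x := by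
  obtain ⟨A, hA, h⟩ := hf
  refine HB_of hℓ (A := A) (c := 2 * ‖v‖) (c' := 1 / 2) hA (by positivity) (by norm_num) 2 ?_
  intro i
  have h1 : 1 ≤ hc A (ℓ i) := hc_one hA (hℓ i)
  have h0 : 0 < hc A (ℓ i) := by linarith
  have hr : 0 < (hc A (ℓ i))⁻¹ / 2 := by positivity
  have h2 : HO (Metric.ball (CX.of (x i) : EC) ((hc A (ℓ i))⁻¹ / 2))
      (hc A (ℓ i) / ((hc A (ℓ i))⁻¹ / 2) * ‖v‖) (fun y => fderiv ℝ (f i) y v) := by
    refine HO_fderiv Metric.isOpen_ball hr ?_ (h i) v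
    intro z hz
    refine Metric.ball_subset_ball' ?_
    rw [Metric.mem_ball] at hz
    linarith
  refine HO_mono h2 (Metric.ball_subset_ball ?_) (le_of_eq ?_)
  · have h3 : (hc A (ℓ i) ^ 2)⁻¹ ≤ (hc A (ℓ i))⁻¹ := inv_anti₀ h0 (by nlinarith)
    have h4 : 1 / 2 / hc A (ℓ i) ^ 2 = (hc A (ℓ i) ^ 2)⁻¹ / 2 := by
      rw [div_eq_mul_inv, mul_comm]
      ring
    rw [h4]
    linarith
  · field_simp

/-- The real function near the point: differentiable, bounded, Lipschitz. -/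
theorem HB_real (hℓ : ∀ i, 0 ≤ ℓ i) {f : ι → E → F} (hf : HB ℓ f x) : ∃ A : ℝ, 1 ≤ A ∧
    ∀ i, (∀ y, ‖y - x i‖ < (hc A (ℓ i))⁻¹ → DifferentiableAt ℝ (f i) y ∧
      ‖fderiv ℝ (f i) y‖ ≤ hc A (ℓ i)) ∧
      ∀ y, ‖y - x i‖ < (hc A (ℓ i))⁻¹ → ‖f i y - f i (x i)‖ ≤ hc A (ℓ i) * ‖y - x i‖ := by
  have : FiniteDimensional ℂ FC := fd_EC (E := F)
  have : CompleteSpace FC := FiniteDimensional.complete ℂ FC
  obtain ⟨A, hA, h⟩ := hf
  obtain ⟨A', hA', -, hpow⟩ := hc_pow (A := A) (c := 2) hA (by norm_num) 2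
  refine ⟨A', hA', fun i => ?_⟩
  have h1 : 1 ≤ hc A (ℓ i) := hc_one hA (hℓ i)
  have h0 : 0 < hc A (ℓ i) := by linarith
  have h2 := hpow (ℓ i) (hℓ i)
  have h3 : (hc A' (ℓ i))⁻¹ ≤ (hc A (ℓ i))⁻¹ / 2 := by
    rw [inv_eq_one_div, inv_eq_one_div, div_div]
    refine one_div_le_one_div_of_le (by positivity) ?_
    nlinarith
  obtain ⟨g, hg, hb, hv⟩ := h i
  set r : ℝ := (hc A (ℓ i))⁻¹ with hr
  have hr0 : 0 < r := by positivity
  have hmem : ∀ y, ‖y - x i‖ < (hc A' (ℓ i))⁻¹ →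
      (CX.of y : EC) ∈ Metric.ball (CX.of (x i)) (r / 2) := by
    intro y hy
    rw [of_mem_ball]
    exact lt_of_lt_of_le hy h3
  have hsub : Metric.ball (CX.of (x i) : EC) (r / 2) ⊆ Metric.ball (CX.of (x i)) r :=
    Metric.ball_subset_ball (by linarith)
  have hcst : 2 * hc A (ℓ i) / r = 2 * hc A (ℓ i) ^ 2 := by
    rw [hr]
    field_simp
  refine ⟨fun y hy => ?_, fun y hy => ?_⟩
  · have hy1 := hmem y hy
    obtain ⟨d1, d2⟩ := ho_real Metric.isOpen_ball hg hv (hsub hy1)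
    refine ⟨d1, ?_⟩
    have hs : Metric.ball (CX.of y : EC) (r / 2) ⊆ Metric.ball (CX.of (x i)) r := by
      refine Metric.ball_subset_ball' ?_
      rw [Metric.mem_ball] at hy1
      linarith
    have h4 := ho_fd (g := g) (z := CX.of y) (ρ := r / 2) (B := hc A (ℓ i)) (by positivity)
      (hg.mono hs) (fun w hw => hb w (hs hw))
    have h5 : hc A (ℓ i) / (r / 2) = 2 * hc A (ℓ i) ^ 2 := by
      rw [← hcst]
      field_simp
    rw [h5] at h4
    refine ContinuousLinearMap.opNorm_le_bound _ (hc_pos hA').le fun v => ?_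
    have h6 := d2 (CX.of v)
    rw [cl_of] at h6
    calc ‖fderiv ℝ (f i) y v‖ = ‖(CX.of (fderiv ℝ (f i) y v) : FC)‖ := (CX.norm_of _).symm
      _ = ‖fderiv ℂ g (CX.of y) (CX.of v)‖ := by rw [h6]
      _ ≤ ‖fderiv ℂ g (CX.of y)‖ * ‖(CX.of v : EC)‖ := ContinuousLinearMap.le_opNorm _ _
      _ ≤ hc A' (ℓ i) * ‖v‖ := by
          rw [CX.norm_of]
          exact mul_le_mul_of_nonneg_right (h4.trans h2) (norm_nonneg _)
  · have hy1 := hmem y hy
    have hy0 : (CX.of (x i) : EC) ∈ Metric.ball (CX.of (x i)) (r / 2) :=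
      Metric.mem_ball_self (by positivity)
    have h4 := ho_lip hr0 hg hb hy1 hy0
    rw [hv y (hsub hy1), hv (x i) (hsub hy0), norm_of_sub, norm_of_sub, hcst] at h4
    exact h4.trans (mul_le_mul_of_nonneg_right h2 (norm_nonneg _))

end BE36
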