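import Pool.Agent.LibBE36K.K01

/-! Row BE36 K06 (cites K01): gluing. MEDIUM, 45 min.
Plan. `ho_unique`: let `z ∈ U`, `a = re z`, `b = im z`; the set `S = {s : ℂ | of a + s • of b ∈ U}` is open and convex
(preimage of a convex open set under an affine map), contains `0` (`hre`: `of a ∈ U`) and `I` (`eta`). The function
`s ↦ g (of a + s • of b) - h (..)` is holomorphic on `S` and vanishes for real `s ∈ S` (`of a + s • of b =
of (a + s • b)`), which accumulate at `0`: `AnalyticOnNhd.eqOn_of_preconnected_of_frequently_eq`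
(`DifferentiableOn.analyticOnNhd` on the open set `S ⊆ ℂ`; `FC` complete). At `s = I`: `g z = h z`. `HO_glue`: for every
`i` choose the extension `g i`; on `U i ∩ U j` (convex, open, closed under `z ↦ of (re z)`) `g i = g j` by `ho_unique`; put
`g z = g i z` for some `i` with `z ∈ U i` (`Classical.choose`); near a point of `U i` it equals `g i`. -/

open Set Filter Topology

namespace BE36

variable {E F EC FC : Type} [NormedAddCommGroup E] [NormedSpace ℝ E] [NormedAddCommGroup F]
  [NormedSpace ℝ F] [NormedAddCommGroup EC] [NormedSpace ℂ EC] [NormedAddCommGroup FC]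
  [NormedSpace ℂ FC] [CX E EC] [CX F FC] [CompleteSpace FC]

/-- The holomorphic extension is unique. -/
theorem ho_unique {U : Set EC} (hU : IsOpen U) (hc : Convex ℝ U)
    (hre : ∀ z ∈ U, CX.of (CX.re z : E) ∈ U) {g h : EC → FC} (hg : DifferentiableOn ℂ g U)
    (hh : DifferentiableOn ℂ h U)
    (he : ∀ y : E, (CX.of y : EC) ∈ U → g (CX.of y) = h (CX.of y)) : EqOn g h U := by
  intro z hz
  have hcont : Continuous fun s : ℂ => (CX.of (CX.re z : E) : EC) + s • CX.of (CX.im z : E) :=
    continuous_const.add (continuous_id.smul continuous_const)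
  have hdiff : Differentiable ℂ
      fun s : ℂ => (CX.of (CX.re z : E) : EC) + s • CX.of (CX.im z : E) :=
    (differentiable_const _).add (differentiable_id.smul_const _)
  have hSo : IsOpen {s : ℂ | (CX.of (CX.re z : E) : EC) + s • CX.of (CX.im z : E) ∈ U} :=
    hU.preimage hcont
  have hSc : Convex ℝ {s : ℂ | (CX.of (CX.re z : E) : EC) + s • CX.of (CX.im z : E) ∈ U} := by
    intro s hs t ht α β hα hβ hαβ
    have h1 := hc hs ht hα hβ hαβ
    have h2 : α • ((CX.of (CX.re z : E) : EC) + s • CX.of (CX.im z : E)) +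
        β • ((CX.of (CX.re z : E) : EC) + t • CX.of (CX.im z : E)) =
        (CX.of (CX.re z : E) : EC) + (α • s + β • t) • CX.of (CX.im z : E) := by
      rw [smul_add, smul_add, add_smul, smul_assoc, smul_assoc]
      calc _ = (α + β) • (CX.of (CX.re z : E) : EC) +
            (α • s • CX.of (CX.im z : E) + β • t • CX.of (CX.im z : E)) := by
              rw [add_smul]; abel
        _ = _ := by rw [hαβ, one_smul]
    show (CX.of (CX.re z : E) : EC) + (α • s + β • t) • CX.of (CX.im z : E) ∈ U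
    rw [← h2]
    exact h1
  have h0 : (0 : ℂ) ∈ {s : ℂ | (CX.of (CX.re z : E) : EC) + s • CX.of (CX.im z : E) ∈ U} := by
    show (CX.of (CX.re z : E) : EC) + (0 : ℂ) • CX.of (CX.im z : E) ∈ U
    rw [zero_smul, add_zero]
    exact hre z hz
  have hI : Complex.I ∈ {s : ℂ | (CX.of (CX.re z : E) : EC) + s • CX.of (CX.im z : E) ∈ U} := by
    show (CX.of (CX.re z : E) : EC) + Complex.I • CX.of (CX.im z : E) ∈ U
    rw [CX.eta (E := E) z]
    exact hz
  have hG := (hg.comp hdiff.differentiableOn (fun s hs => hs)).analyticOnNhd hSo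
  have hH := (hh.comp hdiff.differentiableOn (fun s hs => hs)).analyticOnNhd hSo
  have hfr : ∃ᶠ s in 𝓝[≠] (0 : ℂ),
      (g ∘ fun s : ℂ => (CX.of (CX.re z : E) : EC) + s • CX.of (CX.im z : E)) s =
      (h ∘ fun s : ℂ => (CX.of (CX.re z : E) : EC) + s • CX.of (CX.im z : E)) s := by
    have ht : Tendsto (fun x : ℝ => (x : ℂ)) (𝓝[≠] 0) (𝓝[≠] 0) := by
      refine tendsto_nhdsWithin_of_tendsto_nhds_of_eventually_within _ ?_ ?_
      · have h1 : Tendsto (fun x : ℝ => (x : ℂ)) (𝓝 0) (𝓝 ((0 : ℝ) : ℂ)) :=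
          Complex.continuous_ofReal.tendsto 0
        rw [Complex.ofReal_zero] at h1
        exact h1.mono_left nhdsWithin_le_nhds
      · filter_upwards [self_mem_nhdsWithin] with x hx
        exact fun hx0 => hx (Complex.ofReal_eq_zero.1 hx0)
    have hev : ∀ᶠ x : ℝ in 𝓝[≠] 0,
        (g ∘ fun s : ℂ => (CX.of (CX.re z : E) : EC) + s • CX.of (CX.im z : E)) (x : ℂ) =
        (h ∘ fun s : ℂ => (CX.of (CX.re z : E) : EC) + s • CX.of (CX.im z : E)) (x : ℂ) := by
      have hmem := ht.eventually (mem_nhdsWithin_of_mem_nhds (hSo.mem_nhds h0))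
      filter_upwards [hmem] with x hx
      have hx' : (CX.of (CX.re z : E) : EC) + (x : ℂ) • CX.of (CX.im z : E) ∈ U := hx
      have e : (CX.of (CX.re z : E) : EC) + (x : ℂ) • CX.of (CX.im z : E) =
          CX.of (CX.re z + x • CX.im z : E) := by
        rw [CX.of_add, CX.of_smul]
      show g ((CX.of (CX.re z : E) : EC) + (x : ℂ) • CX.of (CX.im z : E)) =
        h ((CX.of (CX.re z : E) : EC) + (x : ℂ) • CX.of (CX.im z : E))
      rw [e] at hx' ⊢
      exact he _ hx'
    exact ht.frequently hev.frequently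
  have hfin := hG.eqOn_of_preconnected_of_frequently_eq hH hSc.isPreconnected h0 hfr hI
  have e : (CX.of (CX.re z : E) : EC) + Complex.I • CX.of (CX.im z : E) = z := CX.eta z
  have hfin' : g ((CX.of (CX.re z : E) : EC) + Complex.I • CX.of (CX.im z : E)) =
      h ((CX.of (CX.re z : E) : EC) + Complex.I • CX.of (CX.im z : E)) := hfin
  rwa [e] at hfin'

/-- Gluing of local extensions. -/
theorem HO_glue {I : Type} {U : I → Set EC} (hU : ∀ i, IsOpen (U i)) (hc : ∀ i, Convex ℝ (U i))
    (hre : ∀ i, ∀ z ∈ U i, CX.of (CX.re z : E) ∈ U i) {f : E → F} {B : ℝ}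
    (h : ∀ i, HO (U i) B f) : HO (⋃ i, U i) B f := by
  classical
  choose g hg hb he using h
  have hag : ∀ i j, EqOn (g i) (g j) (U i ∩ U j) := by
    intro i j
    refine ho_unique (E := E) ((hU i).inter (hU j)) ((hc i).inter (hc j))
      (fun z hz => ⟨hre i z hz.1, hre j z hz.2⟩) ((hg i).mono inter_subset_left)
      ((hg j).mono inter_subset_right) ?_
    intro y hy
    rw [he i y hy.1, he j y hy.2]
  have hG : ∃ G : EC → FC, ∀ i, ∀ z ∈ U i, G z = g i z := by
    refine ⟨fun z => if hz : ∃ i, z ∈ U i then g hz.choose z else 0, ?_⟩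
    intro i z hz
    have hz' : ∃ i, z ∈ U i := ⟨i, hz⟩
    simp only [dif_pos hz']
    exact hag _ _ ⟨hz'.choose_spec, hz⟩
  obtain ⟨G, hG⟩ := hG
  refine ⟨G, ?_, ?_, ?_⟩
  · intro z hz
    obtain ⟨i, hi⟩ := mem_iUnion.1 hz
    have h1 : DifferentiableAt ℂ (g i) z := (hg i).differentiableAt ((hU i).mem_nhds hi)
    have h2 : G =ᶠ[𝓝 z] g i := by
      filter_upwards [(hU i).mem_nhds hi] with w hw
      exact hG i w hw
    exact (h1.congr_of_eventuallyEq h2).differentiableWithinAt
  · intro z hz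
    obtain ⟨i, hi⟩ := mem_iUnion.1 hz
    rw [hG i z hi]
    exact hb i z hi
  · intro y hy
    obtain ⟨i, hi⟩ := mem_iUnion.1 hy
    rw [hG i _ hi]
    exact he i y hi

end BE36
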