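import Pool.Agent.LibBE36K.K12
import Pool.Agent.LibBE36K.K06
import Pool.Agent.LibBE36K.K03
import Pool.Agent.LibBE88.F1
import Pool.Agent.LibBE36K.Bridge
import Pool.Agent.LibBE36.HC9b

/-! Row BE36 K13 (cites K01, K02, Bridge and `H36.Hol_flow` of LibBE36/HC9b): the flow of a family of fields of class
`HB`. -/

open MeasureTheory Set Filter Topology
open scoped ContDiff

namespace BE36

open BR

variable {J E S EC : Type} [NormedAddCommGroup E] [NormedSpace ℝ E] [FiniteDimensional ℝ E]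
  [NormedAddCommGroup EC] [NormedSpace ℂ EC] [CX E EC]

omit [FiniteDimensional ℝ E] in
/-- One flow. -/
theorem K13_one [FiniteDimensional ℂ EC] {f : E → E} (hs : ContDiff ℝ ∞ f) {φ : ℝ → E → E}
    (h0 : ∀ y, φ 0 y = y) (hφ : ∀ t y, HasDerivAt (fun t => φ t y) (f (φ t y)) t) {x : E}
    {B Λ : ℝ} (hB : 2 ≤ B) (hΛ : 1 ≤ Λ) (hb : ∀ t ∈ Icc (0 : ℝ) 1, HE f (φ t x) (1 / B) B)
    (hd : ∀ t ∈ Icc (0 : ℝ) 1, ‖fderiv ℝ f (φ t x)‖ ≤ Λ) (ho : ∀ t ∈ Icc (0 : ℝ) 1, ‖φ t x‖ ≤ B)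
    (t : ℝ) (ht : t ∈ Icc (0 : ℝ) 1) :
    HE (φ t) x (1 / (Real.exp (4 * Λ) * B ^ 8)) (Real.exp (4 * Λ) * B ^ 8) :=
  HE_of_Hol (@H36.Hol_flow E EC _ _ _ _ (toCxf E EC) _ f hs φ h0 hφ x B Λ hB hΛ
    (fun t ht => Hol_of_HE (hb t ht)) hd ho t ht)

theorem HB_flow {f : J → E → E} (hf : ∀ j, ContDiff ℝ ∞ (f j)) {φ : J → ℝ → E → E}
    (hφ : ∀ j, IsFlow (f j) (φ j)) {jj : S → J} {x0 : S → E} {ℓ : S → ℝ} (hℓ : ∀ q, 0 ≤ ℓ q)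
    (ho : ∃ B : ℝ, ∀ q : S × Icc (0 : ℝ) 1, ‖φ (jj q.1) q.2 (x0 q.1)‖ ≤ B)
    (hΛ : ∃ Λ : ℝ, ∀ q : S × Icc (0 : ℝ) 1,
      ‖fderiv ℝ (f (jj q.1)) (φ (jj q.1) q.2 (x0 q.1))‖ ≤ Λ)
    (hb : HB (fun q : S × Icc (0 : ℝ) 1 => ℓ q.1) (fun q => f (jj q.1))
      (fun q => φ (jj q.1) q.2 (x0 q.1))) :
    HB (fun q : S × Icc (0 : ℝ) 1 => ℓ q.1) (fun q => φ (jj q.1) q.2) (fun q => x0 q.1) := by
  have hfd : FiniteDimensional ℂ EC := fd_EC (E := E)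
  obtain ⟨B, hB⟩ := ho
  obtain ⟨Λ, hL⟩ := hΛ
  obtain ⟨A, hA, hAb⟩ := hb
  obtain ⟨Λ', hΛ'⟩ : ∃ Λ' : ℝ, Λ' = max Λ 1 := ⟨_, rfl⟩
  have hΛ1 : 1 ≤ Λ' := by rw [hΛ']; exact le_max_right _ _
  have hΛ2 : Λ ≤ Λ' := by rw [hΛ']; exact le_max_left _ _
  obtain ⟨A', hA'⟩ : ∃ A' : ℝ, A' = max A (max B 2) := ⟨_, rfl⟩
  have hA1 : A ≤ A' := by rw [hA']; exact le_max_left _ _
  have hA2 : B ≤ A' := by rw [hA']; exact (le_max_left _ _).trans (le_max_right _ _)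
  have hA3 : 2 ≤ A' := by rw [hA']; exact (le_max_right _ _).trans (le_max_right _ _)
  have hA4 : 1 ≤ A' := by linarith
  have hle : ∀ t, 0 ≤ t → A' ≤ hc A' t := by
    intro t ht
    unfold hc
    have h1 : 1 ≤ Real.exp (A' * t) := Real.one_le_exp (by positivity)
    nlinarith
  have key : ∀ q : S × Icc (0 : ℝ) 1, HE (φ (jj q.1) (q.2 : ℝ)) (x0 q.1)
      (Real.exp (-(4 * Λ')) / hc A' (ℓ q.1) ^ 8) (Real.exp (4 * Λ') * hc A' (ℓ q.1) ^ 8) := by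
    rintro ⟨s, τ⟩
    show HE (φ (jj s) (τ : ℝ)) (x0 s) (Real.exp (-(4 * Λ')) / hc A' (ℓ s) ^ 8)
      (Real.exp (4 * Λ') * hc A' (ℓ s) ^ 8)
    have h2 : 2 ≤ hc A' (ℓ s) := hA3.trans (hle _ (hℓ _))
    have hb1 : ∀ t ∈ Icc (0 : ℝ) 1,
        HE (f (jj s)) (φ (jj s) t (x0 s)) (1 / hc A' (ℓ s)) (hc A' (ℓ s)) := by
      intro t ht
      refine HE_mono (hAb (s, ⟨t, ht⟩)) ?_ (hc_mono hA hA1 (hℓ _))
      rw [one_div]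
      exact inv_anti₀ (hc_pos hA) (hc_mono hA hA1 (hℓ _))
    have h4 := K13_one (hf (jj s)) (hφ (jj s)).zero (fun t y => (hφ (jj s)).deriv y t)
      (x := x0 s) h2 hΛ1 hb1 (fun t ht => (hL (s, ⟨t, ht⟩)).trans hΛ2)
      (fun t ht => (hB (s, ⟨t, ht⟩)).trans (hA2.trans (hle _ (hℓ _)))) τ τ.2
    have h5 : 1 / (Real.exp (4 * Λ') * hc A' (ℓ s) ^ 8) =
        Real.exp (-(4 * Λ')) / hc A' (ℓ s) ^ 8 := by
      rw [Real.exp_neg]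
      field_simp
    rw [h5] at h4
    exact h4
  exact HB_of (ℓ := fun q : S × Icc (0 : ℝ) 1 => ℓ q.1) (fun q => hℓ q.1) hA4 (Real.exp_pos _).le
    (Real.exp_pos _) 8 key

end BE36
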