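import Pool.Agent.LibBE36K.K03

/-! Row BE36 K04 (cites K02, K03): composition. SHORT / MEDIUM, 35 min.
Plan. `HO_comp`: the extension of `f` maps `Ω` into the ball where the extension of `g` lives; take the composition.
`HE_comp`: the extension `f~` on `ball (of x) r` is Lipschitz with constant `2 B / r` on the half ball (`ho_lip`), and
`f~ (of x) = of (f x)`, so it maps `ball (of x) (min (r / 2) (r * r' / (2 * B)))` into `ball (of (f x)) r'`.
`HB_comp`: `HE_comp`, then `HB_of`. `HB_comp_fix`: one function `g`, holomorphic near the points `f i (x i)` with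
constants: special case `HB_pull`. -/

open Set Filter Topology

namespace BE36

variable {ι E F G EC FC GC : Type} [NormedAddCommGroup E] [NormedSpace ℝ E]
  [FiniteDimensional ℝ E] [NormedAddCommGroup F] [NormedSpace ℝ F] [FiniteDimensional ℝ F]
  [NormedAddCommGroup EC] [NormedSpace ℂ EC] [NormedAddCommGroup FC] [NormedSpace ℂ FC] [CX E EC]
  [CX F FC] [NormedAddCommGroup G] [NormedSpace ℝ G] [FiniteDimensional ℝ G]
  [NormedAddCommGroup GC] [NormedSpace ℂ GC] [CX G GC] {ℓ : ι → ℝ} {x : ι → E}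

theorem HE_comp {f : E → F} {g : F → G} {a : E} {r B r' B' : ℝ} (hr : 0 < r) (hB : 1 ≤ B)
    (hr' : 0 < r') (hf : HE f a r B) (hg : HE g (f a) r' B') :
    HE (fun y => g (f y)) a (min (r / 2) (r * r' / (2 * B))) B' := by
  obtain ⟨u, hu, huB, hu1⟩ := hf
  obtain ⟨w, hw, hwB, hw1⟩ := hg
  have hfd : FiniteDimensional ℂ FC := fd_EC (E := F)
  have hcs : CompleteSpace FC := FiniteDimensional.complete ℂ FC
  have hB0 : 0 < B := by linarith
  have ha : (CX.of a : EC) ∈ Metric.ball (CX.of a) r := Metric.mem_ball_self hr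
  have hmaps : ∀ z ∈ Metric.ball (CX.of a : EC) (min (r / 2) (r * r' / (2 * B))),
      u z ∈ Metric.ball (CX.of (f a)) r' := by
    intro z hz
    rw [Metric.mem_ball, lt_min_iff] at hz
    have h1 : ‖u z - u (CX.of a)‖ ≤ 2 * B / r * ‖z - CX.of a‖ :=
      ho_lip hr hu huB (Metric.mem_ball.2 hz.1) (Metric.mem_ball_self (by linarith))
    rw [Metric.mem_ball, ← hu1 a ha, dist_eq_norm]
    rw [dist_eq_norm] at hz
    refine lt_of_le_of_lt h1 ?_
    have h2 : 2 * B / r * ‖z - CX.of a‖ < 2 * B / r * (r * r' / (2 * B)) :=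
      mul_lt_mul_of_pos_left hz.2 (by positivity)
    have h3 : 2 * B / r * (r * r' / (2 * B)) = r' := by
      field_simp
    rwa [h3] at h2
  have hsub : Metric.ball (CX.of a : EC) (min (r / 2) (r * r' / (2 * B))) ⊆
      Metric.ball (CX.of a) r := by
    apply Metric.ball_subset_ball
    exact (min_le_left _ _).trans (by linarith)
  refine ⟨fun z => w (u z), hw.comp (hu.mono hsub) hmaps, fun z hz => hwB _ (hmaps z hz), ?_⟩
  intro y hy
  have h1 := hmaps _ hy
  have h2 := hu1 y (hsub hy)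
  rw [h2] at h1
  change w (u (CX.of y)) = CX.of (g (f y))
  rw [h2]
  exact hw1 _ h1

theorem HB_comp (hℓ : ∀ i, 0 ≤ ℓ i) {g : ι → F → G} {f : ι → E → F}
    (hg : HB ℓ g (fun i => f i (x i))) (hf : HB ℓ f x) : HB ℓ (fun i y => g i (f i y)) x := by
  obtain ⟨A, hA, h1⟩ := hf
  obtain ⟨A', hA', h2⟩ := hg
  have hM : 1 ≤ max A A' := hA.trans (le_max_left _ _)
  refine HB_of hℓ (A := max A A') (c := 1) (c' := 1 / 2) hM zero_le_one (by norm_num) 3
    (fun i => ?_)
  have a1 : 1 ≤ hc A (ℓ i) := hc_one hA (hℓ i)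
  have a2 : 1 ≤ hc A' (ℓ i) := hc_one hA' (hℓ i)
  have b1 : hc A (ℓ i) ≤ hc (max A A') (ℓ i) := hc_mono hA (le_max_left _ _) (hℓ i)
  have b2 : hc A' (ℓ i) ≤ hc (max A A') (ℓ i) := hc_mono hA' (le_max_right _ _) (hℓ i)
  obtain ⟨p, hp⟩ : ∃ p, p = hc A (ℓ i) := ⟨_, rfl⟩
  obtain ⟨q, hq⟩ : ∃ q, q = hc A' (ℓ i) := ⟨_, rfl⟩
  obtain ⟨m, hm⟩ : ∃ m, m = hc (max A A') (ℓ i) := ⟨_, rfl⟩
  have h3 := h1 i
  have h4 := h2 i
  rw [← hp] at a1 b1 h3
  rw [← hq] at a2 b2 h4
  rw [← hm] at b1 b2 ⊢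
  have p0 : 0 < p := by linarith
  have q0 : 0 < q := by linarith
  have hm1 : 1 ≤ m := a1.trans b1
  have m0 : 0 < m := by linarith
  refine HE_mono (HE_comp (inv_pos.2 p0) a1 (inv_pos.2 q0) h3 h4) ?_ ?_
  · apply le_min
    · rw [div_le_div_iff₀ (by positivity) (by norm_num), ← div_eq_inv_mul, le_div_iff₀ p0]
      have h5 : m ≤ m ^ 3 := by
        have : 1 ≤ m ^ 2 := one_le_pow₀ hm1
        nlinarith
      linarith
    · have h5 : p⁻¹ * q⁻¹ / (2 * p) = (1 / 2) / (p * q * p) := by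
        field_simp
      rw [h5]
      apply div_le_div_of_nonneg_left (by norm_num) (by positivity)
      have h6 : p * q ≤ m * m := mul_le_mul b1 b2 q0.le m0.le
      calc p * q * p ≤ m * m * m := mul_le_mul h6 b1 p0.le (by positivity)
        _ = m ^ 3 := by ring
  · rw [one_mul]
    have : 1 ≤ m ^ 2 := one_le_pow₀ hm1
    nlinarith

end BE36
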