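import Pool.Agent.LibBE36K.K10
import Pool.Agent.LibBE36K.K04
import Pool.Agent.LibBE88.C2

/-! Row BE36 K11 (cites K02, K03, K04, K10; `BE.In`, `BE.Le` of `LibBE88/C2.lean`): implicit functions along a chain,
with one constant. STRONG, 90 min. The real version is `BE.IF` (`LibBE88/C3.lean`).
Plan. Fix `q` and write `N = N q`, `x = x q`, `t = ℓ q`; if `N ≤ 1` there are no unknowns (`Le N` is `{0, 1}`: `h0`, `h1`).
Let `X = (Fin (N - 1) → FC)` (sup norm), the unknown `v` stands for `w 1, .., w (N - 1)`; put `v 0 = w~0 e`,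
`v N = w~N e` (the extensions of `h0`, `h1`) and `Φ (e, v) j = G~ j (π~ e, v (j - 1), v j, v (j + 1))` with the extensions
`G~ j` of `hG` (one for every `1 ≤ j < N`) and `π~` of `hπ`. With one constant `H = hc A t` for all families: `Φ` is
holomorphic on `ball (of x) r ×ˢ ball v0 r`, `v0 j = of (w j x)`, `r = c / H ^ 2`: `π~`, `w~0`, `w~N` are Lipschitz with constant
`2 H ^ 2` (`ho_lip`), so the arguments of `G~ j` stay in the ball of radius `H⁻¹` around the base point; norm `≤ H`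
(`differentiableOn_pi`, `norm_pi_le`); `Φ (of x, v0) = 0` (`heq`). Linearisation: `fderiv ℂ Φ (of x, v0) (0, v) j =
fderiv ℂ (G~ j) (..) (0, v (j-1), v j, v (j+1))` with `v 0 = v N = 0`, which is `cl (fderiv ℝ (G j) ..)` (`ho_real`):
apply `hinv` to the real and to the imaginary parts (`cl_re`): `‖v‖ ≤ 2 K e^{K t} ‖M v‖` for this linear map `M`; it is
injective on the finite dimensional space `X` (`fd_EC`), so bijective, `L` its inverse (`LinearEquiv.ofInjectiveEndo`,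
`LinearMap.toContinuousLinearMap`), `‖L‖ ≤ 2 K e^{K t}`. `newton` gives `w~ e` on `ball (of x) s'`, `s' = r ^ 3 / (..)`, a
polynomial in `H⁻¹`. Agreement with the real chain: let `y` be real, `‖y - x‖ < s'`, `y_θ = x + θ (y - x)`; the set of
`θ ∈ [0, 1]` with `‖w j y_θ - w j x‖ ≤ s` for all `1 ≤ j < N` (`s = r ^ 2 / (16 K B)`) is closed (`hw`: continuity), contains
`0`, and open in `[0, 1]`: there `(of (w j y_θ))_j = w~ (of y_θ)` by uniqueness (`heq`), whose distance to `v0` is `≤ s / 2`.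
So it is `[0, 1]` (`IsClosed.Icc_subset_of_forall_mem_nhdsWithin`). Finally `HB_of`. The index set `Le N`
contains `j = 0` and `j = N`. -/

open Set Filter Topology
open BE (In Le)

namespace BE36

variable {κ E F Q EC FC QC : Type} [NormedAddCommGroup E] [NormedSpace ℝ E]
  [FiniteDimensional ℝ E] [NormedAddCommGroup F] [NormedSpace ℝ F] [FiniteDimensional ℝ F]
  [NormedAddCommGroup Q] [NormedSpace ℝ Q] [FiniteDimensional ℝ Q] [NormedAddCommGroup EC]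
  [NormedSpace ℂ EC] [NormedAddCommGroup FC] [NormedSpace ℂ FC] [NormedAddCommGroup QC]
  [NormedSpace ℂ QC] [CX E EC] [CX F FC] [CX Q QC]

/-- the values at all indices: `a` at `0`, `b` at `N` -/
noncomputable def K11_pt {Z : Type} (N : ℕ) (a b : Z) (v : Finset.Ioo 0 N → Z) (j : ℕ) : Z :=
  if h : j ∈ Finset.Ioo 0 N then v ⟨j, h⟩ else if j = 0 then a else b

theorem K11_pt_zero {Z : Type} (N : ℕ) (a b : Z) (v : Finset.Ioo 0 N → Z) :
    K11_pt N a b v 0 = a := by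
  unfold K11_pt
  rw [dif_neg (by simp), if_pos rfl]

theorem K11_pt_last {Z : Type} (N : ℕ) (hN : N ≠ 0) (a b : Z) (v : Finset.Ioo 0 N → Z) :
    K11_pt N a b v N = b := by
  unfold K11_pt
  rw [dif_neg (by simp), if_neg hN]

theorem K11_pt_in {Z : Type} (N : ℕ) (a b : Z) (v : Finset.Ioo 0 N → Z) (i : Finset.Ioo 0 N) :
    K11_pt N a b v i.1 = v i := by
  unfold K11_pt
  rw [dif_pos i.2]

theorem K11_pt_fun {Z : Type} (N : ℕ) (u : ℕ → Z) (j : ℕ) (hj : j ≤ N) :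
    K11_pt N (u 0) (u N) (fun i => u i.1) j = u j := by
  unfold K11_pt
  by_cases h : j ∈ Finset.Ioo 0 N
  · rw [dif_pos h]
  · rw [dif_neg h]
    by_cases h0 : j = 0
    · rw [if_pos h0, h0]
    · rw [if_neg h0]
      rw [Finset.mem_Ioo] at h
      have : j = N := by omega
      rw [this]

theorem K11_pt_lin {Z : Type} [NormedAddCommGroup Z] [NormedSpace ℂ Z] (N : ℕ) (a b : Z)
    (v0 v : Finset.Ioo 0 N → Z) (t : ℂ) (j : ℕ) :
    K11_pt N a b (v0 + t • v) j = K11_pt N a b v0 j + t • K11_pt N 0 0 v j := by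
  unfold K11_pt
  by_cases h : j ∈ Finset.Ioo 0 N
  · rw [dif_pos h, dif_pos h, dif_pos h]
    rfl
  · rw [dif_neg h, dif_neg h, dif_neg h]
    by_cases h0 : j = 0
    · simp only [if_pos h0, smul_zero, add_zero]
    · simp only [if_neg h0, smul_zero, add_zero]

theorem K11_pt_norm {Z : Type} [NormedAddCommGroup Z] (N : ℕ) {a b a' b' : Z}
    {v v' : Finset.Ioo 0 N → Z} {δ : ℝ} (ha : ‖a - a'‖ < δ) (hb : ‖b - b'‖ < δ)
    (hv : ‖v - v'‖ < δ) (j : ℕ) : ‖K11_pt N a b v j - K11_pt N a' b' v' j‖ < δ := by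
  unfold K11_pt
  by_cases h : j ∈ Finset.Ioo 0 N
  · rw [dif_pos h, dif_pos h]
    exact (norm_le_pi_norm (v - v') ⟨j, h⟩).trans_lt hv
  · rw [dif_neg h, dif_neg h]
    by_cases h0 : j = 0
    · rw [if_pos h0, if_pos h0]
      exact ha
    · rw [if_neg h0, if_neg h0]
      exact hb

theorem K11_pt_diff {P Z : Type} [NormedAddCommGroup P] [NormedSpace ℂ P] [NormedAddCommGroup Z]
    [NormedSpace ℂ Z] (N : ℕ) {a b : P → Z} {v : P → Finset.Ioo 0 N → Z} {D : Set P}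
    (ha : DifferentiableOn ℂ a D) (hb : DifferentiableOn ℂ b D) (hv : DifferentiableOn ℂ v D)
    (j : ℕ) : DifferentiableOn ℂ (fun p => K11_pt N (a p) (b p) (v p) j) D := by
  unfold K11_pt
  by_cases h : j ∈ Finset.Ioo 0 N
  · simp only [dif_pos h]
    exact differentiableOn_pi.mp hv ⟨j, h⟩
  · simp only [dif_neg h]
    by_cases h0 : j = 0
    · simp only [if_pos h0]
      exact ha
    · simp only [if_neg h0]
      exact hb

theorem K11_lip {X Y : Type} [NormedAddCommGroup X] [NormedSpace ℂ X] [NormedAddCommGroup Y]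
    [NormedSpace ℂ Y] [CompleteSpace Y] {g : X → Y} {z : X} {H : ℝ} (hH : 1 ≤ H)
    (hg : DifferentiableOn ℂ g (Metric.ball z H⁻¹)) (hB : ∀ w ∈ Metric.ball z H⁻¹, ‖g w‖ ≤ H)
    {e : X} (he : e ∈ Metric.ball z (1 / (4 * H ^ 3))) : ‖g e - g z‖ < H⁻¹ := by
  have hH0 : 0 < H := by linarith
  have hi : 0 < H⁻¹ := inv_pos.mpr hH0
  have h3 : H ≤ H ^ 3 := by
    calc H = H ^ 1 := (pow_one H).symm
      _ ≤ H ^ 3 := pow_le_pow_right₀ hH (by norm_num)
  have hle : 1 / (4 * H ^ 3) ≤ H⁻¹ / 2 := by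
    rw [show H⁻¹ / 2 = 1 / (2 * H) by field_simp]
    exact one_div_le_one_div_of_le (by positivity) (by linarith)
  have h := ho_lip hi hg hB (Metric.ball_subset_ball hle he) (Metric.mem_ball_self (by positivity))
  have he' : ‖e - z‖ < 1 / (4 * H ^ 3) := by
    rw [← dist_eq_norm]
    exact he
  calc ‖g e - g z‖ ≤ 2 * H / H⁻¹ * ‖e - z‖ := h
    _ ≤ 2 * H / H⁻¹ * (1 / (4 * H ^ 3)) := mul_le_mul_of_nonneg_left he'.le (by positivity)
    _ = H⁻¹ / 2 := by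
        field_simp
        norm_num
    _ < H⁻¹ := by linarith

omit [FiniteDimensional ℝ E] in
theorem K11_one {H : ℝ} (hH : 1 ≤ H) {N : ℕ} {x : E} {w : ℕ → E → F} {π : E → Q}
    {G : ℕ → Q × F × F × F → F} (hπ : HE π x H⁻¹ H)
    (hG : ∀ j, 1 ≤ j → j < N → HE (G j) (π x, w (j - 1) x, w j x, w (j + 1) x) H⁻¹ H)
    (hw : ∀ j, Continuous (w j))
    (heq : ∀ j, 1 ≤ j → j < N → ∀ y, G j (π y, w (j - 1) y, w j y, w (j + 1) y) = 0)
    (h0 : HE (w 0) x H⁻¹ H) (h1 : HE (w N) x H⁻¹ H) (hb : ∀ j, j ≤ N → ‖w j x‖ ≤ H)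
    (hinv : ∀ (v : ℕ → F) (M : ℝ), ‖v 0‖ ≤ M → ‖v N‖ ≤ M →
      (∀ j, 1 ≤ j → j < N → ‖fderiv ℝ (G j) (π x, w (j - 1) x, w j x, w (j + 1) x)
        (0, v (j - 1), v j, v (j + 1))‖ ≤ M) → ∀ j ≤ N, ‖v j‖ ≤ H * M)
    (j : ℕ) (hj1 : 1 ≤ j) (hjN : j < N) : HE (w j) x (1 / (32768 * H ^ 13)) (2 * H) := by
  have hH0 : 0 < H := by linarith
  have hi : 0 < H⁻¹ := inv_pos.mpr hH0
  have hN0 : N ≠ 0 := by omega
  have fF : FiniteDimensional ℂ FC := fd_EC (E := F)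
  have cF : CompleteSpace FC := FiniteDimensional.complete ℂ FC
  have fQ : FiniteDimensional ℂ QC := fd_EC (E := Q)
  have cQ : CompleteSpace QC := FiniteDimensional.complete ℂ QC
  obtain ⟨πc, hπ1, hπ2, hπ3⟩ := hπ
  obtain ⟨a, ha1, ha2, ha3⟩ := h0
  obtain ⟨b, hb1, hb2, hb3⟩ := h1
  have hG' : ∀ i : Finset.Ioo 0 N, ∃ g : QC × FC × FC × FC → FC,
      DifferentiableOn ℂ g (Metric.ball (CX.of (π x, w (i.1 - 1) x, w i.1 x, w (i.1 + 1) x)) H⁻¹) ∧
      (∀ z ∈ Metric.ball (CX.of (π x, w (i.1 - 1) x, w i.1 x, w (i.1 + 1) x)) H⁻¹, ‖g z‖ ≤ H) ∧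
      ∀ y : Q × F × F × F, (CX.of y : QC × FC × FC × FC) ∈
        Metric.ball (CX.of (π x, w (i.1 - 1) x, w i.1 x, w (i.1 + 1) x)) H⁻¹ →
        g (CX.of y) = CX.of (G i.1 y) := fun i =>
    hG i.1 (Finset.mem_Ioo.mp i.2).1 (Finset.mem_Ioo.mp i.2).2
  choose Gc hG1 hG2 hG3 using hG'
  have hxm : (CX.of x : EC) ∈ Metric.ball (CX.of x : EC) H⁻¹ := Metric.mem_ball_self hi
  have hπx : πc (CX.of x) = CX.of (π x) := hπ3 x hxm
  have hax : a (CX.of x) = CX.of (w 0 x) := ha3 x hxm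
  have hbx : b (CX.of x) = CX.of (w N x) := hb3 x hxm
  -- the arguments
  let inn : Finset.Ioo 0 N → EC × (Finset.Ioo 0 N → FC) → QC × FC × FC × FC := fun i p =>
    (πc p.1, K11_pt N (a p.1) (b p.1) p.2 (i.1 - 1), K11_pt N (a p.1) (b p.1) p.2 i.1,
      K11_pt N (a p.1) (b p.1) p.2 (i.1 + 1))
  -- values at real points
  have hinn : ∀ (i : Finset.Ioo 0 N) (y : E), (CX.of y : EC) ∈ Metric.ball (CX.of x : EC) H⁻¹ →
      inn i (CX.of y, fun k => CX.of (w k.1 y)) =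
        CX.of (π y, w (i.1 - 1) y, w i.1 y, w (i.1 + 1) y) := by
    intro i y hy
    have hi2 := Finset.mem_Ioo.mp i.2
    have e1 := K11_pt_fun N (fun k => (CX.of (w k y) : FC)) (i.1 - 1) (by omega)
    have e2 := K11_pt_fun N (fun k => (CX.of (w k y) : FC)) i.1 (by omega)
    have e3 := K11_pt_fun N (fun k => (CX.of (w k y) : FC)) (i.1 + 1) (by omega)
    change (πc (CX.of y), K11_pt N (a (CX.of y)) (b (CX.of y)) (fun k => CX.of (w k.1 y)) (i.1 - 1),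
      K11_pt N (a (CX.of y)) (b (CX.of y)) (fun k => CX.of (w k.1 y)) i.1,
      K11_pt N (a (CX.of y)) (b (CX.of y)) (fun k => CX.of (w k.1 y)) (i.1 + 1)) =
      (CX.of (π y), CX.of (w (i.1 - 1) y), CX.of (w i.1 y), CX.of (w (i.1 + 1) y))
    rw [hπ3 y hy, ha3 y hy, hb3 y hy, e1, e2, e3]
  -- the radius
  have hH3 : 1 ≤ H ^ 3 := one_le_pow₀ hH
  have hr0 : 0 < 1 / (4 * H ^ 3) := by positivity
  have hr1 : 1 / (4 * H ^ 3) ≤ 1 := by
    rw [div_le_one (by positivity)]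
    linarith
  have hrH : 1 / (4 * H ^ 3) ≤ H⁻¹ := by
    rw [← one_div]
    refine one_div_le_one_div_of_le hH0 ?_
    calc H = H ^ 1 := (pow_one H).symm
      _ ≤ H ^ 3 := pow_le_pow_right₀ hH (by norm_num)
      _ ≤ 4 * H ^ 3 := by linarith
  let v0 : Finset.Ioo 0 N → FC := fun k => CX.of (w k.1 x)
  have hbase : ∀ i, inn i (CX.of x, v0) = CX.of (π x, w (i.1 - 1) x, w i.1 x, w (i.1 + 1) x) :=
    fun i => hinn i x hxm
  have hmaps : ∀ i : Finset.Ioo 0 N, ∀ p ∈ Metric.ball (CX.of x : EC) (1 / (4 * H ^ 3)) ×ˢ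
      Metric.ball v0 (1 / (4 * H ^ 3)), inn i p ∈
        Metric.ball (CX.of (π x, w (i.1 - 1) x, w i.1 x, w (i.1 + 1) x)) H⁻¹ := by
    intro i p hp
    obtain ⟨he, hv⟩ := hp
    have n1 : ‖πc p.1 - πc (CX.of x)‖ < H⁻¹ := K11_lip hH hπ1 hπ2 he
    have n2 : ‖a p.1 - a (CX.of x)‖ < H⁻¹ := K11_lip hH ha1 ha2 he
    have n3 : ‖b p.1 - b (CX.of x)‖ < H⁻¹ := K11_lip hH hb1 hb2 he
    have n4 : ‖p.2 - v0‖ < H⁻¹ := by
      rw [← dist_eq_norm]
      exact (Metric.mem_ball.mp hv).trans_le hrH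
    rw [← hbase i, Metric.mem_ball, dist_eq_norm]
    change ‖(πc p.1, K11_pt N (a p.1) (b p.1) p.2 (i.1 - 1), K11_pt N (a p.1) (b p.1) p.2 i.1,
      K11_pt N (a p.1) (b p.1) p.2 (i.1 + 1)) - (πc (CX.of x),
      K11_pt N (a (CX.of x)) (b (CX.of x)) v0 (i.1 - 1), K11_pt N (a (CX.of x)) (b (CX.of x)) v0 i.1,
      K11_pt N (a (CX.of x)) (b (CX.of x)) v0 (i.1 + 1))‖ < H⁻¹
    rw [Prod.mk_sub_mk, Prod.mk_sub_mk, Prod.mk_sub_mk, Prod.norm_mk, Prod.norm_mk, Prod.norm_mk]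
    exact max_lt n1 (max_lt (K11_pt_norm N n2 n3 n4 _) (max_lt (K11_pt_norm N n2 n3 n4 _)
      (K11_pt_norm N n2 n3 n4 _)))
  let Φ : EC × (Finset.Ioo 0 N → FC) → (Finset.Ioo 0 N → FC) := fun p i => Gc i (inn i p)
  have hfst : ∀ p ∈ Metric.ball (CX.of x : EC) (1 / (4 * H ^ 3)) ×ˢ
      Metric.ball v0 (1 / (4 * H ^ 3)), p.1 ∈ Metric.ball (CX.of x : EC) H⁻¹ := fun p hp =>
    Metric.ball_subset_ball hrH hp.1
  have hinnd : ∀ i : Finset.Ioo 0 N, DifferentiableOn ℂ (inn i)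
      (Metric.ball (CX.of x : EC) (1 / (4 * H ^ 3)) ×ˢ Metric.ball v0 (1 / (4 * H ^ 3))) := by
    intro i
    have d1 : DifferentiableOn ℂ (fun p : EC × (Finset.Ioo 0 N → FC) => πc p.1)
        (Metric.ball (CX.of x : EC) (1 / (4 * H ^ 3)) ×ˢ Metric.ball v0 (1 / (4 * H ^ 3))) :=
      hπ1.comp differentiableOn_fst hfst
    have d2 : DifferentiableOn ℂ (fun p : EC × (Finset.Ioo 0 N → FC) => a p.1)
        (Metric.ball (CX.of x : EC) (1 / (4 * H ^ 3)) ×ˢ Metric.ball v0 (1 / (4 * H ^ 3))) :=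
      ha1.comp differentiableOn_fst hfst
    have d3 : DifferentiableOn ℂ (fun p : EC × (Finset.Ioo 0 N → FC) => b p.1)
        (Metric.ball (CX.of x : EC) (1 / (4 * H ^ 3)) ×ˢ Metric.ball v0 (1 / (4 * H ^ 3))) :=
      hb1.comp differentiableOn_fst hfst
    exact d1.prodMk ((K11_pt_diff N d2 d3 differentiableOn_snd _).prodMk
      ((K11_pt_diff N d2 d3 differentiableOn_snd _).prodMk
        (K11_pt_diff N d2 d3 differentiableOn_snd _)))
  have hΦd : DifferentiableOn ℂ Φ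
      (Metric.ball (CX.of x : EC) (1 / (4 * H ^ 3)) ×ˢ Metric.ball v0 (1 / (4 * H ^ 3))) :=
    differentiableOn_pi.mpr fun i => (hG1 i).comp (hinnd i) (hmaps i)
  have hΦb : ∀ p ∈ Metric.ball (CX.of x : EC) (1 / (4 * H ^ 3)) ×ˢ
      Metric.ball v0 (1 / (4 * H ^ 3)), ‖Φ p‖ ≤ H := fun p hp =>
    (pi_norm_le_iff_of_nonneg hH0.le).mpr fun i => hG2 i _ (hmaps i p hp)
  have hΦreal : ∀ y : E, (CX.of y : EC) ∈ Metric.ball (CX.of x : EC) (1 / (4 * H ^ 3)) →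
      (fun k : Finset.Ioo 0 N => (CX.of (w k.1 y) : FC)) ∈ Metric.ball v0 (1 / (4 * H ^ 3)) →
      Φ (CX.of y, fun k => CX.of (w k.1 y)) = 0 := by
    intro y hy hv
    funext i
    have hi2 := Finset.mem_Ioo.mp i.2
    have e1 := hinn i y (Metric.ball_subset_ball hrH hy)
    have e2 := hmaps i (CX.of y, fun k => CX.of (w k.1 y)) ⟨hy, hv⟩
    rw [e1] at e2
    change Gc i (inn i (CX.of y, fun k => CX.of (w k.1 y))) = 0
    rw [e1, hG3 i _ e2, heq i.1 hi2.1 hi2.2 y, of_zero]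
  have hΦ0 : Φ (CX.of x, v0) = 0 :=
    hΦreal x (Metric.mem_ball_self hr0) (Metric.mem_ball_self hr0)
  -- the linearisation
  have hcen : ((CX.of x, v0) : EC × (Finset.Ioo 0 N → FC)) ∈
      Metric.ball (CX.of x : EC) (1 / (4 * H ^ 3)) ×ˢ Metric.ball v0 (1 / (4 * H ^ 3)) :=
    ⟨Metric.mem_ball_self hr0, Metric.mem_ball_self hr0⟩
  have hΦa : HasFDerivAt Φ (fderiv ℂ Φ (CX.of x, v0)) (CX.of x, v0) :=
    ((hΦd _ hcen).differentiableAt
      ((Metric.isOpen_ball.prod Metric.isOpen_ball).mem_nhds hcen)).hasFDerivAt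
  have hlin : ∀ (v : Finset.Ioo 0 N → FC) (i : Finset.Ioo 0 N),
      fderiv ℂ Φ (CX.of x, v0) (0, v) i =
        (cl (fderiv ℝ (G i.1) (π x, w (i.1 - 1) x, w i.1 x, w (i.1 + 1) x)) :
          QC × FC × FC × FC →L[ℂ] FC)
          (0, K11_pt N 0 0 v (i.1 - 1), K11_pt N 0 0 v i.1, K11_pt N 0 0 v (i.1 + 1)) := by
    intro v i
    have c0 : HasDerivAt (fun t : ℂ => ((CX.of x, v0 + t • v) : EC × (Finset.Ioo 0 N → FC)))
        (0, v) 0 := by
      have h := (hasDerivAt_const (0 : ℂ) (CX.of x : EC)).prodMk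
        (((hasDerivAt_id (0 : ℂ)).smul_const v).const_add v0)
      simpa using h
    have c1 : HasDerivAt (fun t : ℂ => Φ (CX.of x, v0 + t • v))
        (fderiv ℂ Φ (CX.of x, v0) (0, v)) 0 :=
      hΦa.comp_hasDerivAt_of_eq (0 : ℂ) c0 (by simp)
    have c2 := hasDerivAt_pi.mp c1 i
    have hmi : (CX.of (π x, w (i.1 - 1) x, w i.1 x, w (i.1 + 1) x) : QC × FC × FC × FC) ∈
        Metric.ball (CX.of (π x, w (i.1 - 1) x, w i.1 x, w (i.1 + 1) x)) H⁻¹ :=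
      Metric.mem_ball_self hi
    have c3 : HasFDerivAt (Gc i)
        (fderiv ℂ (Gc i) (CX.of (π x, w (i.1 - 1) x, w i.1 x, w (i.1 + 1) x)))
        (CX.of (π x, w (i.1 - 1) x, w i.1 x, w (i.1 + 1) x)) :=
      ((hG1 i _ hmi).differentiableAt (Metric.isOpen_ball.mem_nhds hmi)).hasFDerivAt
    have c4 : HasDerivAt (fun t : ℂ =>
        (CX.of (π x, w (i.1 - 1) x, w i.1 x, w (i.1 + 1) x) : QC × FC × FC × FC) + t •
          ((0, K11_pt N 0 0 v (i.1 - 1), K11_pt N 0 0 v i.1, K11_pt N 0 0 v (i.1 + 1)) :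
            QC × FC × FC × FC))
        ((0, K11_pt N 0 0 v (i.1 - 1), K11_pt N 0 0 v i.1, K11_pt N 0 0 v (i.1 + 1)) :
            QC × FC × FC × FC) 0 := by
      have h := ((hasDerivAt_id (0 : ℂ)).smul_const
        ((0, K11_pt N 0 0 v (i.1 - 1), K11_pt N 0 0 v i.1, K11_pt N 0 0 v (i.1 + 1)) :
            QC × FC × FC × FC)).const_add
        (CX.of (π x, w (i.1 - 1) x, w i.1 x, w (i.1 + 1) x) : QC × FC × FC × FC)
      simp only [one_smul] at h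
      exact h
    have c5 := c3.comp_hasDerivAt_of_eq (0 : ℂ) c4 (by simp)
    have c6 : (fun t : ℂ => Φ (CX.of x, v0 + t • v) i) = (Gc i ∘ fun t : ℂ =>
        (CX.of (π x, w (i.1 - 1) x, w i.1 x, w (i.1 + 1) x) : QC × FC × FC × FC) + t •
          ((0, K11_pt N 0 0 v (i.1 - 1), K11_pt N 0 0 v i.1, K11_pt N 0 0 v (i.1 + 1)) :
            QC × FC × FC × FC)) := by
      funext t
      change Gc i (inn i (CX.of x, v0 + t • v)) = Gc i _
      rw [← hbase i]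
      congr 1
      change (πc (CX.of x), K11_pt N (a (CX.of x)) (b (CX.of x)) (v0 + t • v) (i.1 - 1),
        K11_pt N (a (CX.of x)) (b (CX.of x)) (v0 + t • v) i.1,
        K11_pt N (a (CX.of x)) (b (CX.of x)) (v0 + t • v) (i.1 + 1)) =
        (πc (CX.of x), K11_pt N (a (CX.of x)) (b (CX.of x)) v0 (i.1 - 1),
        K11_pt N (a (CX.of x)) (b (CX.of x)) v0 i.1,
        K11_pt N (a (CX.of x)) (b (CX.of x)) v0 (i.1 + 1)) + t •
          ((0, K11_pt N 0 0 v (i.1 - 1), K11_pt N 0 0 v i.1, K11_pt N 0 0 v (i.1 + 1)) :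
            QC × FC × FC × FC)
      rw [Prod.smul_mk, Prod.smul_mk, Prod.smul_mk, Prod.mk_add_mk, Prod.mk_add_mk, Prod.mk_add_mk,
        smul_zero, add_zero, K11_pt_lin, K11_pt_lin, K11_pt_lin]
    rw [c6] at c2
    rw [c2.unique c5]
    exact (ho_real Metric.isOpen_ball (hG1 i) (hG3 i) hmi).2 _
  have hlow : ∀ v : Finset.Ioo 0 N → FC, ‖v‖ ≤ 2 * H * ‖fderiv ℂ Φ (CX.of x, v0) (0, v)‖ := by
    intro v
    have hM : 0 ≤ ‖fderiv ℂ Φ (CX.of x, v0) (0, v)‖ := norm_nonneg _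
    have hre := hinv (fun k => (CX.re (K11_pt N 0 0 v k) : F)) ‖fderiv ℂ Φ (CX.of x, v0) (0, v)‖
      (by
        rw [K11_pt_zero, re_zero, norm_zero]
        exact hM)
      (by
        rw [K11_pt_last N hN0, re_zero, norm_zero]
        exact hM)
      (by
        intro k hk1 hkN
        have hk : k ∈ Finset.Ioo 0 N := Finset.mem_Ioo.mpr ⟨hk1, hkN⟩
        have e1 := hlin v ⟨k, hk⟩
        have e2 := (cl_re (fderiv ℝ (G k) (π x, w (k - 1) x, w k x, w (k + 1) x))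
          ((0, K11_pt N 0 0 v (k - 1), K11_pt N 0 0 v k, K11_pt N 0 0 v (k + 1)) :
            QC × FC × FC × FC)).1
        have e3 : (CX.re ((0, K11_pt N 0 0 v (k - 1), K11_pt N 0 0 v k, K11_pt N 0 0 v (k + 1)) :
            QC × FC × FC × FC) : Q × F × F × F) = (0, CX.re (K11_pt N 0 0 v (k - 1)),
              CX.re (K11_pt N 0 0 v k), CX.re (K11_pt N 0 0 v (k + 1))) := by
          change (CX.re (0 : QC), CX.re (K11_pt N 0 0 v (k - 1)),
              CX.re (K11_pt N 0 0 v k), CX.re (K11_pt N 0 0 v (k + 1))) = _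
          rw [re_zero]
        rw [e3] at e2
        rw [← e2, ← e1]
        exact (CX.norm_re _).trans (norm_le_pi_norm _ _))
    have him := hinv (fun k => (CX.im (K11_pt N 0 0 v k) : F)) ‖fderiv ℂ Φ (CX.of x, v0) (0, v)‖
      (by
        rw [K11_pt_zero, im_zero, norm_zero]
        exact hM)
      (by
        rw [K11_pt_last N hN0, im_zero, norm_zero]
        exact hM)
      (by
        intro k hk1 hkN
        have hk : k ∈ Finset.Ioo 0 N := Finset.mem_Ioo.mpr ⟨hk1, hkN⟩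
        have e1 := hlin v ⟨k, hk⟩
        have e2 := (cl_re (fderiv ℝ (G k) (π x, w (k - 1) x, w k x, w (k + 1) x))
          ((0, K11_pt N 0 0 v (k - 1), K11_pt N 0 0 v k, K11_pt N 0 0 v (k + 1)) :
            QC × FC × FC × FC)).2
        have e3 : (CX.im ((0, K11_pt N 0 0 v (k - 1), K11_pt N 0 0 v k, K11_pt N 0 0 v (k + 1)) :
            QC × FC × FC × FC) : Q × F × F × F) = (0, CX.im (K11_pt N 0 0 v (k - 1)),
              CX.im (K11_pt N 0 0 v k), CX.im (K11_pt N 0 0 v (k + 1))) := by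
          change (CX.im (0 : QC), CX.im (K11_pt N 0 0 v (k - 1)),
              CX.im (K11_pt N 0 0 v k), CX.im (K11_pt N 0 0 v (k + 1))) = _
          rw [im_zero]
        rw [e3] at e2
        rw [← e2, ← e1]
        exact (CX.norm_im _).trans (norm_le_pi_norm _ _))
    refine (pi_norm_le_iff_of_nonneg (by positivity)).mpr fun i => ?_
    have hi2 := Finset.mem_Ioo.mp i.2
    have f1 := hre i.1 hi2.2.le
    have f2 := him i.1 hi2.2.le
    simp only [K11_pt_in] at f1 f2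
    have f3 := norm_le_re_im (E := F) (v i)
    linarith
  -- the inverse of the linearisation
  let M0 : (Finset.Ioo 0 N → FC) →ₗ[ℂ] (Finset.Ioo 0 N → FC) :=
    ((fderiv ℂ Φ (CX.of x, v0)).comp
      (ContinuousLinearMap.inr ℂ EC (Finset.Ioo 0 N → FC))).toLinearMap
  have hM0 : ∀ v, M0 v = fderiv ℂ Φ (CX.of x, v0) (0, v) := fun v => rfl
  have hinj : Function.Injective M0 := by
    rw [injective_iff_map_eq_zero]
    intro v hv
    have h := hlow v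
    rw [← hM0, hv, norm_zero, mul_zero] at h
    exact norm_le_zero_iff.mp h
  let e : (Finset.Ioo 0 N → FC) ≃ₗ[ℂ] (Finset.Ioo 0 N → FC) := LinearEquiv.ofInjectiveEndo M0 hinj
  have he : ∀ v, e v = M0 v := fun v => rfl
  have hLb : ∀ v, ‖e.symm v‖ ≤ 2 * H * ‖v‖ := by
    intro v
    have h := hlow (e.symm v)
    rw [← hM0, ← he, LinearEquiv.apply_symm_apply] at h
    exact h
  let L : (Finset.Ioo 0 N → FC) →L[ℂ] (Finset.Ioo 0 N → FC) :=
    LinearMap.mkContinuous (e.symm : (Finset.Ioo 0 N → FC) →ₗ[ℂ] (Finset.Ioo 0 N → FC)) (2 * H) hLb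
  have hL : ∀ v, L (fderiv ℂ Φ (CX.of x, v0) (0, v)) = v := fun v => by
    change e.symm (M0 v) = v
    rw [← he, LinearEquiv.symm_apply_apply]
  have hL' : ∀ v, fderiv ℂ Φ (CX.of x, v0) (0, L v) = v := fun v => by
    change M0 (e.symm v) = v
    rw [← he, LinearEquiv.apply_symm_apply]
  have hLK : ‖L‖ ≤ 2 * H := LinearMap.mkContinuous_norm_le _ (by positivity) _
  obtain ⟨W, hW1, hW2, hW3, hW4⟩ := newton (K := 2 * H) (B := H) (r := 1 / (4 * H ^ 3))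
    (by linarith) hH hr0 hr1 hΦd hΦb hΦ0 hL hL' hLK
  have hs' : (1 / (4 * H ^ 3)) ^ 3 / (128 * (2 * H) ^ 2 * H ^ 2) = 1 / (32768 * H ^ 13) := by
    field_simp
    norm_num
  rw [hs'] at hW1 hW3 hW4
  have hs'r : 1 / (32768 * H ^ 13) ≤ 1 / (4 * H ^ 3) := by
    refine one_div_le_one_div_of_le (by positivity) ?_
    have h := pow_le_pow_right₀ hH (show 3 ≤ 13 by norm_num)
    have h' : 0 < H ^ 3 := by positivity
    linarith
  have hsr : (1 / (4 * H ^ 3)) ^ 2 / (16 * (2 * H) * H) < 1 / (4 * H ^ 3) := by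
    have h1 : (1 / (4 * H ^ 3)) ^ 2 / (16 * (2 * H) * H) =
        1 / (4 * H ^ 3) * (1 / (128 * H ^ 5)) := by
      field_simp
      norm_num
    rw [h1]
    have h2 : 1 / (128 * H ^ 5) < 1 := by
      rw [div_lt_one (by positivity)]
      have h3 : 1 ≤ H ^ 5 := one_le_pow₀ hH
      linarith
    calc 1 / (4 * H ^ 3) * (1 / (128 * H ^ 5)) < 1 / (4 * H ^ 3) * 1 :=
          mul_lt_mul_of_pos_left h2 hr0
      _ = 1 / (4 * H ^ 3) := mul_one _
  have hs2 : (1 / (4 * H ^ 3)) ^ 2 / (32 * (2 * H) * H) =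
      (1 / (4 * H ^ 3)) ^ 2 / (16 * (2 * H) * H) / 2 := by
    field_simp
    norm_num
  rw [hs2] at hW3
  have hs0 : 0 < (1 / (4 * H ^ 3)) ^ 2 / (16 * (2 * H) * H) := by positivity
  generalize (1 / (4 * H ^ 3)) ^ 2 / (16 * (2 * H) * H) = s at hW3 hW4 hsr hs0
  -- agreement at real points
  have hreal : ∀ y : E, (CX.of y : EC) ∈ Metric.ball (CX.of x : EC) (1 / (32768 * H ^ 13)) →
      ‖(fun k : Finset.Ioo 0 N => (CX.of (w k.1 y) : FC)) - v0‖ ≤ s →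
      (fun k : Finset.Ioo 0 N => (CX.of (w k.1 y) : FC)) = W (CX.of y) := by
    intro y hy hv
    refine hW4 _ hy _ ?_ ?_
    · rw [Metric.mem_closedBall, dist_eq_norm]
      exact hv
    · refine hΦreal y (Metric.ball_subset_ball hs'r hy) ?_
      rw [Metric.mem_ball, dist_eq_norm]
      exact hv.trans_lt hsr
  have hclose : ∀ y : E, (CX.of y : EC) ∈ Metric.ball (CX.of x : EC) (1 / (32768 * H ^ 13)) →
      ‖(fun k : Finset.Ioo 0 N => (CX.of (w k.1 y) : FC)) - v0‖ ≤ s := by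
    intro y hy
    by_contra hcon
    rw [not_le] at hcon
    have hcont : ContinuousOn (fun t : ℝ =>
        ‖(fun k : Finset.Ioo 0 N => (CX.of (w k.1 (x + t • (y - x))) : FC)) - v0‖) (Icc 0 1) := by
      refine Continuous.continuousOn ?_
      refine Continuous.norm (Continuous.sub ?_ continuous_const)
      refine continuous_pi fun k => ?_
      exact of_cont.comp ((hw k.1).comp (by fun_prop))
    have hivt := intermediate_value_Icc (zero_le_one' ℝ) hcont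
    have hin : 3 / 4 * s ∈ Icc
        ((fun t : ℝ => ‖(fun k : Finset.Ioo 0 N => (CX.of (w k.1 (x + t • (y - x))) : FC)) - v0‖) 0)
        ((fun t : ℝ => ‖(fun k : Finset.Ioo 0 N => (CX.of (w k.1 (x + t • (y - x))) : FC)) - v0‖)
          1) := by
      constructor
      · simp only [zero_smul, add_zero]
        have h : (fun k : Finset.Ioo 0 N => (CX.of (w k.1 x) : FC)) - v0 = 0 := sub_self v0
        rw [h, norm_zero]
        positivity
      · simp only [one_smul, add_sub_cancel]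
        linarith
    obtain ⟨t, ht, hteq⟩ := hivt hin
    have hteq' : ‖(fun k : Finset.Ioo 0 N => (CX.of (w k.1 (x + t • (y - x))) : FC)) - v0‖ =
        3 / 4 * s := hteq
    have hy' : (CX.of (x + t • (y - x)) : EC) ∈
        Metric.ball (CX.of x : EC) (1 / (32768 * H ^ 13)) := by
      rw [of_mem_ball] at hy ⊢
      rw [add_sub_cancel_left, norm_smul, Real.norm_of_nonneg ht.1]
      calc t * ‖y - x‖ ≤ 1 * ‖y - x‖ := mul_le_mul_of_nonneg_right ht.2 (norm_nonneg _)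
        _ = ‖y - x‖ := one_mul _
        _ < 1 / (32768 * H ^ 13) := hy
    have h1 := hreal _ hy' (by rw [hteq']; linarith)
    have h2 := (hW3 _ hy').1
    rw [← h1, hteq'] at h2
    linarith
  have hjm : j ∈ Finset.Ioo 0 N := Finset.mem_Ioo.mpr ⟨hj1, hjN⟩
  refine ⟨fun z => W z ⟨j, hjm⟩, differentiableOn_pi.mp hW1 ⟨j, hjm⟩, fun z hz => ?_,
    fun y hy => ?_⟩
  · have h1 := (hW3 z hz).1
    have h2 : ‖W z‖ ≤ ‖W z - v0‖ + ‖v0‖ := by
      have h := norm_add_le (W z - v0) v0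
      rwa [sub_add_cancel] at h
    have h3 : ‖v0‖ ≤ H := by
      refine (pi_norm_le_iff_of_nonneg hH0.le).mpr fun k => ?_
      change ‖(CX.of (w k.1 x) : FC)‖ ≤ H
      rw [CX.norm_of]
      exact hb k.1 (Finset.mem_Ioo.mp k.2).2.le
    have h4 := norm_le_pi_norm (W z) ⟨j, hjm⟩
    linarith
  · have h1 := hreal y hy (hclose y hy)
    exact (congrFun h1 ⟨j, hjm⟩).symm

theorem K11_up {X Y XC YC : Type} [NormedAddCommGroup X] [NormedSpace ℝ X] [NormedAddCommGroup Y]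
    [NormedSpace ℝ Y] [NormedAddCommGroup XC] [NormedSpace ℂ XC] [NormedAddCommGroup YC]
    [NormedSpace ℂ YC] [CX X XC] [CX Y YC] {f : X → Y} {z : X} {A A' t : ℝ} (hA' : 1 ≤ A')
    (hle : hc A' t ≤ hc A t) (hf : HE f z (hc A' t)⁻¹ (hc A' t)) :
    HE f z (hc A t)⁻¹ (hc A t) :=
  HE_mono hf (inv_anti₀ (hc_pos hA') hle) hle

theorem K11_const (ℓ : κ → ℝ) (hℓ : ∀ q, 0 ≤ ℓ q) {A1 A2 A3 A4 C K : ℝ} (hA1 : 1 ≤ A1)
    (hA2 : 1 ≤ A2) (hA3 : 1 ≤ A3) (hA4 : 1 ≤ A4) (hC : 1 ≤ C) : ∃ A : ℝ, 1 ≤ A ∧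
    ∀ q, hc A1 (ℓ q) ≤ hc A (ℓ q) ∧ hc A2 (ℓ q) ≤ hc A (ℓ q) ∧ hc A3 (ℓ q) ≤ hc A (ℓ q) ∧
      hc A4 (ℓ q) ≤ hc A (ℓ q) ∧ hc C (ℓ q) ≤ hc A (ℓ q) ∧
      K * Real.exp (K * ℓ q) ≤ hc A (ℓ q) := by
  have hK0 : 0 ≤ |K| := abs_nonneg K
  refine ⟨A1 + A2 + A3 + A4 + C + |K|, by linarith, fun q => ⟨hc_mono hA1 (by linarith) (hℓ q),
    hc_mono hA2 (by linarith) (hℓ q), hc_mono hA3 (by linarith) (hℓ q),
    hc_mono hA4 (by linarith) (hℓ q), hc_mono hC (by linarith) (hℓ q), ?_⟩⟩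
  have hKA : K ≤ A1 + A2 + A3 + A4 + C + |K| := by
    have := le_abs_self K
    linarith
  have e1 : Real.exp (K * ℓ q) ≤ Real.exp ((A1 + A2 + A3 + A4 + C + |K|) * ℓ q) :=
    Real.exp_le_exp.mpr (mul_le_mul_of_nonneg_right hKA (hℓ q))
  unfold hc
  calc K * Real.exp (K * ℓ q) ≤ (A1 + A2 + A3 + A4 + C + |K|) * Real.exp (K * ℓ q) :=
        mul_le_mul_of_nonneg_right hKA (Real.exp_pos _).le
    _ ≤ (A1 + A2 + A3 + A4 + C + |K|) * Real.exp ((A1 + A2 + A3 + A4 + C + |K|) * ℓ q) :=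
        mul_le_mul_of_nonneg_left e1 (by linarith)

theorem HIF {ℓ : κ → ℝ} (hℓ : ∀ q, 0 ≤ ℓ q) {N : κ → ℕ} {x : κ → E} {w : κ → ℕ → E → F}
    {π : κ → E → Q} {G : κ → ℕ → Q × F × F × F → F} (hπ : HB ℓ π x)
    (hG : HB (fun q : In N => ℓ q.1.1) (fun q => G q.1.1 q.1.2)
      (fun q => (π q.1.1 (x q.1.1), w q.1.1 (q.1.2 - 1) (x q.1.1), w q.1.1 q.1.2 (x q.1.1),
        w q.1.1 (q.1.2 + 1) (x q.1.1))))
    (hw : ∀ q j, Continuous (w q j))
    (heq : ∀ q j, 1 ≤ j → j < N q → ∀ y,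
      G q j (π q y, w q (j - 1) y, w q j y, w q (j + 1) y) = 0)
    (h0 : HB ℓ (fun q => w q 0) x) (h1 : HB ℓ (fun q => w q (N q)) x)
    (hb : ∃ C : ℝ, 1 ≤ C ∧ ∀ q j, j ≤ N q → ‖w q j (x q)‖ ≤ hc C (ℓ q))
    (hinv : ∃ K : ℝ, ∀ (q : κ) (v : ℕ → F) (M : ℝ), ‖v 0‖ ≤ M → ‖v (N q)‖ ≤ M →
      (∀ j, 1 ≤ j → j < N q →
        ‖fderiv ℝ (G q j) (π q (x q), w q (j - 1) (x q), w q j (x q), w q (j + 1) (x q))
          (0, v (j - 1), v j, v (j + 1))‖ ≤ M) →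
      ∀ j ≤ N q, ‖v j‖ ≤ K * Real.exp (K * ℓ q) * M) :
    HB (fun q : Le N => ℓ q.1.1) (fun q => w q.1.1 q.1.2) (fun q => x q.1.1) := by
  obtain ⟨A1, hA1, h1'⟩ := hπ
  obtain ⟨A2, hA2, h2'⟩ := hG
  obtain ⟨A3, hA3, h3'⟩ := h0
  obtain ⟨A4, hA4, h4'⟩ := h1
  obtain ⟨C, hC, h5'⟩ := hb
  obtain ⟨K, hK⟩ := hinv
  obtain ⟨A, hA, hg⟩ := K11_const (K := K) ℓ hℓ hA1 hA2 hA3 hA4 hC
  have main : ∀ (q : κ) (j : ℕ), j ≤ N q → HE (w q j) (x q) (1 / 32768 / hc A (ℓ q) ^ 13)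
      (2 * hc A (ℓ q) ^ 13) := by
    intro q j hj
    obtain ⟨g1, g2, g3, g4, g5, g6⟩ := hg q
    have hH : 1 ≤ hc A (ℓ q) := hc_one hA (hℓ q)
    have k0 : HE (w q 0) (x q) (hc A (ℓ q))⁻¹ (hc A (ℓ q)) := K11_up hA3 g3 (h3' q)
    have k1 : HE (w q (N q)) (x q) (hc A (ℓ q))⁻¹ (hc A (ℓ q)) := K11_up hA4 g4 (h4' q)
    have kπ : HE (π q) (x q) (hc A (ℓ q))⁻¹ (hc A (ℓ q)) := K11_up hA1 g1 (h1' q)
    have kG : ∀ i, 1 ≤ i → i < N q → HE (G q i)
        (π q (x q), w q (i - 1) (x q), w q i (x q), w q (i + 1) (x q)) (hc A (ℓ q))⁻¹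
        (hc A (ℓ q)) := fun i hi1 hi2 => K11_up hA2 g2 (h2' ⟨(q, i), hi1, hi2⟩)
    have kb : ∀ i, i ≤ N q → ‖w q i (x q)‖ ≤ hc A (ℓ q) := fun i hi => (h5' q i hi).trans g5
    have kinv : ∀ (v : ℕ → F) (M : ℝ), ‖v 0‖ ≤ M → ‖v (N q)‖ ≤ M →
        (∀ j, 1 ≤ j → j < N q →
        ‖fderiv ℝ (G q j) (π q (x q), w q (j - 1) (x q), w q j (x q), w q (j + 1) (x q))
          (0, v (j - 1), v j, v (j + 1))‖ ≤ M) → ∀ j ≤ N q, ‖v j‖ ≤ hc A (ℓ q) * M := by
      intro v M m0 m1 m2 i hi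
      have hM : 0 ≤ M := (norm_nonneg _).trans m0
      exact (hK q v M m0 m1 m2 i hi).trans (mul_le_mul_of_nonneg_right g6 hM)
    have heq' := heq q
    have hw' := hw q
    generalize hc A (ℓ q) = H at hH k0 k1 kπ kG kb kinv
    have hH0 : 0 < H := by linarith
    have hpw : H ≤ H ^ 13 := by
      calc H = H ^ 1 := (pow_one _).symm
        _ ≤ H ^ 13 := pow_le_pow_right₀ hH (by norm_num)
    have hrad : 1 / 32768 / H ^ 13 ≤ H⁻¹ := by
      rw [div_div, ← one_div]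
      refine one_div_le_one_div_of_le hH0 ?_
      have : 0 < H ^ 13 := by positivity
      linarith
    rcases Nat.eq_zero_or_pos j with hj0 | hj0
    · rw [hj0]
      exact HE_mono k0 hrad (by linarith)
    rcases hj.eq_or_lt with hjN | hjN
    · rw [hjN]
      exact HE_mono k1 hrad (by linarith)
    have h := K11_one hH kπ kG hw' heq' k0 k1 kb kinv j hj0 hjN
    refine HE_mono h (le_of_eq ?_) (by linarith)
    rw [div_div]
  have hfin : ∀ q : Le N, HE (w q.1.1 q.1.2) (x q.1.1) (1 / 32768 / hc A (ℓ q.1.1) ^ 13)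
      (2 * hc A (ℓ q.1.1) ^ 13) := fun q => main q.1.1 q.1.2 q.2
  have hc1 : (0 : ℝ) < 1 / 32768 := by norm_num
  have hc2 : (0 : ℝ) ≤ 2 := by norm_num
  generalize (1 / 32768 : ℝ) = c' at hfin hc1
  exact HB_of (ι := Le N) (ℓ := fun q => ℓ q.1.1) (x := fun q => x q.1.1)
    (f := fun q => w q.1.1 q.1.2) (A := A) (c := 2) (c' := c')
    (fun q => hℓ q.1.1) hA hc2 hc1 13 hfin

end BE36
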