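import Pool.Agent.LibBE36K.K08
import Pool.Agent.LibBE36K.K05

/-! Row BE36 K09 (cites K02, K08): integrals over `r ∈ [0, 1]`. MEDIUM, 45 min.
Plan. `HO_int`: choose `n ≥ 1` with `1 / n < κ`, `r_k = k / n`, `k < n`, and the extension `g k` for `r0 = r_k` on
`ball r_k κ ×ˢ Ω`; it is (jointly) continuous there (`DifferentiableOn.continuousOn`) and holomorphic in `z` for
fixed real `r ∈ [r_k, r_{k+1}]`. The extension of the integral is
`G z = ∑ k < n, ∫ r in r_k..r_{k+1}, g k ((r : ℂ), z)`: holomorphic by `holo_int`, norm `≤ ∑ B / n = B`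
(`intervalIntegral.norm_integral_le_of_norm_le_const`), and for real `y` the integrand is `of (f (r, y))`; the integral of
`of ∘ h` is `of` of the integral: `CX.of` as a continuous real linear map (`of_add`, `of_smul`, `of_cont`;
`ContinuousLinearMap.intervalIntegral_comp_comm` with `NormedSpace ℝ FC` from `NormedSpace.complexToReal`: real scalars act
as `(r : ℂ) • ·`), and `h` is continuous on the interval, being `re` of a continuous function;
`intervalIntegral.sum_integral_adjacent_intervals`. `HB_int`: the hypothesis gives for every `q, r0` an extension to the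
ball of `ℂ × EC` of radius `ρ = (hc A (ℓ q))⁻¹` around `(r0, of (x q))`, which contains `ball r0 ρ ×ˢ ball (of (x q)) ρ`
(it is equal to it: sup norm); `HO_int`. -/

open MeasureTheory Set Filter Topology

namespace BE36

variable {E F EC FC : Type} [NormedAddCommGroup E] [NormedSpace ℝ E] [FiniteDimensional ℝ E]
  [NormedAddCommGroup F] [NormedSpace ℝ F] [FiniteDimensional ℝ F] [NormedAddCommGroup EC]
  [NormedSpace ℂ EC] [NormedAddCommGroup FC] [NormedSpace ℂ FC] [CX E EC] [CX F FC]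

theorem HO_int {Ω : Set EC} (hΩ : IsOpen Ω) {B κ : ℝ} (hκ : 0 < κ) {f : ℝ × E → F}
    (h : ∀ r0 ∈ Icc (0 : ℝ) 1, HO (Metric.ball (r0 : ℂ) κ ×ˢ Ω) B f) :
    HO Ω B (fun y => ∫ r in (0 : ℝ)..1, f (r, y)) := by
  have : FiniteDimensional ℂ EC := fd_EC (E := E)
  have : FiniteDimensional ℂ FC := fd_EC (E := F)
  have : CompleteSpace FC := FiniteDimensional.complete ℂ FC
  have : CompleteSpace F := FiniteDimensional.complete ℝ F
  obtain ⟨n0, hn0⟩ := exists_nat_one_div_lt hκ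
  have hn : (0 : ℝ) < ((n0 + 1 : ℕ) : ℝ) := by positivity
  have hnκ : 1 / ((n0 + 1 : ℕ) : ℝ) < κ := by push_cast; exact hn0
  have hext : ∀ k : ℕ, ∃ g : ℂ × EC → FC, k < n0 + 1 →
      DifferentiableOn ℂ g (Metric.ball ((((k : ℝ) / ((n0 + 1 : ℕ) : ℝ) : ℝ)) : ℂ) κ ×ˢ Ω) ∧
      (∀ z ∈ Metric.ball ((((k : ℝ) / ((n0 + 1 : ℕ) : ℝ) : ℝ)) : ℂ) κ ×ˢ Ω, ‖g z‖ ≤ B) ∧
      ∀ y : ℝ × E, (CX.of y : ℂ × EC) ∈
        Metric.ball ((((k : ℝ) / ((n0 + 1 : ℕ) : ℝ) : ℝ)) : ℂ) κ ×ˢ Ω →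
          g (CX.of y) = CX.of (f y) := by
    intro k
    by_cases hk : k < n0 + 1
    · have hk1 : (k : ℝ) / ((n0 + 1 : ℕ) : ℝ) ∈ Icc (0 : ℝ) 1 := by
        refine ⟨by positivity, ?_⟩
        rw [div_le_one hn]
        exact_mod_cast hk.le
      obtain ⟨g, h1, h2, h3⟩ := h _ hk1
      exact ⟨g, fun _ => ⟨h1, h2, h3⟩⟩
    · exact ⟨fun _ => 0, fun h => absurd h hk⟩
  choose g hg using hext
  have hstep : ∀ k : ℕ, ((k + 1 : ℕ) : ℝ) / ((n0 + 1 : ℕ) : ℝ) - (k : ℝ) / ((n0 + 1 : ℕ) : ℝ) =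
      1 / ((n0 + 1 : ℕ) : ℝ) := by
    intro k
    rw [← sub_div]
    congr 1
    push_cast
    ring
  have hle : ∀ k : ℕ, (k : ℝ) / ((n0 + 1 : ℕ) : ℝ) ≤ ((k + 1 : ℕ) : ℝ) / ((n0 + 1 : ℕ) : ℝ) := by
    intro k
    have h1 := hstep k
    have h2 : 0 < 1 / ((n0 + 1 : ℕ) : ℝ) := by positivity
    linarith
  have hball : ∀ k : ℕ, ∀ r ∈ uIcc ((k : ℝ) / ((n0 + 1 : ℕ) : ℝ))
      (((k + 1 : ℕ) : ℝ) / ((n0 + 1 : ℕ) : ℝ)),
      (r : ℂ) ∈ Metric.ball ((((k : ℝ) / ((n0 + 1 : ℕ) : ℝ) : ℝ)) : ℂ) κ := by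
    intro k r hr
    rw [uIcc_of_le (hle k)] at hr
    rw [Metric.mem_ball, dist_eq_norm, ← Complex.ofReal_sub, Complex.norm_real, Real.norm_eq_abs,
      abs_of_nonneg (by linarith [hr.1])]
    have h1 := hstep k
    linarith [hr.2]
  refine ⟨fun z => ∑ k ∈ Finset.range (n0 + 1),
    ∫ r in ((k : ℝ) / ((n0 + 1 : ℕ) : ℝ))..(((k + 1 : ℕ) : ℝ) / ((n0 + 1 : ℕ) : ℝ)),
      g k ((r : ℂ), z), ?_, ?_, ?_⟩
  · refine DifferentiableOn.fun_sum fun k hk => ?_
    have hk' := Finset.mem_range.1 hk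
    obtain ⟨h1, h2, h3⟩ := hg k hk'
    refine holo_int hΩ (H := fun z r => g k ((r : ℂ), z)) ?_ ?_
    · refine h1.continuousOn.comp (f := fun p : EC × ℝ => (((p.2 : ℝ) : ℂ), p.1)) ?_ ?_
      · exact ((Complex.continuous_ofReal.comp continuous_snd).prodMk continuous_fst).continuousOn
      · intro p hp
        exact ⟨hball k p.2 hp.2, hp.1⟩
    · intro t ht
      refine h1.comp (f := fun z : EC => ((t : ℂ), z)) ?_ ?_
      · exact ((differentiable_const _).prodMk differentiable_id).differentiableOn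
      · intro z hz
        exact ⟨hball k t ht, hz⟩
  · intro z hz
    calc ‖∑ k ∈ Finset.range (n0 + 1),
          ∫ r in ((k : ℝ) / ((n0 + 1 : ℕ) : ℝ))..(((k + 1 : ℕ) : ℝ) / ((n0 + 1 : ℕ) : ℝ)),
            g k ((r : ℂ), z)‖ ≤ ∑ k ∈ Finset.range (n0 + 1), B * (1 / ((n0 + 1 : ℕ) : ℝ)) := by
          refine norm_sum_le_of_le _ fun k hk => ?_
          have hk' := Finset.mem_range.1 hk
          obtain ⟨h1, h2, h3⟩ := hg k hk'
          have h4 := intervalIntegral.norm_integral_le_of_norm_le_const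
            (f := fun r : ℝ => g k ((r : ℂ), z)) (C := B)
            (a := (k : ℝ) / ((n0 + 1 : ℕ) : ℝ)) (b := ((k + 1 : ℕ) : ℝ) / ((n0 + 1 : ℕ) : ℝ))
            (fun r hr => h2 _ ⟨hball k r (uIoc_subset_uIcc hr), hz⟩)
          rw [hstep k, abs_of_pos (by positivity)] at h4
          exact h4
      _ = B := by
          rw [Finset.sum_const, Finset.card_range, nsmul_eq_mul]
          field_simp
  · intro y hy
    have hreal : ∀ k < n0 + 1, ∀ r ∈ uIcc ((k : ℝ) / ((n0 + 1 : ℕ) : ℝ))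
        (((k + 1 : ℕ) : ℝ) / ((n0 + 1 : ℕ) : ℝ)),
        g k ((r : ℂ), (CX.of y : EC)) = CX.of (f (r, y)) := by
      intro k hk r hr
      obtain ⟨h1, h2, h3⟩ := hg k hk
      exact h3 (r, y) ⟨hball k r hr, hy⟩
    have hint : ∀ k < n0 + 1, IntervalIntegrable (fun r => f (r, y)) volume
        ((k : ℝ) / ((n0 + 1 : ℕ) : ℝ)) (((k + 1 : ℕ) : ℝ) / ((n0 + 1 : ℕ) : ℝ)) := by
      intro k hk
      obtain ⟨h1, h2, h3⟩ := hg k hk
      have hc : ContinuousOn (fun r : ℝ => (CX.re (g k ((r : ℂ), (CX.of y : EC))) : F))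
          (uIcc ((k : ℝ) / ((n0 + 1 : ℕ) : ℝ)) (((k + 1 : ℕ) : ℝ) / ((n0 + 1 : ℕ) : ℝ))) := by
        refine (re_cont (E := F) (EC := FC)).comp_continuousOn ?_
        refine h1.continuousOn.comp (f := fun r : ℝ => ((r : ℂ), (CX.of y : EC))) ?_ ?_
        · exact (Complex.continuous_ofReal.prodMk continuous_const).continuousOn
        · intro r hr
          exact ⟨hball k r hr, hy⟩
      refine (hc.congr fun r hr => ?_).intervalIntegrable
      show f (r, y) = (CX.re (g k ((r : ℂ), (CX.of y : EC))) : F)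
      rw [hreal k hk r hr, CX.re_of]
    let L : F →L[ℝ] FC :=
      { toFun := CX.of
        map_add' := CX.of_add
        map_smul' := fun r v => by
          rw [CX.of_smul, RingHom.id_apply]
          exact Complex.coe_smul r _
        cont := of_cont }
    have hL : ∀ v, L v = CX.of v := fun v => rfl
    have hsum := intervalIntegral.sum_integral_adjacent_intervals
      (f := fun r => f (r, y)) (a := fun k : ℕ => (k : ℝ) / ((n0 + 1 : ℕ) : ℝ)) (n := n0 + 1)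
      (μ := volume) (fun k hk => hint k hk)
    have ha0 : ((0 : ℕ) : ℝ) / ((n0 + 1 : ℕ) : ℝ) = 0 := by simp
    have ha1 : ((n0 + 1 : ℕ) : ℝ) / ((n0 + 1 : ℕ) : ℝ) = 1 := div_self hn.ne'
    simp only [ha0, ha1] at hsum
    show ∑ k ∈ Finset.range (n0 + 1),
      ∫ r in ((k : ℝ) / ((n0 + 1 : ℕ) : ℝ))..(((k + 1 : ℕ) : ℝ) / ((n0 + 1 : ℕ) : ℝ)),
        g k ((r : ℂ), (CX.of y : EC)) = CX.of (∫ r in (0 : ℝ)..1, f (r, y))
    rw [← hsum, ← hL, map_sum]
    refine Finset.sum_congr rfl fun k hk => ?_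
    have hk' := Finset.mem_range.1 hk
    rw [← L.intervalIntegral_comp_comm (hint k hk')]
    exact intervalIntegral.integral_congr fun r hr => hreal k hk' r hr

theorem HB_int {κ : Type} {ℓ : κ → ℝ} (hℓ : ∀ q, 0 ≤ ℓ q) {x : κ → E} {Φ : κ → ℝ × E → F}
    (hb : HB (fun q : κ × Icc (0 : ℝ) 1 => ℓ q.1) (fun q => Φ q.1)
      (fun q => ((q.2 : ℝ), x q.1))) :
    HB ℓ (fun q y => ∫ r in (0 : ℝ)..1, Φ q (r, y)) x := by
  obtain ⟨A, hA, h⟩ := hb
  refine ⟨A, hA, fun q => ?_⟩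
  refine HO_int Metric.isOpen_ball (inv_pos.2 (hc_pos (t := ℓ q) hA)) ?_
  intro r0 hr0
  have h1 := h (q, ⟨r0, hr0⟩)
  have h2 : Metric.ball ((r0 : ℝ) : ℂ) (hc A (ℓ q))⁻¹ ×ˢ
      Metric.ball (CX.of (x q) : EC) (hc A (ℓ q))⁻¹ =
      Metric.ball (CX.of ((r0 : ℝ), x q) : ℂ × EC) (hc A (ℓ q))⁻¹ := ball_prod_same _ _ _
  rw [h2]
  exact h1

end BE36
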