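import Mathlib

/-! BE36: holomorphic extensions with ONE constant. Definitions (architect helper88).

`CX E EC`: `EC` is a complexification of the real normed space `E`. `HO Ω B f`: the function
`f : E → F` has a holomorphic extension to the open set `Ω ⊆ EC`, bounded by `B`. `HB ℓ f x`: with one
constant `A`, the functions `f i` extend to the balls of radius `(A exp (A ℓ i))⁻¹` around `x i`, and are
bounded there by `A exp (A ℓ i)`. -/

open MeasureTheory Set Filter Topology
open scoped ContDiff

namespace BE36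

/-- A complexification of a real normed space. -/
class CX (E : Type) (EC : outParam Type) [NormedAddCommGroup E] [NormedSpace ℝ E]
    [NormedAddCommGroup EC] [NormedSpace ℂ EC] where
  of : E → EC
  re : EC → E
  im : EC → E
  of_add : ∀ x y, of (x + y) = of x + of y
  of_smul : ∀ (r : ℝ) (x : E), of (r • x) = (r : ℂ) • of x
  norm_of : ∀ x, ‖of x‖ = ‖x‖
  re_add : ∀ z w, re (z + w) = re z + re w
  im_add : ∀ z w, im (z + w) = im z + im w
  re_smul : ∀ (r : ℝ) z, re ((r : ℂ) • z) = r • re z
  im_smul : ∀ (r : ℝ) z, im ((r : ℂ) • z) = r • im z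
  re_I : ∀ z, re (Complex.I • z) = -im z
  im_I : ∀ z, im (Complex.I • z) = re z
  re_of : ∀ x, re (of x) = x
  im_of : ∀ x, im (of x) = 0
  norm_re : ∀ z, ‖re z‖ ≤ ‖z‖
  norm_im : ∀ z, ‖im z‖ ≤ ‖z‖
  eta : ∀ z, of (re z) + Complex.I • of (im z) = z

instance : CX ℝ ℂ where
  of := fun x => (x : ℂ)
  re := Complex.re
  im := Complex.im
  of_add := fun x y => by push_cast; rfl
  of_smul := fun r x => by simp
  norm_of := fun x => by simp
  re_add := fun z w => rfl
  im_add := fun z w => rfl
  re_smul := fun r z => by simp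
  im_smul := fun r z => by simp
  re_I := fun z => by simp
  im_I := fun z => by simp
  re_of := fun x => rfl
  im_of := fun x => rfl
  norm_re := fun z => by simpa using Complex.abs_re_le_norm z
  norm_im := fun z => by simpa using Complex.abs_im_le_norm z
  eta := fun z => by
    rw [smul_eq_mul, mul_comm]
    exact Complex.re_add_im z

instance {E F EC FC : Type} [NormedAddCommGroup E] [NormedSpace ℝ E] [NormedAddCommGroup F]
    [NormedSpace ℝ F] [NormedAddCommGroup EC] [NormedSpace ℂ EC] [NormedAddCommGroup FC]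
    [NormedSpace ℂ FC] [CX E EC] [CX F FC] : CX (E × F) (EC × FC) where
  of := fun x => (CX.of x.1, CX.of x.2)
  re := fun z => (CX.re z.1, CX.re z.2)
  im := fun z => (CX.im z.1, CX.im z.2)
  of_add := fun x y => Prod.ext (CX.of_add _ _) (CX.of_add _ _)
  of_smul := fun r x => Prod.ext (CX.of_smul _ _) (CX.of_smul _ _)
  norm_of := fun x => by
    rw [Prod.norm_def, Prod.norm_def]
    simp only [CX.norm_of]
  re_add := fun z w => Prod.ext (CX.re_add _ _) (CX.re_add _ _)
  im_add := fun z w => Prod.ext (CX.im_add _ _) (CX.im_add _ _)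
  re_smul := fun r z => Prod.ext (CX.re_smul _ _) (CX.re_smul _ _)
  im_smul := fun r z => Prod.ext (CX.im_smul _ _) (CX.im_smul _ _)
  re_I := fun z => Prod.ext (CX.re_I _) (CX.re_I _)
  im_I := fun z => Prod.ext (CX.im_I _) (CX.im_I _)
  re_of := fun x => Prod.ext (CX.re_of _) (CX.re_of _)
  im_of := fun x => Prod.ext (CX.im_of _) (CX.im_of _)
  norm_re := fun z => max_le_max (CX.norm_re _) (CX.norm_re _)
  norm_im := fun z => max_le_max (CX.norm_im _) (CX.norm_im _)
  eta := fun z => Prod.ext (CX.eta _) (CX.eta _)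

section Cal

variable {ι E F EC FC : Type} [NormedAddCommGroup E] [NormedSpace ℝ E] [NormedAddCommGroup F]
  [NormedSpace ℝ F] [NormedAddCommGroup EC] [NormedSpace ℂ EC] [NormedAddCommGroup FC]
  [NormedSpace ℂ FC] [CX E EC] [CX F FC]

/-- `f` has a holomorphic extension to `Ω`, bounded by `B`. -/
def HO (Ω : Set EC) (B : ℝ) (f : E → F) : Prop :=
  ∃ g : EC → FC, DifferentiableOn ℂ g Ω ∧ (∀ z ∈ Ω, ‖g z‖ ≤ B) ∧
    ∀ y : E, CX.of y ∈ Ω → g (CX.of y) = CX.of (f y)

/-- `f` has a holomorphic extension to the ball of radius `r` around `x`, bounded by `B`. -/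
def HE (f : E → F) (x : E) (r B : ℝ) : Prop := HO (Metric.ball (CX.of x) r) B f

/-- The constant. -/
noncomputable def hc (A ℓ : ℝ) : ℝ := A * Real.exp (A * ℓ)

/-- One constant. -/
def HB (ℓ : ι → ℝ) (f : ι → E → F) (x : ι → E) : Prop :=
  ∃ A : ℝ, 1 ≤ A ∧ ∀ i, HE (f i) (x i) (hc A (ℓ i))⁻¹ (hc A (ℓ i))

end Cal

end BE36
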