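import Pool.Agent.LibBE36K.Cx

/-! Row BE36 K01 (only Mathlib): the API of the class `CX`. SHORT, 30 min.
Plan. All identities follow from the fields of the class (`of_smul` with `r = -1` and `r = 0` for `of_neg`,
`of_zero`; `eta` for `ext_re_im` and `norm_le_re_im`; `norm_smul`, `‖I‖ = 1`). `re_I_of`: `re_I`, `im_of`. `cl L` is
built with `LinearMap.mkContinuous` (constant `2 * ‖L‖`): for `c = a + b I` use `eta`, `re_add`, `re_smul`, `re_I`.
Continuity: `of`, `re`, `im` are additive and bounded (`AddMonoidHomClass` or `Metric` with `norm_re`). `cd_EC`: a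
basis `b` of `E` gives the spanning family `of (b i)` of `EC` (`eta`); or the surjective `ℝ`-linear map
`(x, y) ↦ of x + I • of y` from `E × E` and `Module.Finite` over `ℝ` implies over `ℂ`
(`Module.Finite.of_restrictScalars_finite`). `convex_of`: `‖re z - x‖ = ‖re (z - of x)‖ ≤ ‖z - of x‖`. -/

open Set Filter Topology

namespace BE36

variable {E F EC FC : Type} [NormedAddCommGroup E] [NormedSpace ℝ E] [NormedAddCommGroup F]
  [NormedSpace ℝ F] [NormedAddCommGroup EC] [NormedSpace ℂ EC] [NormedAddCommGroup FC]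
  [NormedSpace ℂ FC] [CX E EC] [CX F FC]

theorem of_zero : CX.of (0 : E) = (0 : EC) := by
  have h := CX.of_smul (EC := EC) (0 : ℝ) (0 : E)
  rw [zero_smul, Complex.ofReal_zero, zero_smul] at h
  exact h

theorem of_neg (x : E) : CX.of (-x) = -(CX.of x : EC) := by
  have h := CX.of_smul (EC := EC) (-1 : ℝ) x
  rw [neg_one_smul, Complex.ofReal_neg, Complex.ofReal_one, neg_one_smul] at h
  exact h

theorem of_sub (x y : E) : CX.of (x - y) = (CX.of x : EC) - CX.of y := by
  rw [sub_eq_add_neg, CX.of_add, of_neg, ← sub_eq_add_neg]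

theorem re_zero : CX.re (0 : EC) = (0 : E) := by
  have h := CX.re_smul (E := E) (0 : ℝ) (0 : EC)
  rw [Complex.ofReal_zero, zero_smul, zero_smul] at h
  exact h

theorem im_zero : CX.im (0 : EC) = (0 : E) := by
  have h := CX.im_smul (E := E) (0 : ℝ) (0 : EC)
  rw [Complex.ofReal_zero, zero_smul, zero_smul] at h
  exact h

theorem re_neg (z : EC) : CX.re (-z) = -(CX.re z : E) := by
  have h := CX.re_smul (E := E) (-1 : ℝ) z
  rw [Complex.ofReal_neg, Complex.ofReal_one, neg_one_smul, neg_one_smul] at h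
  exact h

theorem im_neg (z : EC) : CX.im (-z) = -(CX.im z : E) := by
  have h := CX.im_smul (E := E) (-1 : ℝ) z
  rw [Complex.ofReal_neg, Complex.ofReal_one, neg_one_smul, neg_one_smul] at h
  exact h

theorem re_sub (z w : EC) : CX.re (z - w) = (CX.re z : E) - CX.re w := by
  rw [sub_eq_add_neg, CX.re_add, re_neg, ← sub_eq_add_neg]

theorem im_sub (z w : EC) : CX.im (z - w) = (CX.im z : E) - CX.im w := by
  rw [sub_eq_add_neg, CX.im_add, im_neg, ← sub_eq_add_neg]

theorem of_inj {x y : E} (h : (CX.of x : EC) = CX.of y) : x = y := by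
  have h1 := congrArg (CX.re : EC → E) h
  rwa [CX.re_of, CX.re_of] at h1

theorem norm_of_sub (x y : E) : ‖(CX.of x : EC) - CX.of y‖ = ‖x - y‖ := by
  rw [← of_sub, CX.norm_of]

theorem ext_re_im {z w : EC} (h1 : (CX.re z : E) = CX.re w) (h2 : (CX.im z : E) = CX.im w) :
    z = w := by
  rw [← CX.eta (E := E) z, ← CX.eta (E := E) w, h1, h2]

/-- A point is real if its imaginary part vanishes. -/
theorem real_iff (z : EC) : (CX.im z : E) = 0 ↔ CX.of (CX.re z : E) = z := by
  constructor
  · intro h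
    have h1 := CX.eta (E := E) z
    rw [h, of_zero, smul_zero, add_zero] at h1
    exact h1
  · intro h
    rw [← h, CX.im_of]

theorem norm_le_re_im (z : EC) : ‖z‖ ≤ ‖(CX.re z : E)‖ + ‖(CX.im z : E)‖ := by
  have h1 := norm_add_le (CX.of (CX.re z : E) : EC) (Complex.I • CX.of (CX.im z : E))
  rw [CX.eta, norm_smul, Complex.norm_I, one_mul, CX.norm_of, CX.norm_of] at h1
  exact h1

theorem of_cont : Continuous (CX.of : E → EC) := by
  refine (LipschitzWith.mk_one fun x y => ?_).continuous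
  rw [dist_eq_norm, dist_eq_norm, norm_of_sub]

theorem re_cont : Continuous (CX.re : EC → E) := by
  refine (LipschitzWith.mk_one fun x y => ?_).continuous
  rw [dist_eq_norm, dist_eq_norm, ← re_sub]
  exact CX.norm_re _

theorem im_cont : Continuous (CX.im : EC → E) := by
  refine (LipschitzWith.mk_one fun x y => ?_).continuous
  rw [dist_eq_norm, dist_eq_norm, ← im_sub]
  exact CX.norm_im _

/-- The real part of a point of a ball with real centre is in the ball. -/
theorem re_ball {x : E} {r : ℝ} {z : EC} (hz : z ∈ Metric.ball (CX.of x) r) :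
    CX.of (CX.re z : E) ∈ Metric.ball (CX.of x : EC) r := by
  rw [Metric.mem_ball, dist_eq_norm] at hz ⊢
  refine lt_of_le_of_lt ?_ hz
  rw [norm_of_sub]
  have h1 : (CX.re z : E) - x = CX.re (z - CX.of x) := by rw [re_sub, CX.re_of]
  rw [h1]
  exact CX.norm_re _

theorem of_mem_ball {x y : E} {r : ℝ} :
    (CX.of y : EC) ∈ Metric.ball (CX.of x) r ↔ ‖y - x‖ < r := by
  rw [Metric.mem_ball, dist_eq_norm, norm_of_sub]

theorem K01_re_csmul (c : ℂ) (z : EC) :
    (CX.re (c • z) : E) = c.re • CX.re z - c.im • CX.im z := by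
  have h : c • z = (c.re : ℂ) • z + (c.im : ℂ) • (Complex.I • z) := by
    rw [smul_smul, ← add_smul, Complex.re_add_im]
  rw [h, CX.re_add, CX.re_smul, CX.re_smul, CX.re_I, smul_neg, ← sub_eq_add_neg]

theorem K01_im_csmul (c : ℂ) (z : EC) :
    (CX.im (c • z) : E) = c.re • CX.im z + c.im • CX.re z := by
  have h : c • z = (c.re : ℂ) • z + (c.im : ℂ) • (Complex.I • z) := by
    rw [smul_smul, ← add_smul, Complex.re_add_im]
  rw [h, CX.im_add, CX.im_smul, CX.im_smul, CX.im_I]

/-- The complexification of a linear map. -/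
theorem exists_cl (L : E →L[ℝ] F) : ∃ M : EC →L[ℂ] FC,
    (∀ z, M z = CX.of (L (CX.re z)) + Complex.I • CX.of (L (CX.im z))) ∧ ‖M‖ ≤ 2 * ‖L‖ := by
  have hadd : ∀ z w : EC, CX.of (L (CX.re (z + w))) + Complex.I • CX.of (L (CX.im (z + w))) =
      (CX.of (L (CX.re z)) + Complex.I • CX.of (L (CX.im z)) : FC) +
        (CX.of (L (CX.re w)) + Complex.I • CX.of (L (CX.im w))) := by
    intro z w
    rw [CX.re_add, CX.im_add, map_add, map_add, CX.of_add, CX.of_add, smul_add]
    abel
  have hsmul : ∀ (c : ℂ) (z : EC),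
      (CX.of (L (CX.re (c • z))) + Complex.I • CX.of (L (CX.im (c • z))) : FC) =
      c • (CX.of (L (CX.re z)) + Complex.I • CX.of (L (CX.im z))) := by
    intro c z
    rw [K01_re_csmul, K01_im_csmul, map_sub, map_add, map_smul, map_smul, map_smul, map_smul,
      of_sub, CX.of_add, CX.of_smul, CX.of_smul, CX.of_smul, CX.of_smul]
    set u : FC := CX.of (L (CX.re z))
    set v : FC := CX.of (L (CX.im z))
    have hI := Complex.I_mul_I
    have e1 : (Complex.I • ((c.re : ℂ) • v + (c.im : ℂ) • u) : FC) =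
        ((Complex.I * (c.re : ℂ)) • v + (Complex.I * (c.im : ℂ)) • u) := by
      rw [smul_add, smul_smul, smul_smul]
    have e2 : c • (u + Complex.I • v) = c • u + (c * Complex.I) • v := by
      rw [smul_add, smul_smul]
    rw [e1, e2]
    have e3 : c * Complex.I = Complex.I * (c.re : ℂ) - (c.im : ℂ) := by
      conv_lhs => rw [← Complex.re_add_im c]
      linear_combination (c.im : ℂ) * hI
    have e4 : c • u = (c.re : ℂ) • u + (Complex.I * (c.im : ℂ)) • u := by
      rw [← add_smul]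
      congr 1
      conv_lhs => rw [← Complex.re_add_im c]
      ring
    rw [e3, e4, sub_smul]
    abel
  let M₀ : EC →ₗ[ℂ] FC :=
    { toFun := fun z => CX.of (L (CX.re z)) + Complex.I • CX.of (L (CX.im z))
      map_add' := hadd
      map_smul' := hsmul }
  have hbd : ∀ z, ‖M₀ z‖ ≤ 2 * ‖L‖ * ‖z‖ := by
    intro z
    have h1 : ‖M₀ z‖ ≤ ‖L (CX.re z)‖ + ‖L (CX.im z)‖ := by
      refine (norm_add_le _ _).trans ?_
      rw [norm_smul, Complex.norm_I, one_mul, CX.norm_of, CX.norm_of]
    have h2 : ‖L (CX.re z)‖ ≤ ‖L‖ * ‖z‖ :=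
      (L.le_opNorm _).trans (mul_le_mul_of_nonneg_left (CX.norm_re z) (norm_nonneg _))
    have h3 : ‖L (CX.im z)‖ ≤ ‖L‖ * ‖z‖ :=
      (L.le_opNorm _).trans (mul_le_mul_of_nonneg_left (CX.norm_im z) (norm_nonneg _))
    linarith
  exact ⟨M₀.mkContinuous _ hbd, fun z => rfl, M₀.mkContinuous_norm_le (by positivity) hbd⟩

/-- The complexification of a linear map. -/
noncomputable def cl (L : E →L[ℝ] F) : EC →L[ℂ] FC := (exists_cl (EC := EC) (FC := FC) L).choose

theorem cl_apply (L : E →L[ℝ] F) (z : EC) :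
    (cl L : EC →L[ℂ] FC) z = CX.of (L (CX.re z)) + Complex.I • CX.of (L (CX.im z)) := by
  exact (exists_cl (EC := EC) (FC := FC) L).choose_spec.1 z

theorem cl_norm (L : E →L[ℝ] F) : ‖(cl L : EC →L[ℂ] FC)‖ ≤ 2 * ‖L‖ := by
  exact (exists_cl (EC := EC) (FC := FC) L).choose_spec.2

theorem cl_of (L : E →L[ℝ] F) (x : E) : (cl L : EC →L[ℂ] FC) (CX.of x) = CX.of (L x) := by
  rw [cl_apply, CX.re_of, CX.im_of, map_zero, of_zero, smul_zero, add_zero]

/-- The real and imaginary parts of the values. -/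
theorem cl_re (L : E →L[ℝ] F) (z : EC) :
    (CX.re ((cl L : EC →L[ℂ] FC) z) : F) = L (CX.re z) ∧
      (CX.im ((cl L : EC →L[ℂ] FC) z) : F) = L (CX.im z) := by
  rw [cl_apply]
  constructor
  · rw [CX.re_add, CX.re_of, CX.re_I, CX.im_of, neg_zero, add_zero]
  · rw [CX.im_add, CX.im_of, CX.im_I, CX.re_of, zero_add]

theorem fd_EC [FiniteDimensional ℝ E] : FiniteDimensional ℂ EC := by
  let b := Module.finBasis ℝ E
  let ofH : E →+ EC := AddMonoidHom.mk' CX.of CX.of_add
  have hof : ∀ x : E, (CX.of x : EC) = ∑ i, ((b.repr x i : ℝ) : ℂ) • CX.of (b i) := by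
    intro x
    have h1 : ofH x = ofH (∑ i, b.repr x i • b i) := by rw [b.sum_repr]
    rw [map_sum] at h1
    refine h1.trans (Finset.sum_congr rfl fun i _ => ?_)
    exact CX.of_smul _ _
  let φ : (Fin (Module.finrank ℝ E) → ℂ) →ₗ[ℂ] EC :=
    Fintype.linearCombination ℂ (fun i => (CX.of (b i) : EC))
  refine Module.Finite.of_surjective φ fun z => ?_
  refine ⟨fun i => ((b.repr (CX.re z) i : ℝ) : ℂ) + Complex.I * ((b.repr (CX.im z) i : ℝ) : ℂ), ?_⟩
  rw [Fintype.linearCombination_apply]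
  have h2 := CX.eta (E := E) z
  rw [hof (CX.re z), hof (CX.im z), Finset.smul_sum, ← Finset.sum_add_distrib] at h2
  refine (Finset.sum_congr rfl fun i _ => ?_).trans h2
  rw [add_smul, smul_smul]

end BE36
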