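import Pool.Agent.LibBE36K.K01

/-! Row BE36 K02 (cites K01): the algebra of `HO` and `HB`. MEDIUM, 50 min.
Plan. `hc_mono`: `A exp (A t)` is monotone in `A ≥ 0` and in `t`, for `t ≥ 0`; `hc_mul`:
`hc A t * hc A' t ≤ hc (A * A' + A + A') t`, etc.: always choose the new constant as a polynomial in the old ones and
the radius `(hc A'' t)⁻¹ ≤ (hc A t)⁻¹` (`inv_anti₀`). `HO_mono`: the same extension. `HB_of`: `hc (max A A')`.
`HB_const`: the constant function `of (c i)`; `HB_id`: the identity (`‖z‖ ≤ ‖x i‖ + 1` on the ball of radius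
`≤ 1`, `norm_of`). `HB_clm`: the extension is `cl L ∘ g`. `HB_add`, `HB_prod`: sum and pair of the extensions on the
smaller ball; `HB_smul`: `g * h` with `g : EC → ℂ`: `CX.of (r • v) = (r : ℂ) • CX.of v` (`of_smul`; for
`E = ℝ`: `CX.of (r : ℝ) = (r : ℂ)` by `rfl`). `HB_scale`: `A e^{A c t} ≤ A' e^{A' t}` with `A' = A * (1 + c)`. -/

open Set Filter Topology

namespace BE36

variable {ι ι' E F G EC FC GC : Type} [NormedAddCommGroup E] [NormedSpace ℝ E]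
  [NormedAddCommGroup F] [NormedSpace ℝ F] [NormedAddCommGroup EC] [NormedSpace ℂ EC]
  [NormedAddCommGroup FC] [NormedSpace ℂ FC] [CX E EC] [CX F FC] [NormedAddCommGroup G]
  [NormedSpace ℝ G] [NormedAddCommGroup GC] [NormedSpace ℂ GC] [CX G GC]
  {ℓ ℓ' : ι → ℝ} {x : ι → E}

theorem hc_pos {A t : ℝ} (hA : 1 ≤ A) : 0 < hc A t := by
  unfold hc
  exact mul_pos (by linarith) (Real.exp_pos _)

theorem hc_one {A t : ℝ} (hA : 1 ≤ A) (ht : 0 ≤ t) : 1 ≤ hc A t := by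
  unfold hc
  exact one_le_mul_of_one_le_of_one_le hA (Real.one_le_exp (mul_nonneg (by linarith) ht))

theorem hc_mono {A A' t : ℝ} (hA : 1 ≤ A) (h : A ≤ A') (ht : 0 ≤ t) : hc A t ≤ hc A' t := by
  unfold hc
  exact mul_le_mul h (Real.exp_le_exp.2 (mul_le_mul_of_nonneg_right h ht)) (Real.exp_pos _).le
    (by linarith)

private theorem K02_mono_t {A t t' : ℝ} (hA : 1 ≤ A) (h : t ≤ t') : hc A t ≤ hc A t' := by
  unfold hc
  exact mul_le_mul_of_nonneg_left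
    (Real.exp_le_exp.2 (mul_le_mul_of_nonneg_left h (by linarith))) (by linarith)

/-- Every polynomial expression in `hc A t` is bounded by `hc A' t`. -/
theorem hc_pow {A c : ℝ} (hA : 1 ≤ A) (hc0 : 0 ≤ c) (n : ℕ) : ∃ A' : ℝ, 1 ≤ A' ∧ A ≤ A' ∧
    ∀ t, 0 ≤ t → c * hc A t ^ n ≤ hc A' t := by
  have hA0 : 0 ≤ A := by linarith
  have h1 : 0 ≤ c * A ^ n := mul_nonneg hc0 (pow_nonneg hA0 n)
  have h2 : 0 ≤ (n : ℝ) * A := mul_nonneg (Nat.cast_nonneg n) hA0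
  refine ⟨A + c * A ^ n + n * A, by linarith, by linarith, fun t ht => ?_⟩
  unfold hc
  have h3 : c * (A * Real.exp (A * t)) ^ n = (c * A ^ n) * Real.exp ((n * A) * t) := by
    rw [mul_pow, ← Real.exp_nat_mul]
    ring_nf
  rw [h3]
  exact mul_le_mul (by linarith) (Real.exp_le_exp.2 (mul_le_mul_of_nonneg_right (by linarith) ht))
    (Real.exp_pos _).le (by linarith)

theorem HO_mono {Ω Ω' : Set EC} {B B' : ℝ} {f : E → F} (h : HO Ω B f) (hΩ : Ω' ⊆ Ω)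
    (hB : B ≤ B') : HO Ω' B' f := by
  obtain ⟨g, h1, h2, h3⟩ := h
  exact ⟨g, h1.mono hΩ, fun z hz => (h2 z (hΩ hz)).trans hB, fun y hy => h3 y (hΩ hy)⟩

theorem HO_congr {Ω : Set EC} {B : ℝ} {f f' : E → F} (h : HO Ω B f)
    (he : ∀ y, (CX.of y : EC) ∈ Ω → f y = f' y) : HO Ω B f' := by
  obtain ⟨g, h1, h2, h3⟩ := h
  exact ⟨g, h1, h2, fun y hy => by rw [h3 y hy, he y hy]⟩

theorem HE_mono {f : E → F} {a : E} {r r' B B' : ℝ} (h : HE f a r B) (hr : r' ≤ r)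
    (hB : B ≤ B') : HE f a r' B' := by
  exact HO_mono h (Metric.ball_subset_ball hr) hB

private theorem K02_up {f : E → F} {a : E} {A A' t : ℝ} (hA : 1 ≤ A) (h : A ≤ A') (ht : 0 ≤ t)
    (hf : HE f a (hc A t)⁻¹ (hc A t)) : HE f a (hc A' t)⁻¹ (hc A' t) :=
  HE_mono hf (inv_anti₀ (hc_pos hA) (hc_mono hA h ht)) (hc_mono hA h ht)

private theorem K02_two (hℓ : ∀ i, 0 ≤ ℓ i) {f : ι → E → F} {g : ι → E → G}
    (hf : HB ℓ f x) (hg : HB ℓ g x) : ∃ A : ℝ, 1 ≤ A ∧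
      (∀ i, HE (f i) (x i) (hc A (ℓ i))⁻¹ (hc A (ℓ i))) ∧
      ∀ i, HE (g i) (x i) (hc A (ℓ i))⁻¹ (hc A (ℓ i)) := by
  obtain ⟨A, hA, h⟩ := hf
  obtain ⟨A', hA', h'⟩ := hg
  exact ⟨max A A', le_max_of_le_left hA, fun i => K02_up hA (le_max_left _ _) (hℓ i) (h i),
    fun i => K02_up hA' (le_max_right _ _) (hℓ i) (h' i)⟩

/-- A family with polynomial radius and bound is of class `HB`. -/
theorem HB_of (hℓ : ∀ i, 0 ≤ ℓ i) {f : ι → E → F} {A c c' : ℝ} (hA : 1 ≤ A) (hc0 : 0 ≤ c)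
    (hc1 : 0 < c') (n : ℕ)
    (h : ∀ i, HE (f i) (x i) (c' / hc A (ℓ i) ^ n) (c * hc A (ℓ i) ^ n)) : HB ℓ f x := by
  obtain ⟨A1, hA1, h1, h2⟩ := hc_pow hA hc0 n
  obtain ⟨A2, hA2, h3, h4⟩ := hc_pow hA (inv_nonneg.2 hc1.le) n
  refine ⟨max A1 A2, le_max_of_le_left hA1, fun i => HE_mono (h i) ?_ ?_⟩
  · have h5 : c'⁻¹ * hc A (ℓ i) ^ n ≤ hc (max A1 A2) (ℓ i) :=
      (h4 _ (hℓ i)).trans (hc_mono hA2 (le_max_right _ _) (hℓ i))
    have h6 : 0 < c'⁻¹ * hc A (ℓ i) ^ n := mul_pos (inv_pos.2 hc1) (pow_pos (hc_pos hA) n)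
    have h7 := inv_anti₀ h6 h5
    rwa [mul_inv, inv_inv, ← div_eq_mul_inv] at h7
  · exact (h2 _ (hℓ i)).trans (hc_mono hA1 (le_max_left _ _) (hℓ i))

theorem HB_mono (hℓ : ∀ i, 0 ≤ ℓ i) (h : ∀ i, ℓ i ≤ ℓ' i) {f : ι → E → F} (hf : HB ℓ f x) :
    HB ℓ' f x := by
  obtain ⟨A, hA, h1⟩ := hf
  exact ⟨A, hA, fun i => HE_mono (h1 i) (inv_anti₀ (hc_pos hA) (K02_mono_t hA (h i)))
    (K02_mono_t hA (h i))⟩

theorem HB_scale (hℓ : ∀ i, 0 ≤ ℓ i) {c : ℝ} (hc : 0 ≤ c) {f : ι → E → F}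
    (hf : HB (fun i => c * ℓ i) f x) : HB ℓ f x := by
  obtain ⟨A, hA, h1⟩ := hf
  have hA0 : 0 ≤ A := by linarith
  have h2 : 0 ≤ A * c := mul_nonneg hA0 hc
  have h3 : ∀ i, BE36.hc A (c * ℓ i) ≤ BE36.hc (A + A * c) (ℓ i) := by
    intro i
    unfold BE36.hc
    refine mul_le_mul (by linarith) (Real.exp_le_exp.2 ?_) (Real.exp_pos _).le (by linarith)
    rw [← mul_assoc]
    exact mul_le_mul_of_nonneg_right (by linarith) (hℓ i)
  exact ⟨A + A * c, by linarith, fun i => HE_mono (h1 i) (inv_anti₀ (hc_pos hA) (h3 i)) (h3 i)⟩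

theorem HB_pull {f : ι → E → F} (hf : HB ℓ f x) (φ : ι' → ι) :
    HB (fun i => ℓ (φ i)) (fun i => f (φ i)) (fun i => x (φ i)) := by
  obtain ⟨A, hA, h1⟩ := hf
  exact ⟨A, hA, fun i => h1 (φ i)⟩

theorem HB_congr {f f' : ι → E → F} (hf : HB ℓ f x) (he : ∀ i y, f i y = f' i y) :
    HB ℓ f' x := by
  obtain ⟨A, hA, h1⟩ := hf
  exact ⟨A, hA, fun i => HO_congr (h1 i) fun y _ => he i y⟩

/-- Equality near the points is enough. -/
theorem HB_congr' (hℓ : ∀ i, 0 ≤ ℓ i) {f f' : ι → E → F} (hf : HB ℓ f x) {A : ℝ} (hA : 1 ≤ A)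
    (he : ∀ i y, ‖y - x i‖ < (hc A (ℓ i))⁻¹ → f i y = f' i y) : HB ℓ f' x := by
  obtain ⟨A1, hA1, h1⟩ := hf
  refine ⟨max A1 A, le_max_of_le_left hA1, fun i => HO_congr
    (K02_up hA1 (le_max_left _ _) (hℓ i) (h1 i)) fun y hy => he i y ?_⟩
  exact (of_mem_ball.1 hy).trans_le (inv_anti₀ (hc_pos hA) (hc_mono hA (le_max_right _ _) (hℓ i)))

theorem HB_val {f : ι → E → F} (hf : HB ℓ f x) :
    ∃ A : ℝ, 1 ≤ A ∧ ∀ i, ‖f i (x i)‖ ≤ hc A (ℓ i) := by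
  obtain ⟨A, hA, h1⟩ := hf
  refine ⟨A, hA, fun i => ?_⟩
  obtain ⟨g, -, h2, h3⟩ := h1 i
  have hm : (CX.of (x i) : EC) ∈ Metric.ball (CX.of (x i)) (hc A (ℓ i))⁻¹ :=
    Metric.mem_ball_self (inv_pos.2 (hc_pos hA))
  have h4 := h2 _ hm
  rw [h3 _ hm, CX.norm_of] at h4
  exact h4

theorem HB_const (hℓ : ∀ i, 0 ≤ ℓ i) {c : ι → F} {A : ℝ} (hA : 1 ≤ A)
    (hc : ∀ i, ‖c i‖ ≤ hc A (ℓ i)) : HB ℓ (fun i (_ : E) => c i) x := by
  refine ⟨A, hA, fun i => ⟨fun _ => CX.of (c i), differentiableOn_const _, fun z _ => ?_,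
    fun y _ => rfl⟩⟩
  rw [CX.norm_of]
  exact hc i

theorem HB_id (hℓ : ∀ i, 0 ≤ ℓ i) {A : ℝ} (hA : 1 ≤ A) (hx : ∀ i, ‖x i‖ ≤ hc A (ℓ i)) :
    HB ℓ (fun _ y => y) x := by
  refine HB_of hℓ hA (c := 2) (c' := 1) (by norm_num) one_pos 1 fun i => ?_
  refine ⟨fun z => z, differentiableOn_id, fun z hz => ?_, fun y _ => rfl⟩
  rw [pow_one] at hz ⊢
  have h1 : 1 ≤ hc A (ℓ i) := hc_one hA (hℓ i)
  have h2 : ‖z - CX.of (x i)‖ < 1 / hc A (ℓ i) := by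
    rw [← dist_eq_norm]
    exact hz
  have h3 : 1 / hc A (ℓ i) ≤ 1 := by
    rw [div_le_one (by linarith)]
    exact h1
  have h4 : ‖(CX.of (x i) : EC)‖ ≤ hc A (ℓ i) := by
    rw [CX.norm_of]
    exact hx i
  have h5 : ‖z‖ ≤ ‖z - CX.of (x i)‖ + ‖(CX.of (x i) : EC)‖ := by
    have := norm_add_le (z - CX.of (x i)) (CX.of (x i) : EC)
    rwa [sub_add_cancel] at this
  linarith

theorem HB_clm (hℓ : ∀ i, 0 ≤ ℓ i) {f : ι → E → F} (hf : HB ℓ f x) (L : F →L[ℝ] G) :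
    HB ℓ (fun i y => L (f i y)) x := by
  obtain ⟨A, hA, h1⟩ := hf
  refine HB_of hℓ hA (c := 2 * ‖L‖) (c' := 1) (by positivity) one_pos 1 fun i => ?_
  obtain ⟨g, h2, h3, h4⟩ := h1 i
  rw [pow_one, one_div]
  refine ⟨fun z => (cl L : FC →L[ℂ] GC) (g z), ?_, fun z hz => ?_, fun y hy => ?_⟩
  · exact (cl L : FC →L[ℂ] GC).differentiable.comp_differentiableOn h2
  · refine ((cl L : FC →L[ℂ] GC).le_opNorm (g z)).trans ?_
    exact mul_le_mul (cl_norm L) (h3 z hz) (norm_nonneg _) (by positivity)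
  · show (cl L : FC →L[ℂ] GC) (g (CX.of y)) = _
    rw [h4 y hy, cl_of]

theorem HB_add (hℓ : ∀ i, 0 ≤ ℓ i) {f g : ι → E → F} (hf : HB ℓ f x) (hg : HB ℓ g x) :
    HB ℓ (fun i y => f i y + g i y) x := by
  obtain ⟨A, hA, h1, h2⟩ := K02_two hℓ hf hg
  refine HB_of hℓ hA (c := 2) (c' := 1) (by norm_num) one_pos 1 fun i => ?_
  obtain ⟨u, a1, a2, a3⟩ := h1 i
  obtain ⟨v, b1, b2, b3⟩ := h2 i
  rw [pow_one, one_div]
  refine ⟨fun z => u z + v z, a1.add b1, fun z hz => ?_, fun y hy => ?_⟩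
  · have h3 := norm_add_le (u z) (v z)
    have h4 := a2 z hz
    have h5 := b2 z hz
    linarith
  · show u (CX.of y) + v (CX.of y) = _
    rw [a3 y hy, b3 y hy, CX.of_add]

theorem HB_neg (hℓ : ∀ i, 0 ≤ ℓ i) {f : ι → E → F} (hf : HB ℓ f x) :
    HB ℓ (fun i y => -f i y) x := by
  obtain ⟨A, hA, h1⟩ := hf
  refine ⟨A, hA, fun i => ?_⟩
  obtain ⟨u, a1, a2, a3⟩ := h1 i
  refine ⟨fun z => -u z, a1.neg, fun z hz => ?_, fun y hy => ?_⟩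
  · rw [norm_neg]
    exact a2 z hz
  · show -u (CX.of y) = _
    rw [a3 y hy, of_neg]

theorem HB_sub (hℓ : ∀ i, 0 ≤ ℓ i) {f g : ι → E → F} (hf : HB ℓ f x) (hg : HB ℓ g x) :
    HB ℓ (fun i y => f i y - g i y) x := by
  refine HB_congr (HB_add hℓ hf (HB_neg hℓ hg)) fun i y => ?_
  exact (sub_eq_add_neg _ _).symm

theorem HB_prod (hℓ : ∀ i, 0 ≤ ℓ i) {f : ι → E → F} {g : ι → E → G} (hf : HB ℓ f x)
    (hg : HB ℓ g x) : HB ℓ (fun i y => (f i y, g i y)) x := by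
  obtain ⟨A, hA, h1, h2⟩ := K02_two hℓ hf hg
  refine ⟨A, hA, fun i => ?_⟩
  obtain ⟨u, a1, a2, a3⟩ := h1 i
  obtain ⟨v, b1, b2, b3⟩ := h2 i
  refine ⟨fun z => (u z, v z), a1.prodMk b1, fun z hz => ?_, fun y hy => ?_⟩
  · rw [Prod.norm_def]
    exact max_le (a2 z hz) (b2 z hz)
  · show (u (CX.of y), v (CX.of y)) = _
    rw [a3 y hy, b3 y hy]
    rfl

theorem HB_smul (hℓ : ∀ i, 0 ≤ ℓ i) {f : ι → E → ℝ} {g : ι → E → F} (hf : HB ℓ f x)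
    (hg : HB ℓ g x) : HB ℓ (fun i y => f i y • g i y) x := by
  obtain ⟨A, hA, h1, h2⟩ := K02_two hℓ hf hg
  refine HB_of hℓ hA (c := 1) (c' := 1) zero_le_one one_pos 2 fun i => ?_
  have h3 : 1 ≤ hc A (ℓ i) := hc_one hA (hℓ i)
  have h4 : 1 / hc A (ℓ i) ^ 2 ≤ (hc A (ℓ i))⁻¹ := by
    rw [one_div]
    exact inv_anti₀ (by linarith) (by nlinarith)
  obtain ⟨u, a1, a2, a3⟩ := h1 i
  obtain ⟨v, b1, b2, b3⟩ := h2 i
  have hs : Metric.ball (CX.of (x i) : EC) (1 / hc A (ℓ i) ^ 2) ⊆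
      Metric.ball (CX.of (x i) : EC) (hc A (ℓ i))⁻¹ := Metric.ball_subset_ball h4
  refine ⟨fun z => u z • v z, (a1.smul b1).mono hs, fun z hz => ?_, fun y hy => ?_⟩
  · rw [norm_smul, one_mul, pow_two]
    exact mul_le_mul (a2 z (hs hz)) (b2 z (hs hz)) (norm_nonneg _) (by linarith)
  · show u (CX.of y) • v (CX.of y) = _
    rw [a3 y (hs hy), b3 y (hs hy), CX.of_smul]
    rfl

theorem HB_mul (hℓ : ∀ i, 0 ≤ ℓ i) {f g : ι → E → ℝ} (hf : HB ℓ f x)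
    (hg : HB ℓ g x) : HB ℓ (fun i y => f i y * g i y) x := by
  exact HB_congr (HB_smul hℓ hf hg) fun i y => smul_eq_mul _ _

theorem HB_pow (hℓ : ∀ i, 0 ≤ ℓ i) {f : ι → E → ℝ} (hf : HB ℓ f x) (n : ℕ) :
    HB ℓ (fun i y => f i y ^ n) x := by
  induction n with
  | zero =>
    refine HB_congr (HB_const hℓ (c := fun _ => (1 : ℝ)) le_rfl fun i => ?_) fun i y => ?_
    · rw [norm_one]
      exact hc_one le_rfl (hℓ i)
    · exact (pow_zero _).symm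
  | succ n ih => exact HB_congr (HB_mul hℓ ih hf) fun i y => (pow_succ _ _).symm

theorem HB_sum (hℓ : ∀ i, 0 ≤ ℓ i) {κ : Type} (s : Finset κ) {f : κ → ι → E → F}
    (hf : ∀ a ∈ s, HB ℓ (f a) x) : HB ℓ (fun i y => ∑ a ∈ s, f a i y) x := by
  classical
  induction s using Finset.induction_on with
  | empty =>
    refine HB_congr (HB_const hℓ (c := fun _ => (0 : F)) le_rfl fun i => ?_) fun i y => ?_
    · rw [norm_zero]
      exact (hc_pos le_rfl).le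
    · show (0 : F) = ∑ a ∈ (∅ : Finset κ), f a i y
      rw [Finset.sum_empty]
  | insert b s hb ih =>
    refine HB_congr (HB_add hℓ (hf b (Finset.mem_insert_self _ _))
      (ih fun a ha => hf a (Finset.mem_insert_of_mem ha))) fun i y => ?_
    show f b i y + ∑ a ∈ s, f a i y = ∑ a ∈ insert b s, f a i y
    rw [Finset.sum_insert hb]

/-- Finitely many families. -/
theorem HB_finite {κ : Type} [Finite κ] (hℓ : ∀ i, 0 ≤ ℓ i) {f : κ → ι → E → F}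
    {a : κ → ι → E} (hf : ∀ k, HB ℓ (f k) (a k)) :
    HB (fun q : κ × ι => ℓ q.2) (fun q => f q.1 q.2) (fun q => a q.1 q.2) := by
  choose A hA h using hf
  obtain ⟨M, hM⟩ := (Set.finite_range A).bddAbove
  refine ⟨max 1 M, le_max_left _ _, fun q => ?_⟩
  exact K02_up (hA q.1) ((hM (Set.mem_range_self q.1)).trans (le_max_right _ _)) (hℓ q.2) (h q.1 q.2)

end BE36
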