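import Pool.Agent.LibBE36K.K07

/-! Row BE36 K08 (cites K07; only Mathlib otherwise): integrals of holomorphic maps with a real parameter. MEDIUM,
50 min.
Plan (Riemann sums). Let `z0 ∈ U`; `X` is finite dimensional, so there is a closed ball `K ⊆ U` around `z0`, compact, and `H` is
uniformly continuous and bounded on `K × uIcc a b`. So the Riemann sums
`S n z = ∑ k < n, ((b - a) / n) • H z (a + k (b - a) / n)` converge to `∫ t in a..b, H z t` uniformly for `z ∈ K`
(`|H z t - H z t_k| ≤ ε` on the `k`-th interval; `intervalIntegral.sum_integral_adjacent_intervals`,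
`intervalIntegral.norm_integral_le_of_norm_le_const`); each `S n` is holomorphic on the interior of `K`; `holo_lim`. So
the integral is differentiable at `z0`. `holo_int_cont`: joint continuity of the primitive on `U × [a, b]`:
locally uniform bound of `H` and `continuousWithinAt` under the integral. -/

open MeasureTheory Set Filter Topology

namespace BE36

variable {X Y : Type} [NormedAddCommGroup X] [NormedSpace ℂ X] [FiniteDimensional ℂ X]
  [NormedAddCommGroup Y] [NormedSpace ℂ Y] [CompleteSpace Y]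

/-- Riemann sums on the unit interval. -/
theorem K08_riemann {f : ℝ → Y} (hf : ContinuousOn f (Icc 0 1)) {ε : ℝ} (n : ℕ)
    (hε : ∀ s ∈ Icc (0 : ℝ) 1, ∀ t ∈ Icc (0 : ℝ) 1, |s - t| ≤ 1 / ((n : ℝ) + 1) →
      ‖f s - f t‖ ≤ ε) :
    ‖(∫ t in (0 : ℝ)..1, f t) - ∑ k ∈ Finset.range (n + 1),
      ((1 : ℝ) / ((n : ℝ) + 1)) • f ((k : ℝ) / ((n : ℝ) + 1))‖ ≤ ε := by
  have hn : (0 : ℝ) < (n : ℝ) + 1 := by positivity
  have hmem : ∀ k : ℕ, k ≤ n + 1 → (k : ℝ) / ((n : ℝ) + 1) ∈ Icc (0 : ℝ) 1 := by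
    intro k hk
    refine ⟨by positivity, ?_⟩
    rw [div_le_one hn]
    exact_mod_cast hk
  have hstep : ∀ k : ℕ, (k : ℝ) / ((n : ℝ) + 1) ≤ ((k + 1 : ℕ) : ℝ) / ((n : ℝ) + 1) := by
    intro k
    apply div_le_div_of_nonneg_right _ hn.le
    push_cast
    linarith
  have hint : ∀ k < n + 1, IntervalIntegrable f volume ((k : ℝ) / ((n : ℝ) + 1))
      (((k + 1 : ℕ) : ℝ) / ((n : ℝ) + 1)) := by
    intro k hk
    apply ContinuousOn.intervalIntegrable
    apply hf.mono
    rw [uIcc_of_le (hstep k)]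
    exact Icc_subset_Icc (hmem k (by omega)).1 (hmem (k + 1) (by omega)).2
  have hsum := intervalIntegral.sum_integral_adjacent_intervals (f := f) (μ := volume)
    (a := fun k : ℕ => (k : ℝ) / ((n : ℝ) + 1)) (n := n + 1) hint
  have h0 : ((0 : ℕ) : ℝ) / ((n : ℝ) + 1) = 0 := by simp
  have h1 : ((n + 1 : ℕ) : ℝ) / ((n : ℝ) + 1) = 1 := by
    push_cast
    exact div_self hn.ne'
  simp only [h0, h1] at hsum
  rw [← hsum, ← Finset.sum_sub_distrib]
  have hone : ∀ k ∈ Finset.range (n + 1),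
      ‖(∫ x in (k : ℝ) / ((n : ℝ) + 1)..((k + 1 : ℕ) : ℝ) / ((n : ℝ) + 1), f x)
        - ((1 : ℝ) / ((n : ℝ) + 1)) • f ((k : ℝ) / ((n : ℝ) + 1))‖ ≤ ε * (1 / ((n : ℝ) + 1)) := by
    intro k hk
    have hk' : k < n + 1 := Finset.mem_range.1 hk
    have hlen : ((k + 1 : ℕ) : ℝ) / ((n : ℝ) + 1) - (k : ℝ) / ((n : ℝ) + 1)
        = 1 / ((n : ℝ) + 1) := by
      push_cast
      ring
    have e1 : ((1 : ℝ) / ((n : ℝ) + 1)) • f ((k : ℝ) / ((n : ℝ) + 1))
        = ∫ _x in (k : ℝ) / ((n : ℝ) + 1)..((k + 1 : ℕ) : ℝ) / ((n : ℝ) + 1),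
          f ((k : ℝ) / ((n : ℝ) + 1)) := by
      rw [intervalIntegral.integral_const, hlen]
    rw [e1, ← intervalIntegral.integral_sub (hint k hk') intervalIntegrable_const]
    have h2 := intervalIntegral.norm_integral_le_of_norm_le_const
      (a := (k : ℝ) / ((n : ℝ) + 1)) (b := ((k + 1 : ℕ) : ℝ) / ((n : ℝ) + 1)) (C := ε)
      (f := fun x => f x - f ((k : ℝ) / ((n : ℝ) + 1))) (by
        intro x hx
        rw [uIoc_of_le (hstep k)] at hx
        apply hε x ⟨(hmem k (by omega)).1.trans hx.1.le, hx.2.trans (hmem (k + 1) (by omega)).2⟩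
          _ (hmem k (by omega))
        rw [abs_of_nonneg (by linarith [hx.1]), ← hlen]
        linarith [hx.2])
    rw [hlen, abs_of_nonneg (by positivity)] at h2
    exact h2
  refine (norm_sum_le_of_le _ hone).trans ?_
  rw [Finset.sum_const, Finset.card_range, nsmul_eq_mul]
  push_cast
  apply le_of_eq
  field_simp

theorem K08_unit {U : Set X} (hU : IsOpen U) {F : X → ℝ → Y}
    (hF : ContinuousOn (fun p : X × ℝ => F p.1 p.2) (U ×ˢ Icc 0 1))
    (hd : ∀ t ∈ Icc (0 : ℝ) 1, DifferentiableOn ℂ (fun z => F z t) U) :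
    DifferentiableOn ℂ (fun z => ∫ t in (0 : ℝ)..1, F z t) U := by
  intro z0 hz0
  obtain ⟨ρ, hρ, hball⟩ := Metric.isOpen_iff.1 hU z0 hz0
  have : ProperSpace X := FiniteDimensional.proper ℂ X
  have hK : IsCompact (Metric.closedBall z0 (ρ / 2)) := isCompact_closedBall _ _
  have hKU : Metric.closedBall z0 (ρ / 2) ⊆ U :=
    (Metric.closedBall_subset_ball (by linarith)).trans hball
  have huc := (hK.prod (isCompact_Icc (a := (0 : ℝ)) (b := 1))).uniformContinuousOn_of_continuous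
    (hF.mono (Set.prod_mono_left hKU))
  have hlim : TendstoUniformlyOn (fun (n : ℕ) z => ∑ k ∈ Finset.range (n + 1),
      ((1 : ℝ) / ((n : ℝ) + 1)) • F z ((k : ℝ) / ((n : ℝ) + 1)))
      (fun z => ∫ t in (0 : ℝ)..1, F z t) atTop (Metric.ball z0 (ρ / 2)) := by
    rw [Metric.tendstoUniformlyOn_iff]
    intro ε hε
    obtain ⟨δ, hδ, hδ'⟩ := Metric.uniformContinuousOn_iff.1 huc (ε / 2) (by linarith)
    obtain ⟨N, hN⟩ := exists_nat_one_div_lt hδ
    filter_upwards [eventually_ge_atTop N] with n hn z hz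
    have hzK : z ∈ Metric.closedBall z0 (ρ / 2) := Metric.ball_subset_closedBall hz
    have hnN : (1 : ℝ) / ((n : ℝ) + 1) < δ := by
      refine lt_of_le_of_lt ?_ hN
      apply one_div_le_one_div_of_le (by positivity)
      have : (N : ℝ) ≤ n := by exact_mod_cast hn
      linarith
    have hcf : ContinuousOn (F z) (Icc 0 1) := by
      have h2 : ContinuousOn (fun s : ℝ => (z, s)) (Icc 0 1) := by fun_prop
      exact hF.comp h2 (fun s hs => ⟨hKU hzK, hs⟩)
    have h3 := K08_riemann hcf (ε := ε / 2) n (by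
      intro s hs t ht hst
      have h4 := hδ' (z, s) ⟨hzK, hs⟩ (z, t) ⟨hzK, ht⟩ (by
        rw [Prod.dist_eq, dist_self, Real.dist_eq]
        exact max_lt hδ (lt_of_le_of_lt hst hnN))
      rw [dist_eq_norm] at h4
      exact h4.le)
    rw [dist_eq_norm]
    linarith
  have hS : ∀ n : ℕ, DifferentiableOn ℂ (fun z => ∑ k ∈ Finset.range (n + 1),
      ((1 : ℝ) / ((n : ℝ) + 1)) • F z ((k : ℝ) / ((n : ℝ) + 1))) (Metric.ball z0 (ρ / 2)) := by
    intro n
    apply DifferentiableOn.fun_sum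
    intro k hk
    have hk' : k < n + 1 := Finset.mem_range.1 hk
    have hmem : (k : ℝ) / ((n : ℝ) + 1) ∈ Icc (0 : ℝ) 1 := by
      refine ⟨by positivity, ?_⟩
      rw [div_le_one (by positivity)]
      exact_mod_cast hk'.le
    have h5 := (hd _ hmem).mono (Metric.ball_subset_closedBall.trans hKU)
    exact h5.const_smul ((1 : ℝ) / ((n : ℝ) + 1))
  have h6 := holo_lim Metric.isOpen_ball hS hlim
  exact ((h6 z0 (Metric.mem_ball_self (by linarith))).differentiableAt
    (Metric.ball_mem_nhds z0 (by linarith))).differentiableWithinAt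

theorem holo_int {U : Set X} (hU : IsOpen U) {a b : ℝ} {H : X → ℝ → Y}
    (hH : ContinuousOn (fun p : X × ℝ => H p.1 p.2) (U ×ˢ uIcc a b))
    (hd : ∀ t ∈ uIcc a b, DifferentiableOn ℂ (fun z => H z t) U) :
    DifferentiableOn ℂ (fun z => ∫ t in a..b, H z t) U := by
  have hseg : ∀ s ∈ Icc (0 : ℝ) 1, (b - a) * s + a ∈ uIcc a b := by
    intro s hs
    rcases le_total a b with h | h
    · rw [uIcc_of_le h]
      constructor <;> nlinarith [hs.1, hs.2]
    · rw [uIcc_of_ge h]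
      constructor <;> nlinarith [hs.1, hs.2]
  have h1 := K08_unit hU (F := fun z s => H z ((b - a) * s + a)) (by
      have h2 : ContinuousOn (fun p : X × ℝ => (p.1, (b - a) * p.2 + a)) (U ×ˢ Icc 0 1) := by
        fun_prop
      exact hH.comp h2 (fun p hp => ⟨hp.1, hseg p.2 hp.2⟩))
    (fun s hs => hd _ (hseg s hs))
  have h3 := h1.const_smul (b - a)
  have h4 : (fun z => ∫ t in a..b, H z t)
      = (b - a) • (fun z => ∫ t in (0 : ℝ)..1, H z ((b - a) * t + a)) := by
    funext z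
    show _ = (b - a) • ∫ t in (0 : ℝ)..1, H z ((b - a) * t + a)
    rw [intervalIntegral.smul_integral_comp_mul_add]
    congr 1 <;> ring
  rw [h4]
  exact h3

theorem holo_int_cont {U : Set X} (hU : IsOpen U) {b : ℝ} (hb : 0 ≤ b) {H : X → ℝ → Y}
    (hH : ContinuousOn (fun p : X × ℝ => H p.1 p.2) (U ×ˢ Icc 0 b)) :
    ContinuousOn (fun p : X × ℝ => ∫ t in (0 : ℝ)..p.2, H p.1 t) (U ×ˢ Icc 0 b) := by
  have h1 : Continuous (Function.uncurry
      (fun (z : U) (t : ℝ) => H z.1 (projIcc 0 b hb t).1)) := by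
    have h2 : Continuous (fun q : U × ℝ => (⟨(q.1.1, (projIcc 0 b hb q.2).1),
        ⟨q.1.2, (projIcc 0 b hb q.2).2⟩⟩ : (U ×ˢ Icc 0 b : Set (X × ℝ)))) := by
      apply Continuous.subtype_mk
      have h3 : Continuous (projIcc 0 b hb) := continuous_projIcc
      fun_prop
    exact (continuousOn_iff_continuous_domRestrict.1 hH).comp h2
  have h2 := intervalIntegral.continuous_parametric_primitive_of_continuous (μ := volume)
    (a₀ := 0) h1
  rw [continuousOn_iff_continuous_domRestrict]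
  have h3 : Continuous (fun p : (U ×ˢ Icc 0 b : Set (X × ℝ)) =>
      ((⟨p.1.1, p.2.1⟩ : U), p.1.2)) := by fun_prop
  have h4 := h2.comp h3
  convert h4 using 1
  funext p
  show ∫ t in (0 : ℝ)..p.1.2, H p.1.1 t
    = ∫ t in (0 : ℝ)..p.1.2, H p.1.1 (projIcc 0 b hb t).1
  apply intervalIntegral.integral_congr
  intro t ht
  rw [uIcc_of_le p.2.2.1] at ht
  show H p.1.1 t = H p.1.1 (projIcc 0 b hb t).1
  rw [projIcc_of_mem hb ⟨ht.1, ht.2.trans p.2.2.2⟩]

end BE36
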