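import Pool.Agent.LibBE36K.K03

/-! Row BE36 K10 (cites K03, K07): the quantitative implicit function. MEDIUM / STRONG, 60 min.
Plan. Norm of `EC × X`: maximum, so `ball e0 r ×ˢ ball v0 r` is the ball of radius `r` around `p0 = (e0, v0)`. `ho_fd`:
`‖DΦ p‖ ≤ 2 B / r` on the ball of radius `r / 2`; `p ↦ DΦ p w` is holomorphic (`ho_hol`) and bounded by `2 B / r ‖w‖` there,
so `‖DΦ p w - DΦ p0 w‖ ≤ 8 B / r ^ 2 * ‖p - p0‖ * ‖w‖` for `‖p - p0‖ < r / 4` (`ho_lip`). Put
`s = r ^ 2 / (16 K B)`, `s' = r ^ 3 / (128 K ^ 2 B ^ 2)` (`s' ≤ s ≤ r / 16`) and `N e v = v - L (Φ (e, v))`. For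
`‖e - e0‖ < s'`, `v ∈ closedBall v0 s`: the derivative of `N e` is `w ↦ L (DΦ p0 (0, w) - DΦ p (0, w))`, of norm `≤ 1/2`, so
`N e` is a contraction with constant `1/2` on `closedBall v0 s` (`Convex.norm_image_sub_le_of_norm_hasFDerivWithin_le`),
`‖N e v0 - v0‖ ≤ K * (2 B / r) * ‖e - e0‖ ≤ s / 4` and `N e` maps `closedBall v0 s` into itself. Iterates:
`W 0 e = v0`, `W (n+1) e = N e (W n e)`: holomorphic on `ball e0 s'` with values in `closedBall v0 s` (induction),
`‖W (n+1) e - W n e‖ ≤ (s / 4) / 2 ^ n`; uniform limit `w` (`cauchySeq_tendsto_of_complete`,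
`holo_lim`), `‖w e - v0‖ ≤ s / 2`, `N e (w e) = w e`; `L` is injective (`hL'`: `L` has a left inverse
`v ↦ DΦ p0 (0, v)`), so `Φ (e, w e) = 0`. Uniqueness: two zeros in the ball are two fixed points of the contraction. -/

open Set Filter Topology

namespace BE36

variable {EC X : Type} [NormedAddCommGroup EC] [NormedSpace ℂ EC] [NormedAddCommGroup X]
  [NormedSpace ℂ X] [CompleteSpace X]

/-- The Newton iterates. -/
noncomputable def K10_it (Φ : EC × X → X) (L : X →L[ℂ] X) (v0 : X) : ℕ → EC → X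
  | 0, _ => v0
  | n + 1, e => K10_it Φ L v0 n e - L (Φ (e, K10_it Φ L v0 n e))

theorem newton {K B r : ℝ} (hK : 1 ≤ K) (hB : 1 ≤ B) (hr : 0 < r) (hr1 : r ≤ 1)
    {Φ : EC × X → X} {e0 : EC} {v0 : X}
    (hΦ : DifferentiableOn ℂ Φ (Metric.ball e0 r ×ˢ Metric.ball v0 r))
    (hb : ∀ p ∈ Metric.ball e0 r ×ˢ Metric.ball v0 r, ‖Φ p‖ ≤ B) (h0 : Φ (e0, v0) = 0)
    {L : X →L[ℂ] X} (hL : ∀ v, L (fderiv ℂ Φ (e0, v0) (0, v)) = v)
    (hL' : ∀ v, fderiv ℂ Φ (e0, v0) (0, L v) = v) (hLK : ‖L‖ ≤ K) :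
    ∃ w : EC → X, DifferentiableOn ℂ w (Metric.ball e0 (r ^ 3 / (128 * K ^ 2 * B ^ 2))) ∧
      w e0 = v0 ∧
      (∀ e ∈ Metric.ball e0 (r ^ 3 / (128 * K ^ 2 * B ^ 2)),
        ‖w e - v0‖ ≤ r ^ 2 / (32 * K * B) ∧ Φ (e, w e) = 0) ∧
      ∀ e ∈ Metric.ball e0 (r ^ 3 / (128 * K ^ 2 * B ^ 2)),
        ∀ v ∈ Metric.closedBall v0 (r ^ 2 / (16 * K * B)), Φ (e, v) = 0 → v = w e := by
  have hK0 : 0 < K := by linarith
  have hB0 : 0 < B := by linarith
  rw [ball_prod_same] at hΦ hb
  obtain ⟨s, hs⟩ : ∃ s : ℝ, s = r ^ 2 / (16 * K * B) := ⟨_, rfl⟩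
  obtain ⟨s', hs'⟩ : ∃ s' : ℝ, s' = r ^ 3 / (128 * K ^ 2 * B ^ 2) := ⟨_, rfl⟩
  have hs32 : r ^ 2 / (32 * K * B) = s / 2 := by rw [hs]; field_simp; norm_num
  rw [← hs, ← hs', hs32]
  have hs0 : 0 < s := by rw [hs]; positivity
  have hs'0 : 0 < s' := by rw [hs']; positivity
  have hKB : 1 ≤ K * B := one_le_mul_of_one_le_of_one_le hK hB
  have hsr : s ≤ r / 16 := by
    rw [hs, div_le_div_iff₀ (by positivity) (by norm_num)]
    nlinarith [mul_nonneg (mul_nonneg hr.le (by linarith : (0:ℝ) ≤ 1 - r)) (by norm_num : (0:ℝ) ≤ 16),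
      mul_nonneg hr.le (by linarith : (0:ℝ) ≤ K * B - 1)]
  have hs's : s' = s * (r / (8 * K * B)) := by rw [hs, hs']; field_simp; norm_num
  have hs'1 : s' ≤ s := by
    rw [hs's]
    apply mul_le_of_le_one_right hs0.le
    rw [div_le_one (by positivity)]
    nlinarith
  obtain ⟨D, hD⟩ : ∃ D : EC × X → (EC × X →L[ℂ] X), D = fun p => fderiv ℂ Φ p := ⟨_, rfl⟩
  have hDapp : ∀ p, D p = fderiv ℂ Φ p := fun p => by rw [hD]
  have hD1 : ∀ p ∈ Metric.ball (e0, v0) (r / 2), ‖D p‖ ≤ B / (r / 2) := by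
    intro p hp
    have hsub : Metric.ball p (r / 2) ⊆ Metric.ball (e0, v0) r := by
      apply Metric.ball_subset_ball'
      rw [Metric.mem_ball] at hp
      linarith
    rw [hDapp]
    exact ho_fd (by linarith) (hΦ.mono hsub) (fun w hw => hb w (hsub hw))
  have hD2 : ∀ p ∈ Metric.ball (e0, v0) (r / 4), ∀ w : EC × X,
      ‖D p w - D (e0, v0) w‖ ≤ 8 * B / r ^ 2 * ‖w‖ * ‖p - (e0, v0)‖ := by
    intro p hp w
    have h1 : DifferentiableOn ℂ (fun z => fderiv ℂ Φ z w) (Metric.ball (e0, v0) r) :=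
      ho_hol Metric.isOpen_ball hΦ w
    have h2 := ho_lip (g := fun z => fderiv ℂ Φ z w) (z := (e0, v0)) (ρ := r / 2)
      (B := B / (r / 2) * ‖w‖) (by linarith)
      (h1.mono (Metric.ball_subset_ball (by linarith)))
      (fun q hq => by
        have := hD1 q hq
        rw [hDapp] at this
        exact (ContinuousLinearMap.le_opNorm _ _).trans
          (mul_le_mul_of_nonneg_right this (norm_nonneg _)))
      (w := p) (w' := (e0, v0)) (by
        have : r / 2 / 2 = r / 4 := by ring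
        rw [this]; exact hp) (Metric.mem_ball_self (by linarith))
    rw [hDapp, hDapp]
    refine h2.trans (le_of_eq ?_)
    field_simp
    ring
  -- points
  have hmem : ∀ e ∈ Metric.ball e0 s', ∀ v ∈ Metric.closedBall v0 s,
      (e, v) ∈ Metric.ball (e0, v0) (r / 4) ∧ ‖(e, v) - (e0, v0)‖ ≤ s := by
    intro e he v hv
    have h1 : ‖(e, v) - (e0, v0)‖ ≤ s := by
      rw [Prod.mk_sub_mk, Prod.norm_mk]
      rw [Metric.mem_ball, dist_eq_norm] at he
      rw [Metric.mem_closedBall, dist_eq_norm] at hv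
      exact max_le (by linarith) hv
    refine ⟨?_, h1⟩
    rw [Metric.mem_ball, dist_eq_norm]
    linarith
  have hdiffΦ : ∀ p ∈ Metric.ball (e0, v0) (r / 4), HasFDerivAt Φ (D p) p := by
    intro p hp
    rw [hDapp]
    refine (hΦ.differentiableAt ?_).hasFDerivAt
    exact Metric.isOpen_ball.mem_nhds (Metric.ball_subset_ball (by linarith) hp)
  -- contraction
  have hcontr : ∀ e ∈ Metric.ball e0 s', ∀ v ∈ Metric.closedBall v0 s,
      ∀ v' ∈ Metric.closedBall v0 s,
      ‖(v - L (Φ (e, v))) - (v' - L (Φ (e, v')))‖ ≤ 1 / 2 * ‖v - v'‖ := by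
    intro e he v hv v' hv'
    let N : X → X := fun v => v - L (Φ (e, v))
    let N' : X → X →L[ℂ] X := fun v =>
      ContinuousLinearMap.id ℂ X - L.comp ((D (e, v)).comp (ContinuousLinearMap.inr ℂ EC X))
    have hN : ∀ u ∈ Metric.closedBall v0 s,
        HasFDerivWithinAt N (N' u) (Metric.closedBall v0 s) u := by
      intro u hu
      have hp := (hmem e he u hu).1
      have h1 : HasFDerivAt (fun u : X => (e, u)) (ContinuousLinearMap.inr ℂ EC X) u :=
        hasFDerivAt_prodMk_right e u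
      have h2 : HasFDerivAt (fun u : X => Φ (e, u))
          ((D (e, u)).comp (ContinuousLinearMap.inr ℂ EC X)) u :=
        (hdiffΦ (e, u) hp).comp u h1
      have h3 := (hasFDerivAt_id (𝕜 := ℂ) u).sub (L.hasFDerivAt.comp u h2)
      exact h3.hasFDerivWithinAt
    have hNb : ∀ u ∈ Metric.closedBall v0 s, ‖N' u‖ ≤ 1 / 2 := by
      intro u hu
      obtain ⟨hp, hpn⟩ := hmem e he u hu
      refine ContinuousLinearMap.opNorm_le_bound _ (by norm_num) (fun w => ?_)
      have h1 : N' u w = L (D (e0, v0) (0, w) - D (e, u) (0, w)) := by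
        have := hL w
        rw [map_sub, hDapp (e0, v0), this]
        simp [N']
      rw [h1]
      have h2 := hD2 (e, u) hp (0, w)
      have h3 : ‖((0, w) : EC × X)‖ = ‖w‖ := by
        rw [Prod.norm_mk, norm_zero]
        exact max_eq_right (norm_nonneg _)
      rw [h3, norm_sub_rev] at h2
      calc ‖L (D (e0, v0) (0, w) - D (e, u) (0, w))‖
          ≤ ‖L‖ * ‖D (e0, v0) (0, w) - D (e, u) (0, w)‖ := L.le_opNorm _
        _ ≤ K * (8 * B / r ^ 2 * ‖w‖ * s) := by
            apply mul_le_mul hLK _ (norm_nonneg _) hK0.le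
            refine h2.trans ?_
            exact mul_le_mul_of_nonneg_left hpn (by positivity)
        _ = 1 / 2 * ‖w‖ := by
            rw [hs]; field_simp; ring
    have := Convex.norm_image_sub_le_of_norm_hasFDerivWithin_le (𝕜 := ℂ) hN hNb
      (convex_closedBall v0 s) hv' hv
    exact this
  have hfirst : ∀ e ∈ Metric.ball e0 s', ‖L (Φ (e, v0))‖ ≤ s / 4 := by
    intro e he
    have h1 := ho_lip (g := Φ) (z := (e0, v0)) (ρ := r) (B := B) hr hΦ hb
      (w := (e, v0)) (w' := (e0, v0)) (by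
        have := (hmem e he v0 (Metric.mem_closedBall_self hs0.le)).1
        exact Metric.ball_subset_ball (by linarith) this) (Metric.mem_ball_self (by linarith))
    rw [h0, sub_zero] at h1
    have h2 : ‖(e, v0) - (e0, v0)‖ ≤ s' := by
      rw [Prod.mk_sub_mk, Prod.norm_mk, sub_self, norm_zero]
      rw [Metric.mem_ball, dist_eq_norm] at he
      exact max_le he.le hs'0.le
    calc ‖L (Φ (e, v0))‖ ≤ ‖L‖ * ‖Φ (e, v0)‖ := L.le_opNorm _
      _ ≤ K * (2 * B / r * s') := by
          apply mul_le_mul hLK _ (norm_nonneg _) hK0.le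
          exact h1.trans (mul_le_mul_of_nonneg_left h2 (by positivity))
      _ = s / 4 := by rw [hs, hs']; field_simp; norm_num
  -- iterates
  have hv0 : v0 ∈ Metric.closedBall v0 s := Metric.mem_closedBall_self hs0.le
  have hself : ∀ e ∈ Metric.ball e0 s', ∀ v ∈ Metric.closedBall v0 s,
      v - L (Φ (e, v)) ∈ Metric.closedBall v0 s := by
    intro e he v hv
    have h1 := hcontr e he v hv v0 hv0
    have h2 := hfirst e he
    rw [Metric.mem_closedBall, dist_eq_norm] at hv ⊢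
    have h3 : v - L (Φ (e, v)) - v0
        = ((v - L (Φ (e, v))) - (v0 - L (Φ (e, v0)))) - L (Φ (e, v0)) := by abel
    rw [h3]
    refine (norm_sub_le _ _).trans ?_
    linarith
  have hW : ∀ n, ∀ e ∈ Metric.ball e0 s', K10_it Φ L v0 n e ∈ Metric.closedBall v0 s := by
    intro n
    induction n with
    | zero => intro e _; exact hv0
    | succ n ih => intro e he; exact hself e he _ (ih e he)
  have hWd : ∀ n, DifferentiableOn ℂ (K10_it Φ L v0 n) (Metric.ball e0 s') := by
    intro n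
    induction n with
    | zero => exact differentiableOn_const v0
    | succ n ih =>
      have h1 : DifferentiableOn ℂ (fun e => (e, K10_it Φ L v0 n e)) (Metric.ball e0 s') :=
        differentiableOn_id.prodMk ih
      have h2 : DifferentiableOn ℂ (fun e => Φ (e, K10_it Φ L v0 n e)) (Metric.ball e0 s') := by
        refine hΦ.comp h1 ?_
        intro e he
        exact Metric.ball_subset_ball (by linarith) (hmem e he _ (hW n e he)).1
      exact ih.sub (L.differentiable.comp_differentiableOn h2)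
  have hstep : ∀ n, ∀ e ∈ Metric.ball e0 s',
      dist (K10_it Φ L v0 n e) (K10_it Φ L v0 (n + 1) e) ≤ s / 4 * (1 / 2) ^ n := by
    intro n
    induction n with
    | zero =>
      intro e he
      have : K10_it Φ L v0 (0 + 1) e = v0 - L (Φ (e, v0)) := rfl
      rw [this, show K10_it Φ L v0 0 e = v0 from rfl, dist_eq_norm, sub_sub_cancel, pow_zero,
        mul_one]
      exact hfirst e he
    | succ n ih =>
      intro e he
      have h1 := hcontr e he _ (hW n e he) _ (hW (n + 1) e he)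
      rw [← dist_eq_norm, ← dist_eq_norm] at h1
      calc dist (K10_it Φ L v0 (n + 1) e) (K10_it Φ L v0 (n + 1 + 1) e)
          ≤ 1 / 2 * dist (K10_it Φ L v0 n e) (K10_it Φ L v0 (n + 1) e) := h1
        _ ≤ 1 / 2 * (s / 4 * (1 / 2) ^ n) := mul_le_mul_of_nonneg_left (ih e he) (by norm_num)
        _ = s / 4 * (1 / 2) ^ (n + 1) := by ring
  have hex : ∀ e, ∃ v : X, e ∈ Metric.ball e0 s' →
      Tendsto (fun n => K10_it Φ L v0 n e) atTop (𝓝 v) := by
    intro e
    by_cases he : e ∈ Metric.ball e0 s'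
    · have hc : CauchySeq (fun n => K10_it Φ L v0 n e) :=
        cauchySeq_of_le_geometric (1 / 2) (s / 4) (by norm_num) (fun n => hstep n e he)
      obtain ⟨v, hv⟩ := cauchySeq_tendsto_of_complete hc
      exact ⟨v, fun _ => hv⟩
    · exact ⟨v0, fun h => absurd h he⟩
  choose w hw using hex
  have hgeo : ∀ n, ∀ e ∈ Metric.ball e0 s',
      dist (K10_it Φ L v0 n e) (w e) ≤ s / 4 * (1 / 2) ^ n / (1 - 1 / 2) := fun n e he =>
    dist_le_of_le_geometric_of_tendsto (1 / 2) (s / 4) (by norm_num) (fun n => hstep n e he)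
      (hw e he) n
  have hws : ∀ e ∈ Metric.ball e0 s', ‖w e - v0‖ ≤ s / 2 := by
    intro e he
    have h1 := hgeo 0 e he
    rw [show K10_it Φ L v0 0 e = v0 from rfl, dist_comm, dist_eq_norm] at h1
    refine h1.trans (le_of_eq ?_)
    ring
  have hwc : ∀ e ∈ Metric.ball e0 s', w e ∈ Metric.closedBall v0 s := by
    intro e he
    rw [Metric.mem_closedBall, dist_eq_norm]
    have := hws e he
    linarith
  have hfix : ∀ e ∈ Metric.ball e0 s', w e - L (Φ (e, w e)) = w e := by
    intro e he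
    have h1 : Tendsto (fun n => K10_it Φ L v0 (n + 1) e) atTop (𝓝 (w e)) :=
      (tendsto_add_atTop_iff_nat 1).2 (hw e he)
    have h2 : Tendsto (fun n => K10_it Φ L v0 (n + 1) e) atTop (𝓝 (w e - L (Φ (e, w e)))) := by
      rw [tendsto_iff_dist_tendsto_zero]
      have h3 : Tendsto (fun n => 1 / 2 * dist (K10_it Φ L v0 n e) (w e)) atTop (𝓝 0) := by
        have := (tendsto_iff_dist_tendsto_zero.1 (hw e he)).const_mul (1 / 2)
        rwa [mul_zero] at this
      refine squeeze_zero (fun n => dist_nonneg) (fun n => ?_) h3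
      have h4 := hcontr e he _ (hW n e he) _ (hwc e he)
      rw [← dist_eq_norm, ← dist_eq_norm] at h4
      exact h4
    exact tendsto_nhds_unique h2 h1
  refine ⟨w, ?_, ?_, ?_, ?_⟩
  · refine holo_lim Metric.isOpen_ball hWd ?_
    rw [Metric.tendstoUniformlyOn_iff]
    intro ε hε
    have h1 : Tendsto (fun n : ℕ => s / 4 * (1 / 2 : ℝ) ^ n / (1 - 1 / 2)) atTop (𝓝 0) := by
      have := ((tendsto_pow_atTop_nhds_zero_of_lt_one (r := (1 / 2 : ℝ)) (by norm_num)
        (by norm_num)).const_mul (s / 4)).div_const (1 - 1 / 2)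
      simpa using this
    filter_upwards [(tendsto_order.1 h1).2 ε hε] with n hn e he
    rw [dist_comm]
    exact (hgeo n e he).trans_lt hn
  · have he0 : e0 ∈ Metric.ball e0 s' := Metric.mem_ball_self hs'0
    have h1 : ∀ n, K10_it Φ L v0 n e0 = v0 := by
      intro n
      induction n with
      | zero => rfl
      | succ n ih =>
        have : K10_it Φ L v0 (n + 1) e0
          = K10_it Φ L v0 n e0 - L (Φ (e0, K10_it Φ L v0 n e0)) := rfl
        rw [this, ih, h0, map_zero, sub_zero]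
    have h2 := hw e0 he0
    simp only [h1] at h2
    exact (tendsto_nhds_unique h2 tendsto_const_nhds)
  · intro e he
    refine ⟨hws e he, ?_⟩
    have h1 : L (Φ (e, w e)) = 0 := by
      have := hfix e he
      rwa [sub_eq_self] at this
    have h2 := hL' (Φ (e, w e))
    rw [h1] at h2
    rw [← h2]
    have h3 : ((0, 0) : EC × X) = 0 := rfl
    rw [h3, map_zero]
  · intro e he v hv hv1
    have h1 := hcontr e he v hv _ (hwc e he)
    rw [hfix e he, hv1, map_zero, sub_zero] at h1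
    have h2 : ‖v - w e‖ ≤ 0 := by
      have := norm_nonneg (v - w e)
      linarith
    exact sub_eq_zero.1 (norm_le_zero_iff.1 h2)

end BE36
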