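import Pool.Agent.LibBE36K.K08

/-! Row BE36 K12 (cites K07, K08; only Mathlib otherwise): the flow of a holomorphic field near a given orbit.
MEDIUM / STRONG, 60 min.
Plan (Picard). `U = ⋃ t ∈ [0, 1], ball (c t) r`, `V = ball (c 0) (r e^{-Λ})`. Put `Ψ 0 t e = c t` and
`Ψ (n+1) t e = e + ∫ s in 0..t, G (Ψ n s e)`. By induction on `n`, for `e ∈ V`, `δ = ‖e - c 0‖`: `Ψ n` is continuous on
`[0, 1] × V`, holomorphic in `e` for fixed `t`, and `‖Ψ n t e - c t‖ ≤ δ e^{Λ t} < r` (so `Ψ n t e ∈ ball (c t) r ⊆ U` and the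
segment from `c t` to it lies in this ball, where `G` is `Λ`-Lipschitz): `c t = c 0 + ∫ G (c s)`, so
`‖Ψ (n+1) t e - c t‖ ≤ δ + ∫ 0..t Λ δ e^{Λ s} = δ e^{Λ t}`. Continuity and holomorphy: `holo_int`, `holo_int_cont`
(`H e s = G (Ψ n s e)`: composition; `G` is continuous on `U`, which is open). Convergence: on the segment between two
points of `ball (c s) r` the field is `Λ`-Lipschitz (ball convex), so
`‖Ψ (n+1) t e - Ψ n t e‖ ≤ r (Λ t) ^ n / n !`; the limit `Ψ t e` is uniform on `[0, 1] × V`: holomorphic (`holo_lim`), continuous,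
`‖Ψ t e - c t‖ ≤ δ e^{Λ t} < r`, and it satisfies the integral equation (`tendsto` under the integral: uniform
convergence). If `G` maps real points to real points the iterates are real: `hreal`-clause: for a closed set `S` (the
real points) which is closed under addition and contains all integrals of continuous functions with values in `S`;
here: `S` a closed real subspace, given as the zero set of a continuous additive map `J : X → Z`,
`J (r • z) = r • J z` for real `r`: if `J (G z) = 0` whenever `J z = 0`, `z ∈ U`, and `J (c t) = 0`, then `J (Ψ t e) = 0` for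
`e ∈ V`, `J e = 0` (the same induction). -/

open MeasureTheory Set Filter Topology

namespace BE36

variable {X : Type} [NormedAddCommGroup X] [NormedSpace ℂ X] [FiniteDimensional ℂ X]

/-- The Picard iterates. -/
noncomputable def K12_P (c : ℝ → X) (G : X → X) : ℕ → ℝ → X → X
  | 0 => fun t _ => c t
  | (n + 1) => fun t e => e + ∫ s in (0 : ℝ)..t, G (K12_P c G n s e)

omit [FiniteDimensional ℂ X] in
theorem K12_lip {G : X → X} {z0 : X} {r Λ : ℝ} (hG : DifferentiableOn ℂ G (Metric.ball z0 r))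
    (hGΛ : ∀ z ∈ Metric.ball z0 r, ‖fderiv ℂ G z‖ ≤ Λ) {z w : X} (hz : z ∈ Metric.ball z0 r)
    (hw : w ∈ Metric.ball z0 r) : ‖G z - G w‖ ≤ Λ * ‖z - w‖ :=
  Convex.norm_image_sub_le_of_norm_fderiv_le
    (fun x hx => (hG x hx).differentiableAt (Metric.isOpen_ball.mem_nhds hx)) hGΛ
    (convex_ball z0 r) hw hz

theorem K12_exp {r Λ d t : ℝ} (hΛ : 0 ≤ Λ) (hd0 : 0 ≤ d) (hd : d < r * Real.exp (-Λ))
    (ht : t ≤ 1) : d * Real.exp (Λ * t) < r := by
  have h1 : d * Real.exp (Λ * t) ≤ d * Real.exp Λ := by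
    apply mul_le_mul_of_nonneg_left _ hd0
    apply Real.exp_le_exp.2
    nlinarith
  have h2 : d * Real.exp Λ < r * Real.exp (-Λ) * Real.exp Λ :=
    mul_lt_mul_of_pos_right hd (Real.exp_pos _)
  have h3 : r * Real.exp (-Λ) * Real.exp Λ = r := by
    rw [mul_assoc, ← Real.exp_add]; simp
  linarith

/-- The integral of the exponential. -/
theorem K12_int_exp (Λ d t : ℝ) :
    ∫ s in (0 : ℝ)..t, Λ * (d * Real.exp (Λ * s)) = d * Real.exp (Λ * t) - d := by
  have h : ∀ s ∈ uIcc 0 t, HasDerivAt (fun s : ℝ => d * Real.exp (Λ * s))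
      (Λ * (d * Real.exp (Λ * s))) s := by
    intro s _
    have h1 : HasDerivAt (fun s : ℝ => Λ * s) Λ s := by
      simpa using (hasDerivAt_id s).const_mul Λ
    have h2 := (h1.exp).const_mul d
    exact h2.congr_deriv (by ring)
  rw [intervalIntegral.integral_eq_sub_of_hasDerivAt h]
  · simp
  · apply Continuous.intervalIntegrable
    fun_prop

/-- The integral of the power. -/
theorem K12_int_pow (Λ r t : ℝ) (n : ℕ) :
    ∫ s in (0 : ℝ)..t, Λ * (r * ((Λ * s) ^ n / n.factorial))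
      = r * ((Λ * t) ^ (n + 1) / (n + 1).factorial) := by
  have h : ∀ s ∈ uIcc 0 t, HasDerivAt
      (fun s : ℝ => r * ((Λ * s) ^ (n + 1) / (n + 1).factorial))
      (Λ * (r * ((Λ * s) ^ n / n.factorial))) s := by
    intro s _
    have h1 : HasDerivAt (fun s : ℝ => Λ * s) Λ s := by
      simpa using (hasDerivAt_id s).const_mul Λ
    have h2 : HasDerivAt (fun s : ℝ => r * ((Λ * s) ^ (n + 1) / (n + 1).factorial)) _ s :=
      ((h1.pow (n + 1)).div_const ((n + 1).factorial : ℝ)).const_mul r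
    refine h2.congr_deriv ?_
    rw [Nat.factorial_succ]
    have : ((n : ℝ) + 1) ≠ 0 := by positivity
    have h3 : (n.factorial : ℝ) ≠ 0 := by positivity
    push_cast
    field_simp
  rw [intervalIntegral.integral_eq_sub_of_hasDerivAt h]
  · simp
  · apply Continuous.intervalIntegrable
    fun_prop

section step

variable {c : ℝ → X} {G : X → X} {r Λ : ℝ}

/-- The properties of the iterates. -/
structure K12_Good (c : ℝ → X) (r Λ : ℝ) (Ψ : ℝ → X → X) : Prop where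
  holo : ∀ t ∈ Icc (0 : ℝ) 1, DifferentiableOn ℂ (Ψ t) (Metric.ball (c 0) (r * Real.exp (-Λ)))
  cont : ContinuousOn (fun p : X × ℝ => Ψ p.2 p.1)
    (Metric.ball (c 0) (r * Real.exp (-Λ)) ×ˢ Icc 0 1)
  bound : ∀ t ∈ Icc (0 : ℝ) 1, ∀ e ∈ Metric.ball (c 0) (r * Real.exp (-Λ)),
    ‖Ψ t e - c t‖ ≤ ‖e - c 0‖ * Real.exp (Λ * t)

omit [FiniteDimensional ℂ X] in
theorem K12_Good.mem (hΛ : 0 ≤ Λ) {Ψ : ℝ → X → X} (h : K12_Good c r Λ Ψ) {t : ℝ}
    (ht : t ∈ Icc (0 : ℝ) 1) {e : X} (he : e ∈ Metric.ball (c 0) (r * Real.exp (-Λ))) :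
    Ψ t e ∈ Metric.ball (c t) r := by
  rw [mem_ball_iff_norm] at he ⊢
  exact lt_of_le_of_lt (h.bound t ht e (by rwa [mem_ball_iff_norm]))
    (K12_exp hΛ (norm_nonneg _) he ht.2)

omit [FiniteDimensional ℂ X] in
/-- joint continuity of `G (Ψ s e)` -/
theorem K12_Good.contG (hΛ : 0 ≤ Λ) {Ψ : ℝ → X → X} (h : K12_Good c r Λ Ψ)
    (hG : ∀ t ∈ Icc (0 : ℝ) 1, DifferentiableOn ℂ G (Metric.ball (c t) r)) :
    ContinuousOn (fun p : X × ℝ => G (Ψ p.2 p.1))
      (Metric.ball (c 0) (r * Real.exp (-Λ)) ×ˢ Icc 0 1) := by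
  intro p hp
  have h1 : Ψ p.2 p.1 ∈ Metric.ball (c p.2) r := h.mem hΛ hp.2 hp.1
  have h2 : ContinuousAt G (Ψ p.2 p.1) :=
    ((hG p.2 hp.2 _ h1).differentiableAt (Metric.isOpen_ball.mem_nhds h1)).continuousAt
  exact ContinuousAt.comp_continuousWithinAt h2 (h.cont p hp)

omit [FiniteDimensional ℂ X] in
theorem K12_Good.contGt (hΛ : 0 ≤ Λ) {Ψ : ℝ → X → X} (h : K12_Good c r Λ Ψ)
    (hG : ∀ t ∈ Icc (0 : ℝ) 1, DifferentiableOn ℂ G (Metric.ball (c t) r)) {e : X}
    (he : e ∈ Metric.ball (c 0) (r * Real.exp (-Λ))) :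
    ContinuousOn (fun s : ℝ => G (Ψ s e)) (Icc 0 1) := by
  have h1 := h.contG hΛ hG
  have h2 : ContinuousOn (fun s : ℝ => (e, s)) (Icc 0 1) := by fun_prop
  exact h1.comp h2 (fun s hs => ⟨he, hs⟩)

omit [FiniteDimensional ℂ X] [NormedSpace ℂ X] in
theorem K12_ii {f : ℝ → X} (hf : ContinuousOn f (Icc 0 1)) {t : ℝ} (ht : t ∈ Icc (0 : ℝ) 1) :
    IntervalIntegrable f volume 0 t := by
  apply ContinuousOn.intervalIntegrable
  apply hf.mono
  rw [uIcc_of_le ht.1]
  exact Icc_subset_Icc_right ht.2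

theorem K12_Good.step (hr : 0 < r) (hΛ : 0 ≤ Λ)
    (hG : ∀ t ∈ Icc (0 : ℝ) 1, DifferentiableOn ℂ G (Metric.ball (c t) r))
    (hGΛ : ∀ t ∈ Icc (0 : ℝ) 1, ∀ z ∈ Metric.ball (c t) r, ‖fderiv ℂ G z‖ ≤ Λ)
    (hc : ContinuousOn c (Icc 0 1))
    (hc' : ∀ t ∈ Icc (0 : ℝ) 1, c t = c 0 + ∫ s in (0 : ℝ)..t, G (c s))
    {Ψ : ℝ → X → X} (h : K12_Good c r Λ Ψ) :
    K12_Good c r Λ (fun t e => e + ∫ s in (0 : ℝ)..t, G (Ψ s e)) := by
  refine ⟨?_, ?_, ?_⟩
  · intro t ht
    apply DifferentiableOn.add differentiableOn_id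
    apply holo_int Metric.isOpen_ball (H := fun e s => G (Ψ s e))
    · apply (h.contG hΛ hG).mono
      apply Set.prod_mono_right
      rw [uIcc_of_le ht.1]
      exact Icc_subset_Icc_right ht.2
    · intro s hs
      have hs' : s ∈ Icc (0 : ℝ) 1 := by
        rw [uIcc_of_le ht.1] at hs
        exact ⟨hs.1, hs.2.trans ht.2⟩
      intro e he
      have h1 : Ψ s e ∈ Metric.ball (c s) r := h.mem hΛ hs' he
      have h2 : DifferentiableAt ℂ G (Ψ s e) :=
        (hG s hs' _ h1).differentiableAt (Metric.isOpen_ball.mem_nhds h1)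
      exact h2.comp_differentiableWithinAt e (h.holo s hs' e he)
  · apply ContinuousOn.add
    · fun_prop
    · exact holo_int_cont Metric.isOpen_ball zero_le_one (H := fun e s => G (Ψ s e))
        (h.contG hΛ hG)
  · intro t ht e he
    have hsub : ∀ s ∈ Icc (0 : ℝ) t, s ∈ Icc (0 : ℝ) 1 := fun s hs => ⟨hs.1, hs.2.trans ht.2⟩
    have hcG : ContinuousOn (fun s => G (c s)) (Icc 0 1) := by
      intro s hs
      have h1 : c s ∈ Metric.ball (c s) r := Metric.mem_ball_self hr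
      exact ContinuousAt.comp_continuousWithinAt
        ((hG s hs _ h1).differentiableAt (Metric.isOpen_ball.mem_nhds h1)).continuousAt (hc s hs)
    have i1 := K12_ii (h.contGt hΛ hG he) ht
    have i2 := K12_ii hcG ht
    have e1 : (e + ∫ s in (0 : ℝ)..t, G (Ψ s e)) - c t
        = (e - c 0) + ∫ s in (0 : ℝ)..t, (G (Ψ s e) - G (c s)) := by
      rw [intervalIntegral.integral_sub i1 i2]
      conv_lhs => rw [hc' t ht]
      abel
    have e2 : ‖∫ s in (0 : ℝ)..t, (G (Ψ s e) - G (c s))‖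
        ≤ ∫ s in (0 : ℝ)..t, Λ * (‖e - c 0‖ * Real.exp (Λ * s)) := by
      apply intervalIntegral.norm_integral_le_of_norm_le ht.1
      · filter_upwards with s hs
        have hs' : s ∈ Icc (0 : ℝ) 1 := hsub s ⟨hs.1.le, hs.2⟩
        refine (K12_lip (hG s hs') (hGΛ s hs') (h.mem hΛ hs' he)
          (Metric.mem_ball_self hr)).trans ?_
        exact mul_le_mul_of_nonneg_left (h.bound s hs' e he) hΛ
      · apply Continuous.intervalIntegrable
        fun_prop
    show ‖(e + ∫ s in (0 : ℝ)..t, G (Ψ s e)) - c t‖ ≤ _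
    rw [e1]
    refine (norm_add_le _ _).trans ?_
    rw [K12_int_exp] at e2
    linarith

theorem K12_good (hr : 0 < r) (hΛ : 0 ≤ Λ)
    (hG : ∀ t ∈ Icc (0 : ℝ) 1, DifferentiableOn ℂ G (Metric.ball (c t) r))
    (hGΛ : ∀ t ∈ Icc (0 : ℝ) 1, ∀ z ∈ Metric.ball (c t) r, ‖fderiv ℂ G z‖ ≤ Λ)
    (hc : ContinuousOn c (Icc 0 1))
    (hc' : ∀ t ∈ Icc (0 : ℝ) 1, c t = c 0 + ∫ s in (0 : ℝ)..t, G (c s)) (n : ℕ) :
    K12_Good c r Λ (K12_P c G n) := by
  induction n with
  | zero =>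
    refine ⟨fun t _ => differentiableOn_const _, ?_, ?_⟩
    · exact hc.comp continuousOn_snd (fun p hp => hp.2)
    · intro t _ e _
      simp only [K12_P, sub_self, norm_zero]
      positivity
  | succ n ih => exact ih.step hr hΛ hG hGΛ hc hc'

theorem K12_diff (hr : 0 < r) (hΛ : 0 ≤ Λ)
    (hG : ∀ t ∈ Icc (0 : ℝ) 1, DifferentiableOn ℂ G (Metric.ball (c t) r))
    (hGΛ : ∀ t ∈ Icc (0 : ℝ) 1, ∀ z ∈ Metric.ball (c t) r, ‖fderiv ℂ G z‖ ≤ Λ)
    (hc : ContinuousOn c (Icc 0 1))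
    (hc' : ∀ t ∈ Icc (0 : ℝ) 1, c t = c 0 + ∫ s in (0 : ℝ)..t, G (c s)) (n : ℕ) :
    ∀ t ∈ Icc (0 : ℝ) 1, ∀ e ∈ Metric.ball (c 0) (r * Real.exp (-Λ)),
      ‖K12_P c G (n + 1) t e - K12_P c G n t e‖ ≤ r * ((Λ * t) ^ n / n.factorial) := by
  induction n with
  | zero =>
    intro t ht e he
    have h1 := (K12_good hr hΛ hG hGΛ hc hc' 1).mem hΛ ht he
    rw [mem_ball_iff_norm] at h1
    simp only [K12_P, pow_zero, Nat.factorial_zero, Nat.cast_one, div_one, mul_one]
    simp only [K12_P] at h1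
    exact h1.le
  | succ n ih =>
    intro t ht e he
    have g1 := K12_good hr hΛ hG hGΛ hc hc' (n + 1)
    have g0 := K12_good hr hΛ hG hGΛ hc hc' n
    have i1 := K12_ii (g1.contGt hΛ hG he) ht
    have i0 := K12_ii (g0.contGt hΛ hG he) ht
    have e1 : K12_P c G (n + 1 + 1) t e - K12_P c G (n + 1) t e
        = ∫ s in (0 : ℝ)..t, (G (K12_P c G (n + 1) s e) - G (K12_P c G n s e)) := by
      rw [intervalIntegral.integral_sub i1 i0]
      show (e + ∫ s in (0 : ℝ)..t, G (K12_P c G (n + 1) s e))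
        - (e + ∫ s in (0 : ℝ)..t, G (K12_P c G n s e)) = _
      abel
    rw [e1, ← K12_int_pow]
    apply intervalIntegral.norm_integral_le_of_norm_le ht.1
    · filter_upwards with s hs
      have hs' : s ∈ Icc (0 : ℝ) 1 := ⟨hs.1.le, hs.2.trans ht.2⟩
      refine (K12_lip (hG s hs') (hGΛ s hs') (g1.mem hΛ hs' he) (g0.mem hΛ hs' he)).trans ?_
      exact mul_le_mul_of_nonneg_left (ih s hs' e he) hΛ
    · apply Continuous.intervalIntegrable
      fun_prop

/-- the limit -/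
theorem K12_limit (hr : 0 < r) (hΛ : 0 ≤ Λ)
    (hG : ∀ t ∈ Icc (0 : ℝ) 1, DifferentiableOn ℂ G (Metric.ball (c t) r))
    (hGΛ : ∀ t ∈ Icc (0 : ℝ) 1, ∀ z ∈ Metric.ball (c t) r, ‖fderiv ℂ G z‖ ≤ Λ)
    (hc : ContinuousOn c (Icc 0 1))
    (hc' : ∀ t ∈ Icc (0 : ℝ) 1, c t = c 0 + ∫ s in (0 : ℝ)..t, G (c s)) :
    ∃ Ψ : ℝ → X → X, ∀ ε > 0, ∀ᶠ n in atTop, ∀ t ∈ Icc (0 : ℝ) 1,
      ∀ e ∈ Metric.ball (c 0) (r * Real.exp (-Λ)), ‖K12_P c G n t e - Ψ t e‖ < ε := by
  have : CompleteSpace X := FiniteDimensional.complete ℂ X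
  have hu : Summable (fun n : ℕ => r * (Λ ^ n / n.factorial)) :=
    (Real.summable_pow_div_factorial Λ).mul_left r
  have hT := tendstoUniformlyOn_tsum_nat hu (s := Metric.ball (c 0) (r * Real.exp (-Λ)) ×ˢ
    Icc (0 : ℝ) 1) (f := fun n (p : X × ℝ) => K12_P c G (n + 1) p.2 p.1 - K12_P c G n p.2 p.1) (by
      intro n p hp
      refine (K12_diff hr hΛ hG hGΛ hc hc' n p.2 hp.2 p.1 hp.1).trans ?_
      apply mul_le_mul_of_nonneg_left _ hr.le
      apply div_le_div_of_nonneg_right _ (by positivity)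
      apply pow_le_pow_left₀ (mul_nonneg hΛ hp.2.1)
      have := hp.2.2
      nlinarith)
  refine ⟨fun t e => c t + ∑' n, (K12_P c G (n + 1) t e - K12_P c G n t e), ?_⟩
  intro ε hε
  rw [Metric.tendstoUniformlyOn_iff] at hT
  filter_upwards [hT ε hε] with n hn t ht e he
  have h1 := hn (e, t) ⟨he, ht⟩
  rw [dist_comm, dist_eq_norm] at h1
  simp only at h1
  rw [Finset.sum_range_sub (fun n => K12_P c G n t e) n] at h1
  have h2 : K12_P c G n t e - (c t + ∑' n, (K12_P c G (n + 1) t e - K12_P c G n t e))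
      = K12_P c G n t e - K12_P c G 0 t e - ∑' n, (K12_P c G (n + 1) t e - K12_P c G n t e) := by
    show _ = K12_P c G n t e - c t - _
    abel
  rw [h2]
  exact h1

end step

theorem picard {c : ℝ → X} {G : X → X} {r Λ : ℝ} (hr : 0 < r) (hΛ : 0 ≤ Λ)
    (hG : ∀ t ∈ Icc (0 : ℝ) 1, DifferentiableOn ℂ G (Metric.ball (c t) r))
    (hGΛ : ∀ t ∈ Icc (0 : ℝ) 1, ∀ z ∈ Metric.ball (c t) r, ‖fderiv ℂ G z‖ ≤ Λ)
    (hc : ContinuousOn c (Icc 0 1))
    (hc' : ∀ t ∈ Icc (0 : ℝ) 1, c t = c 0 + ∫ s in (0 : ℝ)..t, G (c s)) :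
    ∃ Ψ : ℝ → X → X,
      (∀ t ∈ Icc (0 : ℝ) 1,
        DifferentiableOn ℂ (Ψ t) (Metric.ball (c 0) (r * Real.exp (-Λ)))) ∧
      (∀ e ∈ Metric.ball (c 0) (r * Real.exp (-Λ)),
        ContinuousOn (fun t => Ψ t e) (Icc 0 1) ∧ ∀ t ∈ Icc (0 : ℝ) 1,
          ‖Ψ t e - c t‖ ≤ ‖e - c 0‖ * Real.exp (Λ * t) ∧
          Ψ t e = e + ∫ s in (0 : ℝ)..t, G (Ψ s e)) ∧
      ∀ (Z : Type) [NormedAddCommGroup Z] [NormedSpace ℝ Z] (J : X →L[ℝ] Z),
        (∀ t ∈ Icc (0 : ℝ) 1, J (c t) = 0) →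
        (∀ t ∈ Icc (0 : ℝ) 1, ∀ z ∈ Metric.ball (c t) r, J z = 0 → J (G z) = 0) →
        ∀ e ∈ Metric.ball (c 0) (r * Real.exp (-Λ)), J e = 0 →
          ∀ t ∈ Icc (0 : ℝ) 1, J (Ψ t e) = 0 := by
  have : CompleteSpace X := FiniteDimensional.complete ℂ X
  obtain ⟨Ψ, hΨ⟩ := K12_limit hr hΛ hG hGΛ hc hc'
  have good := K12_good hr hΛ hG hGΛ hc hc'
  have hpt : ∀ t ∈ Icc (0 : ℝ) 1, ∀ e ∈ Metric.ball (c 0) (r * Real.exp (-Λ)),
      Tendsto (fun n => K12_P c G n t e) atTop (𝓝 (Ψ t e)) := by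
    intro t ht e he
    rw [Metric.tendsto_nhds]
    intro ε hε
    filter_upwards [hΨ ε hε] with n hn
    rw [dist_eq_norm]
    exact hn t ht e he
  have hgood : K12_Good c r Λ Ψ := by
    refine ⟨?_, ?_, ?_⟩
    · intro t ht
      apply holo_lim Metric.isOpen_ball (f := fun n => K12_P c G n t)
        (fun n => (good n).holo t ht)
      rw [Metric.tendstoUniformlyOn_iff]
      intro ε hε
      filter_upwards [hΨ ε hε] with n hn e he
      rw [dist_comm, dist_eq_norm]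
      exact hn t ht e he
    · have hu : TendstoUniformlyOn (fun n (p : X × ℝ) => K12_P c G n p.2 p.1)
          (fun p => Ψ p.2 p.1) atTop (Metric.ball (c 0) (r * Real.exp (-Λ)) ×ˢ Icc 0 1) := by
        rw [Metric.tendstoUniformlyOn_iff]
        intro ε hε
        filter_upwards [hΨ ε hε] with n hn p hp
        rw [dist_comm, dist_eq_norm]
        exact hn p.2 hp.2 p.1 hp.1
      exact hu.continuousOn (Frequently.of_forall (fun n => (good n).cont))
    · intro t ht e he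
      have h1 : Tendsto (fun n => ‖K12_P c G n t e - c t‖) atTop (𝓝 ‖Ψ t e - c t‖) :=
        ((hpt t ht e he).sub_const _).norm
      exact le_of_tendsto h1 (Eventually.of_forall (fun n => (good n).bound t ht e he))
  refine ⟨Ψ, hgood.holo, ?_, ?_⟩
  · intro e he
    refine ⟨?_, ?_⟩
    · have h2 : ContinuousOn (fun s : ℝ => (e, s)) (Icc 0 1) := by fun_prop
      exact hgood.cont.comp h2 (fun s hs => ⟨he, hs⟩)
    · intro t ht
      refine ⟨hgood.bound t ht e he, ?_⟩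
      have key : ∀ ε > 0, ‖Ψ t e - (e + ∫ s in (0 : ℝ)..t, G (Ψ s e))‖ ≤ (1 + Λ) * ε := by
        intro ε hε
        obtain ⟨n, hn, hn1⟩ : ∃ n, (∀ t ∈ Icc (0 : ℝ) 1,
            ∀ e ∈ Metric.ball (c 0) (r * Real.exp (-Λ)), ‖K12_P c G n t e - Ψ t e‖ < ε) ∧
            (∀ t ∈ Icc (0 : ℝ) 1,
            ∀ e ∈ Metric.ball (c 0) (r * Real.exp (-Λ)), ‖K12_P c G (n + 1) t e - Ψ t e‖ < ε) := by
          have h1 := hΨ ε hε
          have h2 := (tendsto_add_atTop_nat 1).eventually h1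
          exact (h1.and h2).exists
        have i1 := K12_ii ((good n).contGt hΛ hG he) ht
        have i2 := K12_ii (hgood.contGt hΛ hG he) ht
        have e1 : Ψ t e - (e + ∫ s in (0 : ℝ)..t, G (Ψ s e))
            = -(K12_P c G (n + 1) t e - Ψ t e)
              + ∫ s in (0 : ℝ)..t, (G (K12_P c G n s e) - G (Ψ s e)) := by
          rw [intervalIntegral.integral_sub i1 i2]
          show _ = -((e + ∫ s in (0 : ℝ)..t, G (K12_P c G n s e)) - Ψ t e) + _
          abel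
        rw [e1]
        refine (norm_add_le _ _).trans ?_
        rw [norm_neg]
        have h3 := hn1 t ht e he
        have h4 : ‖∫ s in (0 : ℝ)..t, (G (K12_P c G n s e) - G (Ψ s e))‖ ≤ Λ * ε * |t - 0| := by
          apply intervalIntegral.norm_integral_le_of_norm_le_const
          intro s hs
          rw [uIoc_of_le ht.1] at hs
          have hs' : s ∈ Icc (0 : ℝ) 1 := ⟨hs.1.le, hs.2.trans ht.2⟩
          refine (K12_lip (hG s hs') (hGΛ s hs') ((good n).mem hΛ hs' he)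
            (hgood.mem hΛ hs' he)).trans ?_
          exact mul_le_mul_of_nonneg_left (hn s hs' e he).le hΛ
        have h5 : |t - 0| ≤ 1 := by rw [sub_zero, abs_of_nonneg ht.1]; exact ht.2
        have h6 : Λ * ε * |t - 0| ≤ Λ * ε * 1 :=
          mul_le_mul_of_nonneg_left h5 (mul_nonneg hΛ hε.le)
        linarith
      have h0 : ‖Ψ t e - (e + ∫ s in (0 : ℝ)..t, G (Ψ s e))‖ ≤ 0 := by
        apply le_of_forall_pos_le_add
        intro δ hδ
        have h1 := key (δ / (1 + Λ)) (by positivity)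
        rw [mul_div_cancel₀ δ (by positivity : (1 + Λ) ≠ 0)] at h1
        linarith
      have h1 := norm_le_zero_iff.1 h0
      exact sub_eq_zero.1 h1
  · intro Z _ _ J hJc hJG e he hJe t ht
    have hn : ∀ n, ∀ t ∈ Icc (0 : ℝ) 1, J (K12_P c G n t e) = 0 := by
      intro n
      induction n with
      | zero => exact hJc
      | succ n ih =>
        intro t ht
        show J (e + ∫ s in (0 : ℝ)..t, G (K12_P c G n s e)) = 0
        rw [map_add, hJe, zero_add]
        have i1 := K12_ii ((good n).contGt hΛ hG he) ht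
        have h0 : ∀ s ∈ uIcc 0 t, J (G (K12_P c G n s e)) = 0 := by
          intro s hs
          rw [uIcc_of_le ht.1] at hs
          have hs' : s ∈ Icc (0 : ℝ) 1 := ⟨hs.1, hs.2.trans ht.2⟩
          exact hJG s hs' _ ((good n).mem hΛ hs' he) (ih s hs')
        have h1 := ((UniformSpace.Completion.toComplL (𝕜 := ℝ) (E := Z)).comp
          J).intervalIntegral_comp_comm i1
        have h2 : ∫ s in (0 : ℝ)..t, ((UniformSpace.Completion.toComplL (𝕜 := ℝ) (E := Z)).comp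
            J) (G (K12_P c G n s e)) = ∫ s in (0 : ℝ)..t, 0 := by
          apply intervalIntegral.integral_congr
          intro s hs
          simp only [ContinuousLinearMap.comp_apply, h0 s hs, map_zero]
        rw [h2, intervalIntegral.integral_zero] at h1
        have h3 : (UniformSpace.Completion.toComplₗᵢ (𝕜 := ℝ) (E := Z))
          (J (∫ s in (0 : ℝ)..t, G (K12_P c G n s e))) = 0 := h1.symm
        exact (LinearIsometry.map_eq_iff _ (x := J (∫ s in (0 : ℝ)..t, G (K12_P c G n s e)))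
          (y := 0)).1 (by rw [h3, map_zero])
    have h1 : Tendsto (fun n => J (K12_P c G n t e)) atTop (𝓝 (J (Ψ t e))) :=
      (J.continuous.tendsto _).comp (hpt t ht e he)
    have h2 : (fun n => J (K12_P c G n t e)) = fun _ => 0 := funext (fun n => hn n t ht)
    rw [h2] at h1
    exact (tendsto_nhds_unique h1 tendsto_const_nhds)

end BE36
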