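import Pool.Agent.LibBE36K.K02

/-! Row BE36 K14 (cites K01, K02): one function, holomorphic near the real points of a compact set. SHORT, 25 min.
Plan. `of '' K` is compact and contained in the open set `U`: `IsCompact.exists_thickening_subset_open` /
`IsCompact.exists_cthickening_subset_open` gives `δ > 0` with `cthickening δ (of '' K) ⊆ U`, a compact set if `EC` is proper
(finite dimensional, `fd_EC`; `FiniteDimensional.proper ℂ EC`), where the continuous function `g` is bounded by some `B`;
`A = max B (1 / δ) + 1`, scale `0`: `hc A 0 = A`. `HB_ball`: `K` compact `⊆` a ball. -/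

open Set Filter Topology

namespace BE36

variable {E F EC FC : Type} [NormedAddCommGroup E] [NormedSpace ℝ E] [FiniteDimensional ℝ E]
  [NormedAddCommGroup F] [NormedSpace ℝ F] [NormedAddCommGroup EC] [NormedSpace ℂ EC]
  [NormedAddCommGroup FC] [NormedSpace ℂ FC] [CX E EC] [CX F FC]

theorem HB_compact {K : Set E} (hK : IsCompact K) {U : Set EC} (hU : IsOpen U)
    (hKU : ∀ x ∈ K, (CX.of x : EC) ∈ U) {f : E → F} {g : EC → FC} (hg : DifferentiableOn ℂ g U)
    (he : ∀ y : E, (CX.of y : EC) ∈ U → g (CX.of y) = CX.of (f y)) :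
    HB (fun _ : K => (0 : ℝ)) (fun _ => f) (fun x => (x : E)) := by
  have hfd : FiniteDimensional ℂ EC := fd_EC (E := E)
  have hpr : ProperSpace EC := FiniteDimensional.proper ℂ EC
  have hS : IsCompact ((CX.of : E → EC) '' K) := hK.image of_cont
  have hSU : (CX.of : E → EC) '' K ⊆ U := by
    rintro _ ⟨x, hx, rfl⟩
    exact hKU x hx
  obtain ⟨δ, hδ, hδU⟩ := hS.exists_cthickening_subset_open hU hSU
  have hT : IsCompact (Metric.cthickening δ ((CX.of : E → EC) '' K)) := hS.cthickening
  obtain ⟨B, hB⟩ := hT.exists_bound_of_continuousOn (hg.continuousOn.mono hδU)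
  have hδ1 : 0 < 1 / δ := by positivity
  have h1 : 1 / δ ≤ max B (1 / δ) := le_max_right _ _
  have h2 : B ≤ max B (1 / δ) := le_max_left _ _
  refine ⟨max B (1 / δ) + 1, by linarith, ?_⟩
  intro x
  have hc0 : hc (max B (1 / δ) + 1) 0 = max B (1 / δ) + 1 := by
    unfold hc
    rw [mul_zero, Real.exp_zero, mul_one]
  show HE f (x : E) (hc (max B (1 / δ) + 1) 0)⁻¹ (hc (max B (1 / δ) + 1) 0)
  rw [hc0]
  have hr : (max B (1 / δ) + 1)⁻¹ ≤ δ := by
    rw [inv_le_comm₀ (by linarith) hδ, ← one_div]
    linarith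
  have hsub : Metric.ball (CX.of (x : E) : EC) (max B (1 / δ) + 1)⁻¹ ⊆
      Metric.cthickening δ ((CX.of : E → EC) '' K) := by
    refine (Metric.ball_subset_ball hr).trans ?_
    refine (Metric.ball_subset_thickening (mem_image_of_mem _ x.2) δ).trans ?_
    exact Metric.thickening_subset_cthickening _ _
  refine ⟨g, hg.mono (hsub.trans hδU), ?_, fun y hy => he y (hδU (hsub hy))⟩
  intro z hz
  have := hB z (hsub hz)
  linarith

end BE36
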